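import Pool.Agent.T9h54.MY.Rzy

/-!
# Averages of Kloosterman sums modulo `p ^ (2l - 1)`
-/

set_option autoImplicit false

open Filter Topology Finset

namespace Pool.Agent.T9h54.MY

open Pool.Agent.Y821.ME
open Pool.Agent.T9h54.MX (nu tg norm_nu abs_tg card_units_ge loc_sum Wt yb Near w_le exists_K exists_l cos_sq_le)

section

variable (p l : ℕ) [Fact p.Prime]

/-- the complex form of the approximation -/
theorem approxC (hl : 1 ≤ l) (R : ℤ → ZMod (p ^ (2 * l))) (S : Finset ℤ)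
    (w : (ZMod (p ^ (2 * l)))ˣ → ℝ)
    (hw : ∀ b, (w b : ℂ) = (Fintype.card (ZMod (p ^ (2 * l)))ˣ : ℂ)⁻¹ *
      ∏ j ∈ S, RZ2.fac (p ^ (2 * l)) R nu (b : ZMod (p ^ (2 * l))) j) (K : ℕ) (x₀ : ℝ)
    (x : ZMod (p ^ (2 * l))) :
    ‖∑ b, ((w b * Wt (p ^ (2 * l)) K x₀ b : ℝ) : ℂ) * ee (p ^ (2 * l)) (x * b) -
      (((Nat.centralBinom K : ℝ) / 4 ^ K : ℝ) : ℂ) * ∑ b, (w b : ℂ) * ee (p ^ (2 * l)) (x * b)‖ ≤
      2 ^ S.card * (4 * K) / (p : ℝ) ^ l := by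
  have hp := (Fact.out : p.Prime)
  have hq : p ^ l * p ^ l = p ^ (2 * l) := by rw [← pow_add, ← two_mul]
  have h1 := loc_sum (p ^ (2 * l)) (p ^ l) hq R nu norm_nu S K x₀ x
  set φ : ℂ := (Fintype.card (ZMod (p ^ (2 * l)))ˣ : ℂ) with hφ
  have hc := card_units_ge p l hl
  have hp0 : (0 : ℝ) < p := by exact_mod_cast hp.pos
  have hφpos : (0 : ℝ) < (Fintype.card (ZMod (p ^ (2 * l)))ˣ : ℝ) := by
    have : (0 : ℝ) < (p : ℝ) ^ (2 * l) / 2 := by positivity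
    linarith
  have h3 : φ⁻¹ * (∑ b : (ZMod (p ^ (2 * l)))ˣ, (∏ j ∈ S, RZ2.fac (p ^ (2 * l)) R nu (b : ZMod (p ^ (2 * l))) j) *
        ((Wt (p ^ (2 * l)) K x₀ b : ℂ) * ee (p ^ (2 * l)) (x * b)) -
      ((Nat.centralBinom K : ℕ) : ℂ) / 4 ^ K *
        ∑ b : (ZMod (p ^ (2 * l)))ˣ, (∏ j ∈ S, RZ2.fac (p ^ (2 * l)) R nu (b : ZMod (p ^ (2 * l))) j) *
          ee (p ^ (2 * l)) (x * b)) =
        ∑ b, ((w b * Wt (p ^ (2 * l)) K x₀ b : ℝ) : ℂ) * ee (p ^ (2 * l)) (x * b) -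
        (((Nat.centralBinom K : ℝ) / 4 ^ K : ℝ) : ℂ) * ∑ b, (w b : ℂ) * ee (p ^ (2 * l)) (x * b) := by
    rw [mul_sub, Finset.mul_sum, Finset.mul_sum, Finset.mul_sum, Finset.mul_sum]
    congr 1
    · refine Finset.sum_congr rfl fun b _ => ?_
      push_cast
      rw [hw b]
      ring
    · refine Finset.sum_congr rfl fun b _ => ?_
      push_cast
      rw [hw b]
      ring
  rw [← h3]
  rw [norm_mul, norm_inv, hφ, Complex.norm_natCast]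
  refine (mul_le_mul_of_nonneg_left h1 (by positivity)).trans ?_
  push_cast
  rw [inv_mul_eq_div, div_le_div_iff₀ hφpos (by positivity)]
  have h4 : (p : ℝ) ^ (2 * l) = (p : ℝ) ^ l * (p : ℝ) ^ l := by rw [← pow_add, ← two_mul]
  have h5 : (0 : ℝ) ≤ 2 ^ S.card * (4 * K) := by positivity
  calc 2 ^ S.card * (2 * (K : ℝ) * (p : ℝ) ^ l) * (p : ℝ) ^ l
      = 2 ^ S.card * (4 * K) * ((p : ℝ) ^ (2 * l) / 2) := by rw [h4]; ring
    _ ≤ 2 ^ S.card * (4 * K) * (Fintype.card (ZMod (p ^ (2 * l)))ˣ : ℝ) := mul_le_mul_of_nonneg_left hc h5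

theorem lift_zero (hl : 1 ≤ l) (z : ZMod (p ^ (2 * l))) (h : (p : ZMod (p ^ (2 * l - 1))) * rd p l z = 0) :
    (p : ZMod (p ^ (2 * l))) * (p * z) = 0 := by
  have h1 : z = ((z.val : ℕ) : ZMod (p ^ (2 * l))) := by rw [ZMod.natCast_zmod_val]
  have h2 : (p : ZMod (p ^ (2 * l - 1))) * rd p l z = ((p * z.val : ℕ) : ZMod (p ^ (2 * l - 1))) := by
    conv_lhs => rw [h1]
    rw [map_natCast]
    push_cast
    ring
  rw [h2, ZMod.natCast_eq_zero_iff] at h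
  have h3 : (p : ZMod (p ^ (2 * l))) * (p * z) = ((p * (p * z.val) : ℕ) : ZMod (p ^ (2 * l))) := by
    conv_lhs => rw [h1]
    push_cast
    ring
  rw [h3, ZMod.natCast_eq_zero_iff]
  have h4 : p ^ (2 * l) = p * p ^ (2 * l - 1) := by
    rw [← pow_succ']
    congr 1
    omega
  obtain ⟨v, hv⟩ := h
  refine ⟨v, ?_⟩
  rw [hv, h4]
  ring

theorem rd_val (y : ZMod (p ^ (2 * l - 1))) : rd p l ((y.val : ℕ) : ZMod (p ^ (2 * l))) = y := by
  rw [map_natCast, ZMod.natCast_zmod_val]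

/-- the frequencies of the Kloosterman sums are outside of the spectrum -/
theorem freq_ne (Y : ℕ) (hl : 1 ≤ l) (S : Finset ℤ) (hS : S ⊆ Gs Y p) (hp2 : p ≠ 2)
    (r : ℤ → (ZMod (p ^ (2 * l)))ˣ)
    (hr : ∀ g ∈ Gs Y p, (g : ZMod (p ^ (2 * l))) * (r g : ZMod (p ^ (2 * l))) ^ 2 = 1)
    (hR : ∀ h : ℤ → ℤ, (∀ m ∈ Gs Y p, |h m| ≤ (p : ℤ) + 2) → (∃ m ∈ Gs Y p, h m ≠ 0) →
      (p : ZMod (p ^ (2 * l))) * (2 * ∑ m ∈ Gs Y p, (h m : ZMod (p ^ (2 * l))) *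
        ((r m : (ZMod (p ^ (2 * l)))ˣ) : ZMod (p ^ (2 * l)))) ≠ 0)
    (g : ℤ) (hg : g ∈ Gs Y p) (g' : (ZMod (p ^ (2 * l - 1)))ˣ)
    (hg' : (g' : ZMod (p ^ (2 * l - 1))) = (g : ZMod (p ^ (2 * l - 1))))
    (x : (ZMod (p ^ (2 * l - 1)))ˣ)
    (hx : x ∈ Xc p l ((g'⁻¹ : (ZMod (p ^ (2 * l - 1)))ˣ) : ZMod (p ^ (2 * l - 1))))
    (h : ℤ → ℤ) (hh : ∀ j, |h j| ≤ 1) :
    (p : ZMod (p ^ (2 * l))) * ((p : ZMod (p ^ (2 * l))) *
        ((((x : ZMod (p ^ (2 * l - 1))) + ((g'⁻¹ : (ZMod (p ^ (2 * l - 1)))ˣ) : ZMod (p ^ (2 * l - 1))) *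
          ((x⁻¹ : (ZMod (p ^ (2 * l - 1)))ˣ) : ZMod (p ^ (2 * l - 1)))).val : ℕ) : ZMod (p ^ (2 * l))) +
        2 * ∑ j ∈ S, (h j : ZMod (p ^ (2 * l))) * ((r j : (ZMod (p ^ (2 * l)))ˣ) : ZMod (p ^ (2 * l)))) ≠ 0 := by
  classical
  have hp : p.Prime := Fact.out
  have hp3 : 3 ≤ p := by
    have := hp.two_le
    omega
  set ρ : (ZMod (p ^ (2 * l - 1)))ˣ := Units.map (rd p l : ZMod (p ^ (2 * l)) →* ZMod (p ^ (2 * l - 1))) (r g) with hρ
  have hρv : (ρ : ZMod (p ^ (2 * l - 1))) = rd p l (r g : ZMod (p ^ (2 * l))) := rfl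
  have hgρ : ((g'⁻¹ : (ZMod (p ^ (2 * l - 1)))ˣ) : ZMod (p ^ (2 * l - 1))) = (ρ : ZMod (p ^ (2 * l - 1))) ^ 2 := by
    have h1 := congrArg (rd p l) (hr g hg)
    rw [map_mul, map_pow, map_intCast, map_one, ← hρv, ← hg'] at h1
    have h2 : g' * ρ ^ 2 = 1 := by
      ext
      rw [Units.val_mul, Units.val_pow_eq_pow_val, Units.val_one]
      exact h1
    rw [inv_eq_of_mul_eq_one_right h2, Units.val_pow_eq_pow_val]
  rw [hgρ] at hx ⊢
  set y : ZMod (p ^ (2 * l - 1)) := (x : ZMod (p ^ (2 * l - 1))) + (ρ : ZMod (p ^ (2 * l - 1))) ^ 2 *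
          ((x⁻¹ : (ZMod (p ^ (2 * l - 1)))ˣ) : ZMod (p ^ (2 * l - 1))) with hy
  obtain ⟨e, he, hye⟩ : ∃ e : ℤ, |e| = 1 ∧ (p : ZMod (p ^ (2 * l))) * (p * (((y.val : ℕ) : ZMod (p ^ (2 * l))) -
      2 * e * (r g : ZMod (p ^ (2 * l))))) = 0 := by
    rcases crit p l hp2 hl ρ x hx with h1 | h1
    · refine ⟨1, by norm_num, lift_zero p l hl _ ?_⟩
      rw [map_sub, rd_val, map_mul, map_mul, map_ofNat, ← hρv, map_intCast, Int.cast_one, mul_one]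
      exact h1
    · refine ⟨-1, by norm_num, lift_zero p l hl _ ?_⟩
      rw [map_sub, rd_val, map_mul, map_mul, map_ofNat, ← hρv, map_intCast, Int.cast_neg, Int.cast_one]
      rw [← h1]
      ring
  intro h0
  have hkey := hR (fun m => (if m ∈ S then h m else 0) + if m = g then e * p else 0) ?_ ?_
  · apply hkey
    have h2 : ∑ m ∈ Gs Y p, (((if m ∈ S then h m else 0) + if m = g then e * p else 0 : ℤ) : ZMod (p ^ (2 * l))) *
        ((r m : (ZMod (p ^ (2 * l)))ˣ) : ZMod (p ^ (2 * l))) =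
        ∑ j ∈ S, (h j : ZMod (p ^ (2 * l))) * ((r j : (ZMod (p ^ (2 * l)))ˣ) : ZMod (p ^ (2 * l))) +
        e * p * (r g : ZMod (p ^ (2 * l))) := by
      have h3 : ∀ m ∈ Gs Y p, (((if m ∈ S then h m else 0) + if m = g then e * p else 0 : ℤ) : ZMod (p ^ (2 * l))) *
        ((r m : (ZMod (p ^ (2 * l)))ˣ) : ZMod (p ^ (2 * l))) =
        (if m ∈ S then (h m : ZMod (p ^ (2 * l))) * ((r m : (ZMod (p ^ (2 * l)))ˣ) : ZMod (p ^ (2 * l))) else 0) +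
        (if m = g then e * p * ((r m : (ZMod (p ^ (2 * l)))ˣ) : ZMod (p ^ (2 * l))) else 0) := by
        intro m _
        split_ifs <;> push_cast <;> ring
      rw [Finset.sum_congr rfl h3, Finset.sum_add_distrib, Finset.sum_ite_mem, Finset.sum_ite_eq', if_pos hg,
        Finset.inter_eq_right.mpr hS]
    rw [h2]
    linear_combination h0 - hye
  · intro m _
    have h3 : |if m ∈ S then h m else 0| ≤ 1 := by
      split_ifs
      · exact hh m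
      · norm_num
    have h4 : |if m = g then e * p else 0| ≤ (p : ℤ) := by
      split_ifs
      · rw [abs_mul, he, one_mul, abs_of_nonneg (by omega)]
      · rw [abs_zero]; omega
    have := abs_add_le (if m ∈ S then h m else 0) (if m = g then e * p else 0)
    omega
  · refine ⟨g, hg, ?_⟩
    simp only [if_true]
    have h3 : |if g ∈ S then h g else 0| ≤ 1 := by
      split_ifs
      · exact hh g
      · norm_num
    intro h4
    have h5 : |e * (p : ℤ)| = p := by rw [abs_mul, he, one_mul, abs_of_nonneg (by omega)]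
    have h6 : e * (p : ℤ) = -(if g ∈ S then h g else 0) := by linarith
    rw [h6, abs_neg] at h5
    omega

/-- if `g` is not a square modulo `p` the set is empty -/
theorem Xc_empty (hl : 2 ≤ l) (g : ℤ) (g' : (ZMod (p ^ (2 * l - 1)))ˣ)
    (hg' : (g' : ZMod (p ^ (2 * l - 1))) = (g : ZMod (p ^ (2 * l - 1)))) (hsq : ¬ IsSquare (g : ZMod p)) :
    Xc p l ((g'⁻¹ : (ZMod (p ^ (2 * l - 1)))ˣ) : ZMod (p ^ (2 * l - 1))) = ∅ := by
  have hp : p.Prime := Fact.out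
  rw [Finset.eq_empty_iff_forall_notMem]
  intro x hx
  rw [mem_Xc] at hx
  apply hsq
  set y : ZMod (p ^ (2 * l - 1)) := (x : ZMod (p ^ (2 * l - 1))) ^ 2 -
    ((g'⁻¹ : (ZMod (p ^ (2 * l - 1)))ˣ) : ZMod (p ^ (2 * l - 1))) with hy
  have h1 : ((p ^ l : ℕ) : ZMod (p ^ (2 * l - 1))) * y = ((p ^ l * y.val : ℕ) : ZMod (p ^ (2 * l - 1))) := by
    rw [Nat.cast_mul (p ^ l) y.val, ZMod.natCast_zmod_val]
  rw [h1, ZMod.natCast_eq_zero_iff] at hx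
  have h2 : p ^ (2 * l - 1) = p ^ l * p ^ (l - 1) := by rw [← pow_add]; congr 1; omega
  have h3 : p ^ (l - 1) ∣ y.val := by
    have h4 : p ^ l * p ^ (l - 1) ∣ p ^ l * y.val := (dvd_of_eq h2.symm).trans hx
    exact Nat.dvd_of_mul_dvd_mul_left (pow_pos hp.pos l) h4
  have h4 : p ∣ y.val := (dvd_pow_self p (by omega : l - 1 ≠ 0)).trans h3
  have h5 : redG p (2 * l - 1) (by omega) y = 0 := by
    have h6 : y = ((y.val : ℕ) : ZMod (p ^ (2 * l - 1))) := (ZMod.natCast_zmod_val y).symm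
    rw [h6, map_natCast]
    exact (ZMod.natCast_eq_zero_iff _ _).mpr h4
  rw [hy, map_sub, map_pow] at h5
  have h6 := Units.mul_inv g'
  have h7 := congrArg (redG p (2 * l - 1) (by omega)) h6
  rw [map_mul, map_one, hg', map_intCast] at h7
  have h8 := Units.mul_inv x
  have h9 := congrArg (redG p (2 * l - 1) (by omega)) h8
  rw [map_mul, map_one] at h9
  refine ⟨redG p (2 * l - 1) (by omega) ((x⁻¹ : (ZMod (p ^ (2 * l - 1)))ˣ) : ZMod (p ^ (2 * l - 1))), ?_⟩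
  set X := redG p (2 * l - 1) (by omega) (x : ZMod (p ^ (2 * l - 1)))
  set X' := redG p (2 * l - 1) (by omega) ((x⁻¹ : (ZMod (p ^ (2 * l - 1)))ˣ) : ZMod (p ^ (2 * l - 1)))
  set G' := redG p (2 * l - 1) (by omega) ((g'⁻¹ : (ZMod (p ^ (2 * l - 1)))ˣ) : ZMod (p ^ (2 * l - 1)))
  have h10 : X ^ 2 = G' := by linear_combination h5
  -- g * G' = 1, X * X' = 1, so g = X' ^ 2
  linear_combination (X' ^ 2) * h7 - (g : ZMod p) * (X * X' + 1) * h9 + (g : ZMod p) * X' ^ 2 * h10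

/-- the trivial bound -/
theorem norm_Kl_le (hp2 : p ≠ 2) (hl : 1 ≤ l) (b : (ZMod (p ^ (2 * l)))ˣ) (c : ZMod (p ^ (2 * l - 1))) :
    ‖Kl (p ^ (2 * l - 1)) ((rd p l (b : ZMod (p ^ (2 * l)))) ^ 2 * c)‖ ≤ 2 * (p : ℝ) ^ l := by
  rw [Kl_sq p l hl]
  refine (norm_sum_le _ _).trans ?_
  rw [Finset.sum_congr rfl fun x _ => norm_ee (p ^ (2 * l)) _]
  rw [Finset.sum_const, nsmul_eq_mul, mul_one]
  exact_mod_cast card_Xc p l hp2 hl c

end

end Pool.Agent.T9h54.MY
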