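import Pool.Agent.T9h54.MY.Mainf

/-!
# The statements for the full sums
-/

set_option autoImplicit false

open Filter Topology Finset

namespace Pool.Agent.T9h54.MY

open Pool.Agent.Y821.ME
open Pool.Agent.T9h54.MX (Unb F_add_int continuous_F card_sq_image yb Near residual_unb
  not_countable_of_residual)

/-- if no fraction with denominator `q` is bad then the hypothesis holds with one constant -/
theorem hypC_of (p k : ℕ) (hp : p.Prime) (hk : 1 ≤ k)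
    (h : ∀ a : ℕ, a.Coprime p → ¬ Unb (fun R x => |(F R x).re|) ((a : ℝ) / (p : ℝ) ^ k)) :
    ∃ C₀ : ℝ, 0 ≤ C₀ ∧ HypC C₀ p k := by
  classical
  have hex : ∀ a : ℕ, ∃ K : ℝ, 0 ≤ K ∧ (a.Coprime p → ∀ᶠ R : ℕ in atTop,
      |(F R ((a : ℝ) / (p : ℝ) ^ k)).re| ≤ K * Real.sqrt R) := by
    intro a
    by_cases ha : a.Coprime p
    · have h1 := h a ha
      unfold Unb at h1
      push Not at h1
      obtain ⟨K, hK⟩ := h1
      refine ⟨max K 0, le_max_right _ _, fun _ => ?_⟩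
      filter_upwards [hK] with R hR
      exact hR.trans (mul_le_mul_of_nonneg_right (le_max_left _ _) (Real.sqrt_nonneg _))
    · exact ⟨0, le_rfl, fun h' => absurd h' ha⟩
  choose K hK0 hK using hex
  refine ⟨∑ a ∈ range (p ^ k), K a, Finset.sum_nonneg fun a _ => hK0 a, fun a ha => ?_⟩
  have hpk : 0 < p ^ k := pow_pos hp.pos _
  have hcop : (a % p ^ k).Coprime p := by
    rw [Nat.coprime_comm, hp.coprime_iff_not_dvd]
    intro h1
    exact ha ((Nat.dvd_mod_iff (dvd_pow_self p (by omega))).mp h1)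
  filter_upwards [hK (a % p ^ k) hcop] with R hR
  obtain ⟨t, ht⟩ : ∃ t : ℕ, t = a / p ^ k := ⟨_, rfl⟩
  have e : (((a / (p ^ k : ℕ) : ℚ)) : ℝ) =
      ((a % p ^ k : ℕ) : ℝ) / (p : ℝ) ^ k + ((t : ℕ) : ℤ) := by
    have hd := Nat.mod_add_div a (p ^ k)
    rw [← ht] at hd
    have hd' : (((a % p ^ k : ℕ) : ℝ)) + (p : ℝ) ^ k * (t : ℝ) = a := by
      exact_mod_cast hd
    have hp0 : ((p : ℝ) ^ k) ≠ 0 := by
      have : (0 : ℝ) < p := by exact_mod_cast hp.pos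
      positivity
    push_cast
    push_cast at hd'
    rw [← hd']
    field_simp
  rw [e, F_add_int]
  refine hR.trans (mul_le_mul_of_nonneg_right ?_ (Real.sqrt_nonneg _))
  exact Finset.single_le_sum (fun a _ => hK0 a) (Finset.mem_range.mpr (Nat.mod_lt _ hpk))

theorem Mx_cF_eq (p l : ℕ) [Fact p.Prime] (a : (ZMod (p ^ (2 * l)))ˣ) (v : ℝ) :
    Mx (cF p l a) v = (((F ⌊v⌋₊ (((a : ZMod (p ^ (2 * l))).val : ℝ) / (p : ℝ) ^ (2 * l))).re : ℝ) : ℂ) := by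
  have h1 : Mx (cF p l a) v = (Mx (fun n => ee (p ^ (2 * l)) (a * n)) v +
      (starRingEnd ℂ) (Mx (fun n => ee (p ^ (2 * l)) (a * n)) v)) / 2 := by
    unfold Mx
    rw [map_sum, ← Finset.sum_add_distrib, Finset.sum_div]
    refine Finset.sum_congr rfl fun n _ => ?_
    rw [map_mul]
    have h2 : (starRingEnd ℂ) (mu n) = mu n := by
      unfold mu
      exact map_intCast (starRingEnd ℂ) _
    have h3 : (starRingEnd ℂ) (ee (p ^ (2 * l)) ((a : ZMod (p ^ (2 * l))) * n)) =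
        ee (p ^ (2 * l)) (-(a : ZMod (p ^ (2 * l))) * n) := by
      unfold ee
      rw [neg_mul, AddChar.map_neg_eq_conj]
    rw [h2, h3]
    unfold cF
    ring
  have h2 : Mx (fun n => ee (p ^ (2 * l)) ((a : ZMod (p ^ (2 * l))) * n)) v =
      F ⌊v⌋₊ (((a : ZMod (p ^ (2 * l))).val : ℝ) / (p : ℝ) ^ (2 * l)) := by
    rw [Mx_ee]
    congr 1
    push_cast
    ring
  rw [h1, h2, Complex.add_conj]
  push_cast
  ring

/-- unboundedness for one of the even primitive characters modulo `q` -/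
def BadE (q : ℕ) : Prop := ∃ χ : DirichletCharacter ℂ q, χ.IsPrimitive ∧ χ.Even ∧
  ∀ B : ℝ, ∃ R : ℕ, B * Real.sqrt R < ‖∑ n ∈ Icc 1 R, mu n * χ n‖

theorem good_of_not_bad (q : ℕ) [NeZero q] (h : ¬ BadE q) : GoodE q := by
  intro χ h1 h2
  unfold BadE at h
  push Not at h
  obtain ⟨B, hB⟩ := h χ h1 h2
  refine ⟨max B 0, le_max_right _ _, fun v hv => ?_⟩
  have h3 := hB ⌊v⌋₊
  refine h3.trans ((mul_le_mul_of_nonneg_right (le_max_left B 0) (Real.sqrt_nonneg _)).trans ?_)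
  exact floor_bound (le_max_right _ _) (by linarith)

/-- the local theorem -/
theorem local_fracF (p : ℕ) (hp : p.Prime) (hp2 : p ≠ 2) (C : ℝ) (U : Set ℝ) (hU : IsOpen U) (hne : U.Nonempty) :
    ∃ κ : ℝ, 0 < κ ∧ ∃ l₀ : ℕ, ∀ l : ℕ, l₀ ≤ l → ¬ BadE (p ^ (2 * l)) → ¬ BadE (p ^ (2 * l - 1)) →
      κ * (p : ℝ) ^ (2 * l) ≤ (Set.ncard {a : ℕ | a < p ^ (2 * l) ∧ a.Coprime p ∧
        (∃ n : ℤ, (a : ℝ) / (p : ℝ) ^ (2 * l) + n ∈ U) ∧
        ∃ᶠ R : ℕ in atTop, C * Real.sqrt R < |(F R ((a : ℝ) / (p : ℝ) ^ (2 * l))).re|} : ℝ) := by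
  classical
  have hfact : Fact p.Prime := ⟨hp⟩
  obtain ⟨x₀, hx₀⟩ := hne
  obtain ⟨δ', hδ', hball⟩ := Metric.isOpen_iff.mp hU x₀ hx₀
  set δ : ℝ := min δ' (1 / 2) with hδdef
  have hδ : 0 < δ := lt_min hδ' (by norm_num)
  obtain ⟨κ, hκ, l₀, hl₀, hmain⟩ := mainF p hp2 (max C 0) x₀ δ (le_max_right _ _) hδ (min_le_right _ _)
  refine ⟨κ / 2, by positivity, l₀, fun l hl hb0 hb1 => ?_⟩
  have hl2 : 2 ≤ l := hl₀.trans hl
  have hl1 : 1 ≤ l := by omega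
  set A : Set ℕ := {a : ℕ | a < p ^ (2 * l) ∧ a.Coprime p ∧
        (∃ n : ℤ, (a : ℝ) / (p : ℝ) ^ (2 * l) + n ∈ U) ∧
        ∃ᶠ R : ℕ in atTop, C * Real.sqrt R < |(F R ((a : ℝ) / (p : ℝ) ^ (2 * l))).re|} with hA
  have hAfin : A.Finite := (Set.finite_Iio (p ^ (2 * l))).subset fun a ha => ha.1
  set E : Finset (ZMod (p ^ (2 * l)))ˣ := univ.filter fun b : (ZMod (p ^ (2 * l)))ˣ =>
    ((b : ZMod (p ^ (2 * l))) ^ 2).val ∈ A with hE
  have hEA : E.card ≤ 2 * A.ncard := by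
    refine (card_sq_image p l hp hp2 hl1 E).trans (Nat.mul_le_mul_left 2 ?_)
    rw [← Set.ncard_coe_finset]
    refine Set.ncard_le_ncard ?_ hAfin
    intro a ha
    rw [Finset.mem_coe, Finset.mem_image] at ha
    obtain ⟨b, hb, rfl⟩ := ha
    rw [hE, Finset.mem_filter] at hb
    exact hb.2
  by_contra hcon
  rw [not_le] at hcon
  have hEκ : (E.card : ℝ) ≤ κ * (p : ℝ) ^ (2 * l) := by
    have h1 : (E.card : ℝ) ≤ 2 * (A.ncard : ℝ) := by exact_mod_cast hEA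
    linarith
  obtain ⟨b, hbE, ⟨n, hn⟩, hb⟩ := hmain l hl (good_of_not_bad _ hb0) (good_of_not_bad _ hb1) E hEκ
  apply hbE
  rw [hE, Finset.mem_filter]
  refine ⟨Finset.mem_univ _, ZMod.val_lt _, ?_, ⟨-n, ?_⟩, ?_⟩
  · have h1 := Two.not_dvd_val hp (by omega : 1 ≤ 2 * l) ((b : ZMod (p ^ (2 * l))) ^ 2) (b.isUnit.pow 2)
    rw [Nat.coprime_comm, hp.coprime_iff_not_dvd]
    exact h1
  · apply hball
    rw [Metric.mem_ball, Real.dist_eq]
    unfold yb at hn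
    push_cast at hn ⊢
    have h2 : (((b : ZMod (p ^ (2 * l))) ^ 2).val : ℝ) / (p : ℝ) ^ (2 * l) + -(n : ℝ) - x₀ =
        (((b : ZMod (p ^ (2 * l))) ^ 2).val : ℝ) / (p : ℝ) ^ (2 * l) - x₀ - n := by ring
    rw [h2]
    exact hn.trans_le (min_le_left _ _)
  · by_contra hcon2
    rw [Filter.not_frequently] at hcon2
    apply hb
    obtain ⟨N, hN⟩ := eventually_atTop.mp hcon2
    refine ⟨N, fun v hv => ?_⟩
    have hv0 : 0 ≤ v := (Nat.cast_nonneg N).trans hv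
    have h2 := not_lt.mp (hN ⌊v⌋₊ (Nat.le_floor hv))
    have h3 : ((b ^ 2 : (ZMod (p ^ (2 * l)))ˣ) : ZMod (p ^ (2 * l))) = (b : ZMod (p ^ (2 * l))) ^ 2 :=
      Units.val_pow_eq_pow_val b 2
    rw [Mx_cF_eq, Complex.norm_real, Real.norm_eq_abs, h3]
    refine h2.trans ?_
    refine (mul_le_mul_of_nonneg_right (le_max_left C 0) (Real.sqrt_nonneg _)).trans ?_
    exact floor_bound (le_max_right _ _) hv0

/-- the dichotomy -/
theorem dichotomy :
    {x : ℝ | Unb (fun R x => |(F R x).re|) x} ∈ residual ℝ ∨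
    ∀ p : ℕ, p.Prime → p ≠ 2 → ∃ l₀ : ℕ, ∀ l : ℕ, l₀ ≤ l → BadE (p ^ (2 * l)) ∨ BadE (p ^ (2 * l - 1)) := by
  by_cases h : ∀ p : ℕ, p.Prime → p ≠ 2 → ∃ l₀ : ℕ, ∀ l : ℕ, l₀ ≤ l → BadE (p ^ (2 * l)) ∨ BadE (p ^ (2 * l - 1))
  · exact Or.inr h
  left
  push Not at h
  obtain ⟨p, hp, hp2, h⟩ := h
  refine residual_unb (fun R x => |(F R x).re|) (fun R => (Complex.continuous_re.comp (continuous_F R)).abs)
    (fun R => ⟨R, fun x => (Complex.abs_re_le_norm _).trans (norm_F_le R x)⟩) ?_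
  intro K U hU hne
  obtain ⟨κ, hκ, l₀, hl₀⟩ := local_fracF p hp hp2 K U hU hne
  obtain ⟨l, hl, hno0, hno1⟩ := h l₀
  have h1 := hl₀ l hl hno0 hno1
  have hp0 : (0 : ℝ) < p := by exact_mod_cast hp.pos
  have h2 : 0 < Set.ncard {a : ℕ | a < p ^ (2 * l) ∧ a.Coprime p ∧
      (∃ n : ℤ, (a : ℝ) / (p : ℝ) ^ (2 * l) + n ∈ U) ∧
      ∃ᶠ R : ℕ in atTop, K * Real.sqrt R < |(F R ((a : ℝ) / (p : ℝ) ^ (2 * l))).re|} := by
    have : (0 : ℝ) < κ * (p : ℝ) ^ (2 * l) := by positivity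
    exact_mod_cast this.trans_le h1
  have h3 := Set.nonempty_of_ncard_ne_zero h2.ne'
  obtain ⟨a, -, -, ⟨n, hn⟩, hR⟩ := h3
  refine ⟨_, hn, ?_⟩
  simp only [F_add_int]
  exact hR

/-- a bad character gives a bad fraction -/
theorem frac_of_bad (p k : ℕ) (hp : p.Prime) (hk : 1 ≤ k) (h : BadE (p ^ k)) :
    ∃ a : ℕ, a.Coprime p ∧ Unb (fun R x => |(F R x).re|) ((a : ℝ) / (p : ℝ) ^ k) := by
  have hfact : Fact p.Prime := ⟨hp⟩
  by_contra hcon
  push Not at hcon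
  obtain ⟨C₀, hC₀, hQ⟩ := hypC_of p k hp hk hcon
  obtain ⟨χ, h1, h2, h3⟩ := h
  obtain ⟨B, hB0, hB⟩ := Mx_chiE hp hk hC₀ hQ h1 h2
  obtain ⟨R, hR⟩ := h3 B
  rcases Nat.eq_zero_or_pos R with h0 | h0
  · subst h0
    simp at hR
  · have h4 := hB R (by exact_mod_cast h0)
    unfold Mx at h4
    rw [Nat.floor_natCast] at h4
    linarith

theorem unb_add_int (x : ℝ) (k : ℤ) (h : Unb (fun R x => |(F R x).re|) x) : Unb (fun R x => |(F R x).re|) (x + k) := by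
  intro K
  have := h K
  simp only [F_add_int]
  exact this

/-- there are infinitely many points in `[0, 1)` -/
theorem infinite_unb : {x : ℝ | 0 ≤ x ∧ x < 1 ∧ Unb (fun R x => |(F R x).re|) x}.Infinite := by
  classical
  set S : Set ℝ := {x : ℝ | 0 ≤ x ∧ x < 1 ∧ Unb (fun R x => |(F R x).re|) x} with hS
  have hfr : ∀ x : ℝ, Unb (fun R x => |(F R x).re|) x → Int.fract x ∈ S := by
    intro x hx
    refine ⟨Int.fract_nonneg x, Int.fract_lt_one x, ?_⟩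
    have h1 := unb_add_int x (-⌊x⌋) hx
    have h2 : x + ((-⌊x⌋ : ℤ) : ℝ) = Int.fract x := by
      push_cast
      rw [← Int.self_sub_floor]
      ring
    rwa [h2] at h1
  intro hfin
  rcases dichotomy with h | h
  · refine not_countable_of_residual _ h ?_
    have h1 : {x : ℝ | Unb (fun R x => |(F R x).re|) x} ⊆ ⋃ k : ℤ, (fun x : ℝ => x + k) '' S := by
      intro x hx
      rw [Set.mem_iUnion]
      exact ⟨⌊x⌋, Int.fract x, hfr x hx, Int.fract_add_floor x⟩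
    exact (Set.countable_iUnion fun k => (hfin.countable.image _)).mono h1
  · obtain ⟨l₀, hl₀⟩ := h 3 Nat.prime_three (by norm_num)
    -- a bound for the denominators
    have hex : ∀ x : ℝ, ∃ m : ℕ, (∃ (k : ℕ) (z : ℤ), x * 3 ^ k = z) → ∃ z : ℤ, x * 3 ^ m = z := by
      intro x
      by_cases hx : ∃ (k : ℕ) (z : ℤ), x * 3 ^ k = z
      · obtain ⟨k, z, hz⟩ := hx
        exact ⟨k, fun _ => ⟨z, hz⟩⟩
      · exact ⟨0, fun h' => absurd h' hx⟩
    choose m hm using hex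
    set L : ℕ := ∑ x ∈ hfin.toFinset, m x with hL
    have hk := hl₀ (max l₀ (L + 1)) (le_max_left _ _)
    obtain ⟨k, a, hkL, ha, hkU⟩ : ∃ k a : ℕ, L < k ∧ a.Coprime 3 ∧
        Unb (fun R x => |(F R x).re|) ((a : ℝ) / ((3 : ℕ) : ℝ) ^ k) := by
      have h1 : L + 1 ≤ max l₀ (L + 1) := le_max_right _ _
      rcases hk with h2 | h2
      · obtain ⟨a, ha, hU⟩ := frac_of_bad 3 _ Nat.prime_three (by omega) h2
        exact ⟨_, a, by omega, ha, hU⟩
      · obtain ⟨a, ha, hU⟩ := frac_of_bad 3 _ Nat.prime_three (by omega) h2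
        exact ⟨_, a, by omega, ha, hU⟩
    push_cast at hkU
    set y : ℝ := (a : ℝ) / 3 ^ k with hy
    have hyS := hfr y hkU
    have h3k : (3 : ℝ) ^ k ≠ 0 := by positivity
    obtain ⟨z, hz⟩ := hm (Int.fract y) ⟨k, (a : ℤ) - ⌊y⌋ * 3 ^ k, by
      rw [← Int.self_sub_floor, sub_mul]
      push_cast
      rw [hy, div_mul_cancel₀ _ h3k]⟩
    have hmL : m (Int.fract y) ≤ L := by
      rw [hL]
      exact Finset.single_le_sum (fun _ _ => Nat.zero_le _) (hfin.mem_toFinset.mpr hyS)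
    -- a 3 ^ L = 3 ^ k z'
    have h4 : (a : ℝ) * 3 ^ L = 3 ^ k * (((z * 3 ^ (L - m (Int.fract y)) + ⌊y⌋ * 3 ^ L : ℤ)) : ℝ) := by
      have h5 : (3 : ℝ) ^ L = 3 ^ m (Int.fract y) * 3 ^ (L - m (Int.fract y)) := by
        rw [← pow_add, Nat.add_sub_cancel' hmL]
      have h6 : y * 3 ^ L = z * 3 ^ (L - m (Int.fract y)) + ⌊y⌋ * 3 ^ L := by
        have h7 : y = Int.fract y + ⌊y⌋ := (Int.fract_add_floor y).symm
        calc y * 3 ^ L = Int.fract y * 3 ^ L + ⌊y⌋ * 3 ^ L := by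
              conv_lhs => rw [h7]
              ring
          _ = Int.fract y * 3 ^ m (Int.fract y) * 3 ^ (L - m (Int.fract y)) + ⌊y⌋ * 3 ^ L := by
              rw [mul_assoc, ← h5]
          _ = _ := by rw [hz]
      push_cast
      rw [← h6, hy]
      field_simp
    have h5 : (a : ℤ) * 3 ^ L = 3 ^ k * (z * 3 ^ (L - m (Int.fract y)) + ⌊y⌋ * 3 ^ L) := by exact_mod_cast h4
    have h6 : (3 : ℤ) ^ L * (3 * 1) ∣ 3 ^ L * (a : ℤ) := by
      rw [mul_comm ((3 : ℤ) ^ L) (a : ℤ), h5]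
      refine Dvd.dvd.mul_right ?_ _
      rw [mul_one, ← pow_succ]
      exact pow_dvd_pow _ hkL
    have h7 : (3 : ℤ) ∣ (a : ℤ) := by
      have := (mul_dvd_mul_iff_left (by positivity : (3 : ℤ) ^ L ≠ 0)).mp h6
      rwa [mul_one] at this
    have h8 : 3 ∣ a := by exact_mod_cast h7
    have h9 : ¬ 3 ∣ a := (Nat.Prime.coprime_iff_not_dvd Nat.prime_three).mp ha.symm
    exact h9 h8

end Pool.Agent.T9h54.MY
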