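import Pool.Agent.T9h54.MX.Fin

/-!
# Characters modulo `p ^ k`, `k ≥ 2`
-/

set_option autoImplicit false

open Filter Topology Finset

namespace Pool.Agent.T9h54.MY

open Pool.Agent.Y821.ME

/-- the Gauss sum of a character which is not primitive vanishes -/
theorem gauss_zero (p k : ℕ) [NeZero (p ^ k)] (hp : p.Prime) (hk : 2 ≤ k)
    (χ : DirichletCharacter ℂ (p ^ k)) (hχ : ¬ χ.IsPrimitive) :
    gaussSum χ ZMod.stdAddChar = 0 := by
  have hdvd : p ^ (k - 1) ∣ p ^ k := pow_dvd_pow _ (by omega)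
  have hF : χ.FactorsThrough (p ^ (k - 1)) := by
    have h1 : χ.conductor ∣ p ^ k := DirichletCharacter.conductor_dvd_level χ
    obtain ⟨k', hk', hk2⟩ := (Nat.dvd_prime_pow hp).1 h1
    have h3 : k' ≠ k := by
      rintro rfl
      exact hχ hk2
    have h4 : χ.conductor ∣ p ^ (k - 1) := by
      rw [hk2]
      exact pow_dvd_pow _ (by omega)
    exact (DirichletCharacter.factorsThrough_conductor χ).mono _ h4 hdvd
  have hker := (DirichletCharacter.factorsThrough_iff_ker_unitsMap hdvd).1 hF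
  obtain ⟨d, hd⟩ : ∃ d : ZMod (p ^ k), d = ((p ^ (k - 1) : ℕ) : ZMod (p ^ k)) :=
    ⟨_, rfl⟩
  have hdc : ZMod.castHom hdvd (ZMod (p ^ (k - 1))) d = 0 := by
    rw [hd, map_natCast, ZMod.natCast_self]
  -- periodicity
  have hnil : IsNilpotent d := by
    refine ⟨2, ?_⟩
    rw [hd, ← Nat.cast_pow, ZMod.natCast_eq_zero_iff, ← pow_mul]
    exact pow_dvd_pow _ (by omega)
  have hper : ∀ x : ZMod (p ^ k), χ (x + d) = χ x := by
    intro x
    by_cases hx : IsUnit x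
    · obtain ⟨u, rfl⟩ := hx
      have hu2 : IsUnit (1 + d * ((u⁻¹ : (ZMod (p ^ k))ˣ) : ZMod (p ^ k))) :=
        IsNilpotent.isUnit_one_add ((Commute.all _ _).isNilpotent_mul_right hnil)
      obtain ⟨v, hv⟩ := hu2
      have h5 : (u : ZMod (p ^ k)) + d = u * v := by
        rw [hv, mul_add, mul_one, mul_comm d, ← mul_assoc, Units.mul_inv, one_mul]
      have h6 : v ∈ (ZMod.unitsMap hdvd).ker := by
        rw [MonoidHom.mem_ker]
        ext
        rw [ZMod.unitsMap_def, Units.coe_map, Units.val_one]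
        change ZMod.castHom hdvd (ZMod (p ^ (k - 1))) (v : ZMod (p ^ k)) = 1
        rw [hv, map_add, map_one, map_mul, hdc, zero_mul, add_zero]
      have h7 : χ (v : ZMod (p ^ k)) = 1 := by
        have := hker h6
        rw [MonoidHom.mem_ker] at this
        rw [← MulChar.coe_toUnitHom, this, Units.val_one]
      rw [h5, map_mul, h7, mul_one]
    · have h8 : ¬ IsUnit (x + d) := by
        intro h
        apply hx
        have h9 : IsUnit ((x + d) + -d) := by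
          obtain ⟨u, hu⟩ := h
          rw [← hu]
          have h10 : IsUnit (1 + -d * ((u⁻¹ : (ZMod (p ^ k))ˣ) : ZMod (p ^ k))) :=
            IsNilpotent.isUnit_one_add ((Commute.all _ _).isNilpotent_mul_right hnil.neg)
          have h11 : (u : ZMod (p ^ k)) + -d =
              u * (1 + -d * ((u⁻¹ : (ZMod (p ^ k))ˣ) : ZMod (p ^ k))) := by
            rw [mul_add, mul_one, mul_comm (-d), ← mul_assoc, Units.mul_inv, one_mul]
          rw [h11]
          exact u.isUnit.mul h10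
        rwa [add_neg_cancel_right] at h9
      rw [MulChar.map_nonunit _ hx, MulChar.map_nonunit _ h8]
  have hne : (ZMod.stdAddChar d : ℂ) ≠ 1 := by
    intro h
    rw [← AddChar.map_zero_eq_one (ZMod.stdAddChar (N := p ^ k))] at h
    have h12 := ZMod.injective_stdAddChar h
    rw [hd, ZMod.natCast_eq_zero_iff] at h12
    have h13 := Nat.le_of_dvd (pow_pos hp.pos _) h12
    have h14 : p ^ (k - 1) < p ^ k := Nat.pow_lt_pow_right hp.one_lt (by omega)
    omega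
  have hmain : gaussSum χ ZMod.stdAddChar = gaussSum χ ZMod.stdAddChar * ZMod.stdAddChar d := by
    conv_lhs => rw [gaussSum, ← Equiv.sum_comp (Equiv.addRight d)]
    rw [gaussSum, Finset.sum_mul]
    refine Finset.sum_congr rfl fun x _ => ?_
    rw [Equiv.coe_addRight, hper, AddChar.map_add_eq_mul, mul_assoc]
  have h15 : gaussSum χ ZMod.stdAddChar * ((ZMod.stdAddChar d : ℂ) - 1) = 0 := by
    rw [mul_sub, mul_one, ← hmain, sub_self]
  rcases mul_eq_zero.1 h15 with h | h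
  · exact h
  · exact absurd (sub_eq_zero.1 h) hne

theorem chk (p k : ℕ) [NeZero (p ^ k)] (hp : p.Prime) (hk : 2 ≤ k) (a : (ZMod (p ^ k))ˣ) :
    (∀ n : (ZMod (p ^ k))ˣ, ∑ χ ∈ Ev (p ^ k), cf (p ^ k) a χ * χ (n : ZMod (p ^ k)) =
      (ee (p ^ k) (a * n) + ee (p ^ k) (-(a * n))) / 2) ∧
    ∀ m : (ZMod (p ^ k))ˣ, ∑ χ ∈ Ev (p ^ k), cf (p ^ k) a χ *
      (DirichletCharacter.rootNumber χ)⁻¹ * χ⁻¹ (m : ZMod (p ^ k)) =
    (Kl (p ^ k) ((a * m⁻¹ : (ZMod (p ^ k))ˣ) : ZMod (p ^ k)) +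
      Kl (p ^ k) (-((a * m⁻¹ : (ZMod (p ^ k))ˣ) : ZMod (p ^ k)))) / (2 * ((Real.sqrt ((p : ℝ) ^ k) : ℝ) : ℂ)) := by
  classical
  have hgz : ∀ χ : DirichletCharacter ℂ (p ^ k), ¬ χ.IsPrimitive →
      gaussSum χ⁻¹ ZMod.stdAddChar = 0 := by
    intro χ hχ
    refine gauss_zero p k hp hk _ fun h => hχ (CH.prim_inv _ χ h)
  have hEv : ∀ f : DirichletCharacter ℂ (p ^ k) → ℂ,
      (∀ χ, ¬ χ.IsPrimitive → f χ = 0) →
      ∑ χ ∈ Ev (p ^ k), f χ = ∑ χ ∈ (univ : Finset (DirichletCharacter ℂ (p ^ k))).filter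
        (fun χ => χ.Even), f χ := by
    intro f hf
    unfold Ev
    refine Finset.sum_subset ?_ ?_
    · intro χ hχ
      rw [Finset.mem_filter] at hχ ⊢
      exact ⟨hχ.1, hχ.2.1⟩
    · intro χ hχ hχ2
      rw [Finset.mem_filter] at hχ hχ2
      exact hf χ fun h => hχ2 ⟨hχ.1, hχ.2, h⟩
  have hpR : (0 : ℝ) < (p : ℝ) ^ k := pow_pos (by exact_mod_cast hp.pos) _
  have hpl : ((Real.sqrt ((p : ℝ) ^ k) : ℝ) : ℂ) ≠ 0 := by
    exact_mod_cast (Real.sqrt_pos.mpr hpR).ne'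
  constructor
  · intro n
    rw [hEv _ (fun χ hχ => by rw [cf, hgz χ hχ]; simp)]
    have h1 := CH.inversion (q := p ^ k) (fun u => ee (p ^ k) u) (a * n)
    rw [Units.val_mul, Units.val_neg, Units.val_mul] at h1
    rw [← h1]
    refine Finset.sum_congr rfl fun χ _ => ?_
    rw [cf, CH.gauss_inv, map_mul]
    ring
  · intro m
    rw [hEv _ (fun χ hχ => by rw [cf, hgz χ hχ]; simp)]
    have h1 := CH.inversion (q := p ^ k) (fun u => Kl (p ^ k) u) (a * m⁻¹)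
    rw [Units.val_neg] at h1
    rw [← div_div, ← h1, Finset.sum_div]
    refine Finset.sum_congr rfl fun χ hχ => ?_
    rw [← CH.gauss_sq]
    by_cases hprim : χ.IsPrimitive
    · have hE : χ.Even := (Finset.mem_filter.1 hχ).2
      have h2 := CH.gauss_mul χ hprim hE
      have hroot : (DirichletCharacter.rootNumber χ)⁻¹ =
          gaussSum χ⁻¹ ZMod.stdAddChar / ((Real.sqrt ((p : ℝ) ^ k) : ℝ) : ℂ) := by
        have h3 : (((p ^ k : ℕ)) : ℂ) ^ (1 / 2 : ℂ) = ((Real.sqrt ((p : ℝ) ^ k) : ℝ) : ℂ) := by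
          have h4 : (1 / 2 : ℂ) = (((1 / 2 : ℝ)) : ℂ) := by push_cast; rfl
          have h5 : (((p ^ k : ℕ)) : ℂ) = (((p ^ k : ℕ) : ℝ) : ℂ) := by push_cast; rfl
          rw [h4, h5, ← Complex.ofReal_cpow (Nat.cast_nonneg _), ← Real.sqrt_eq_rpow, Nat.cast_pow]
        unfold DirichletCharacter.rootNumber
        rw [if_pos hE, pow_zero, div_one, h3, inv_div, div_eq_div_iff ?_ hpl]
        · rw [mul_comm (gaussSum χ⁻¹ _), h2, ← Complex.ofReal_mul, Real.mul_self_sqrt hpR.le]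
          push_cast
          ring
        · intro h0
          rw [h0, zero_mul] at h2
          exact NeZero.ne (p ^ k) (by exact_mod_cast h2.symm)
      rw [hroot, cf, CH.inv_unit, Units.val_mul, map_mul]
      ring
    · rw [cf, hgz χ hprim]
      simp


section

variable {p k : ℕ} [NeZero (p ^ k)]

omit [NeZero (p ^ k)] in
theorem isUnit_nat (hp : p.Prime) (n : ℕ) (hn : ¬ p ∣ n) : IsUnit (n : ZMod (p ^ k)) := by
  rw [ZMod.isUnit_iff_coprime]
  exact (Nat.Coprime.pow_left _ ((Nat.Prime.coprime_iff_not_dvd hp).mpr hn)).symm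

omit [NeZero (p ^ k)] in
theorem not_isUnit_nat (hp : p.Prime) (hk : 1 ≤ k) (n : ℕ) (hn : p ∣ n) :
    ¬ IsUnit (n : ZMod (p ^ k)) := by
  rw [ZMod.isUnit_iff_coprime]
  intro h
  have h1 : p ∣ Nat.gcd n (p ^ k) := Nat.dvd_gcd hn (dvd_pow_self p (by omega))
  rw [h] at h1
  exact hp.one_lt.ne' (Nat.dvd_one.mp h1)

theorem cR_eq (hp : p.Prime) (hk : 2 ≤ k) (a : (ZMod (p ^ k))ˣ) (n : ℕ) :
    cR (p ^ k) a n = (cop p k a n + cop p k (-a) n) / 2 := by
  unfold cop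
  by_cases hn : p ∣ n
  · rw [if_pos hn, if_pos hn]
    have h1 := not_isUnit_nat (k := k) hp (by omega) n hn
    unfold cR
    rw [Finset.sum_eq_zero]
    · simp
    · intro χ _
      rw [MulChar.map_nonunit _ h1, mul_zero]
  · rw [if_neg hn, if_neg hn]
    obtain ⟨n', hn'⟩ := isUnit_nat (k := k) hp n hn
    have h1 := (chk p k hp hk a).1 n'
    rw [hn'] at h1
    unfold cR
    rw [h1, neg_mul]

theorem norm_cR_le (hp : p.Prime) (hk : 2 ≤ k) (a : (ZMod (p ^ k))ˣ) (n : ℕ) :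
    ‖cR (p ^ k) a n‖ ≤ 1 := by
  rw [cR_eq hp hk]
  have h1 : ∀ b : ZMod (p ^ k), ‖cop p k b n‖ ≤ 1 := by
    intro b
    unfold cop
    split_ifs
    · simp
    · rw [norm_ee]
  rw [norm_div, Complex.norm_ofNat]
  have := norm_add_le (cop p k (a : ZMod (p ^ k)) n) (cop p k (-a) n)
  have := h1 a
  have := h1 (-a)
  linarith

theorem cL_eq (hp : p.Prime) (hk : 2 ≤ k) (a m : (ZMod (p ^ k))ˣ) (n : ℕ)
    (hn : (m : ZMod (p ^ k)) = n) :
    cL (p ^ k) a n = (Kl (p ^ k) ((a * m⁻¹ : (ZMod (p ^ k))ˣ) : ZMod (p ^ k)) +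
      Kl (p ^ k) (-((a * m⁻¹ : (ZMod (p ^ k))ˣ) : ZMod (p ^ k)))) / (2 * ((Real.sqrt ((p : ℝ) ^ k) : ℝ) : ℂ)) := by
  have h1 := (chk p k hp hk a).2 m
  rw [hn] at h1
  unfold cL
  exact h1

theorem cL_zero (hp : p.Prime) (hk : 1 ≤ k) (a : ZMod (p ^ k)) (n : ℕ) (hn : p ∣ n) : cL (p ^ k) a n = 0 := by
  unfold cL
  refine Finset.sum_eq_zero fun χ _ => ?_
  rw [MulChar.map_nonunit _ (not_isUnit_nat (k := k) hp hk n hn), mul_zero]

theorem Mx_cR (hp : p.Prime) (hk : 2 ≤ k) (a : (ZMod (p ^ k))ˣ) (v : ℝ) :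
    Mx (cR (p ^ k) a) v = (Mx (cop p k a) v + Mx (cop p k (-a)) v) / 2 := by
  unfold Mx
  rw [← Finset.sum_add_distrib, Finset.sum_div]
  refine Finset.sum_congr rfl fun n _ => ?_
  rw [cR_eq hp hk]
  ring

theorem cR_bound (hp : p.Prime) (hk : 2 ≤ k) {C : ℝ} (hC : 0 ≤ C) (h : Two.HypQ C p k)
    (a : (ZMod (p ^ k))ˣ) : ∃ B : ℝ, ∀ v, 1 ≤ v → ‖Mx (cR (p ^ k) a) v‖ ≤ B * Real.sqrt v := by
  obtain ⟨B1, -, h1⟩ := Two.Mx_cop_all hp hk hC h (a : ZMod (p ^ k)) a.isUnit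
  obtain ⟨B2, -, h2⟩ := Two.Mx_cop_all hp hk hC h (-a : ZMod (p ^ k)) a.isUnit.neg
  refine ⟨(B1 + B2) / 2, fun v hv => ?_⟩
  rw [Mx_cR hp hk, norm_div, Complex.norm_ofNat]
  have := norm_add_le (Mx (cop p k (a : ZMod (p ^ k))) v) (Mx (cop p k (-a)) v)
  have := h1 v (by linarith)
  have := h2 v (by linarith)
  linarith

end

end Pool.Agent.T9h54.MY
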