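import Pool.Agent.T9h54.MY.Gen

/-!
# Bounds for even characters from bounds for the cosine sums
-/

set_option autoImplicit false

open Filter Topology MeasureTheory Finset

namespace Pool.Agent.T9h54.MY

open Pool.Agent.Y821.ME
open Pool.Agent.T9h54.MX (cop_neg Mx_cop_neg)

/-- the hypothesis: square root bounds for the cosine sums at the fractions `a / p ^ k` in lowest terms -/
def HypC (C : ℝ) (p k : ℕ) : Prop := ∀ a : ℕ, ¬ p ∣ a →
  ∀ᶠ R : ℕ in atTop, |(F R ((a / (p ^ k : ℕ) : ℚ) : ℝ)).re| ≤ C * Real.sqrt R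

theorem HypC.all {C : ℝ} {p k : ℕ} (hC : 0 ≤ C) (h : HypC C p k) (a : ℕ) (ha : ¬ p ∣ a) :
    ∃ B : ℝ, 0 ≤ B ∧ ∀ R : ℕ, |(F R ((a / (p ^ k : ℕ) : ℚ) : ℝ)).re| ≤ B * Real.sqrt R := by
  obtain ⟨N, hN⟩ := eventually_atTop.mp (h a ha)
  refine ⟨max C (Real.sqrt N), hC.trans (le_max_left _ _), fun R => ?_⟩
  rcases le_or_gt N R with h1 | h1
  · exact (hN R h1).trans (mul_le_mul_of_nonneg_right (le_max_left _ _) (Real.sqrt_nonneg _))
  · calc |(F R ((a / (p ^ k : ℕ) : ℚ) : ℝ)).re| ≤ ‖F R ((a / (p ^ k : ℕ) : ℚ) : ℝ)‖ := Complex.abs_re_le_norm _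
      _ ≤ R := norm_F_le R _
      _ = Real.sqrt R * Real.sqrt R := (Real.mul_self_sqrt (Nat.cast_nonneg R)).symm
      _ ≤ Real.sqrt N * Real.sqrt R := by
          gcongr
      _ ≤ _ := mul_le_mul_of_nonneg_right (le_max_right _ _) (Real.sqrt_nonneg _)

section

variable {p k : ℕ} [NeZero (p ^ k)]

theorem Mx_ee_neg (a : ZMod (p ^ k)) (v : ℝ) :
    Mx (fun n => ee (p ^ k) (-a * n)) v = (starRingEnd ℂ) (Mx (fun n => ee (p ^ k) (a * n)) v) := by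
  unfold Mx
  rw [map_sum]
  refine Finset.sum_congr rfl fun n _ => ?_
  rw [map_mul]
  have h2 : (starRingEnd ℂ) (mu n) = mu n := by
    unfold mu
    exact map_intCast (starRingEnd ℂ) _
  have h3 : (starRingEnd ℂ) (ee (p ^ k) (a * n)) = ee (p ^ k) (-a * n) := by
    unfold ee
    rw [neg_mul, AddChar.map_neg_eq_conj]
  rw [h2, h3]

theorem inv_even {q : ℕ} [NeZero q] {χ : DirichletCharacter ℂ q} (he : χ.Even) : (χ⁻¹).Even := by
  unfold DirichletCharacter.Even at he ⊢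
  have h1 : χ⁻¹ (-1) = χ⁻¹ (((-1 : (ZMod q)ˣ) : ZMod q)) := by simp
  rw [h1, CH.inv_unit]
  simpa using he

/-- square root bounds for the even primitive characters -/
theorem Mx_chiE (hp : p.Prime) (hk : 1 ≤ k) {C : ℝ} (hC : 0 ≤ C) (h : HypC C p k)
    {χ : DirichletCharacter ℂ (p ^ k)} (hχ : χ.IsPrimitive) (he : χ.Even) :
    ∃ B : ℝ, 0 ≤ B ∧ ∀ v : ℝ, 1 ≤ v → ‖Mx (fun n => χ n) v‖ ≤ B * Real.sqrt v := by
  have hinv : (χ⁻¹).IsPrimitive := by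
    rw [DirichletCharacter.isPrimitive_def, DirichletCharacter.conductor_inv]
    exact hχ
  have hex : ∀ a : ZMod (p ^ k), ∃ B : ℝ, 0 ≤ B ∧ (IsUnit a → ∀ v : ℝ, 0 ≤ v →
      |(Mx (fun n => ee (p ^ k) (a * n)) v).re| ≤ B * Real.sqrt v) := by
    intro a
    by_cases ha : IsUnit a
    · obtain ⟨B, hB0, hB⟩ := h.all hC a.val (Two.not_dvd_val hp hk a ha)
      exact ⟨B, hB0, fun _ v hv => by rw [Mx_ee]; exact (hB _).trans (floor_bound hB0 hv)⟩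
    · exact ⟨0, le_rfl, fun h' => absurd h' ha⟩
  choose B hB0 hB using hex
  have hg := gauss_ne_zero hinv
  have hg' : 0 < ‖gaussSum χ⁻¹ ZMod.stdAddChar‖ := norm_pos_iff.mpr hg
  refine ⟨(∑ a : ZMod (p ^ k), B a) / ‖gaussSum χ⁻¹ ZMod.stdAddChar‖,
    div_nonneg (Finset.sum_nonneg fun a _ => hB0 a) hg'.le, fun v hv => ?_⟩
  have h1 : Mx (fun n => χ n) v * gaussSum χ⁻¹ ZMod.stdAddChar =
      ∑ a : ZMod (p ^ k), χ⁻¹ a * Mx (fun n => ee (p ^ k) (a * n)) v := by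
    unfold Mx
    simp only [Finset.mul_sum, Finset.sum_mul]
    rw [Finset.sum_comm]
    refine Finset.sum_congr rfl fun n _ => ?_
    have h2 := gaussSum_mulShift_of_isPrimitive ZMod.stdAddChar hinv (n : ZMod (p ^ k))
    rw [inv_inv] at h2
    rw [mul_assoc, ← h2]
    unfold gaussSum
    rw [Finset.mul_sum]
    refine Finset.sum_congr rfl fun a _ => ?_
    rw [AddChar.mulShift_apply, mul_comm (n : ZMod (p ^ k)) a]
    unfold ee
    ring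
  have h1' : Mx (fun n => χ n) v * gaussSum χ⁻¹ ZMod.stdAddChar =
      ∑ a : ZMod (p ^ k), χ⁻¹ a * (((Mx (fun n => ee (p ^ k) (a * n)) v).re : ℝ) : ℂ) := by
    have h2 : ∑ a : ZMod (p ^ k), χ⁻¹ a * Mx (fun n => ee (p ^ k) (a * n)) v =
        ∑ a : ZMod (p ^ k), χ⁻¹ a * (starRingEnd ℂ) (Mx (fun n => ee (p ^ k) (a * n)) v) := by
      rw [← Equiv.sum_comp (Equiv.neg (ZMod (p ^ k)))]
      refine Finset.sum_congr rfl fun a _ => ?_
      rw [Equiv.neg_apply, Mx_ee_neg, (inv_even he).eval_neg]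
    have h3 : (2 : ℂ) * (Mx (fun n => χ n) v * gaussSum χ⁻¹ ZMod.stdAddChar) =
        2 * ∑ a : ZMod (p ^ k), χ⁻¹ a * (((Mx (fun n => ee (p ^ k) (a * n)) v).re : ℝ) : ℂ) := by
      rw [two_mul]
      conv_lhs => rw [h1]
      conv_lhs => rw [h2]
      rw [← h2]
      nth_rewrite 2 [h2]
      rw [← Finset.sum_add_distrib, Finset.mul_sum]
      refine Finset.sum_congr rfl fun a _ => ?_
      rw [← mul_add, Complex.add_conj]
      push_cast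
      ring
    exact mul_left_cancel₀ two_ne_zero h3
  have h3 : ‖Mx (fun n => χ n) v‖ * ‖gaussSum χ⁻¹ ZMod.stdAddChar‖ ≤
      (∑ a : ZMod (p ^ k), B a) * Real.sqrt v := by
    rw [← norm_mul, h1', Finset.sum_mul]
    refine (norm_sum_le _ _).trans (Finset.sum_le_sum fun a _ => ?_)
    rw [norm_mul, Complex.norm_real, Real.norm_eq_abs]
    by_cases ha : IsUnit a
    · calc ‖χ⁻¹ a‖ * |(Mx (fun n => ee (p ^ k) (a * n)) v).re| ≤ 1 * (B a * Real.sqrt v) := by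
            gcongr
            · exact DirichletCharacter.norm_le_one _ _
            · exact hB a ha v (by linarith)
        _ = _ := one_mul _
    · rw [MulChar.map_nonunit _ ha, norm_zero, zero_mul]
      exact mul_nonneg (hB0 a) (Real.sqrt_nonneg _)
  rw [div_mul_eq_mul_div, le_div_iff₀ hg']
  exact h3

theorem cR_boundC (hp : p.Prime) (hk : 2 ≤ k) {C : ℝ} (hC : 0 ≤ C) (h : HypC C p k)
    (a : (ZMod (p ^ k))ˣ) : ∃ B : ℝ, ∀ v, 1 ≤ v → ‖Mx (cR (p ^ k) a) v‖ ≤ B * Real.sqrt v := by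
  have hav := Two.not_dvd_val hp (by omega) (a : ZMod (p ^ k)) a.isUnit
  obtain ⟨B, hB0, hB⟩ := h.all hC (a : ZMod (p ^ k)).val hav
  choose B' hB'0 hB' using fun j : ℕ => h.all hC ((a : ZMod (p ^ k)).val + j * p ^ (k - 1))
    (Two.not_dvd_shift hk _ j hav)
  refine ⟨B + ∑ j ∈ range p, B' j, fun v hv => ?_⟩
  have hv0 : 0 ≤ v := by linarith
  have h1 : Mx (cR (p ^ k) a) v = (((Mx (cop p k (a : ZMod (p ^ k))) v).re : ℝ) : ℂ) := by
    rw [Mx_cR hp hk, Mx_cop_neg, Complex.add_conj]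
    push_cast
    ring
  rw [h1, Complex.norm_real, Real.norm_eq_abs, Mx_cop hp (by omega : 1 ≤ k)]
  have h2 : ((1 / p : ℂ) * ∑ j ∈ range p,
      F ⌊v⌋₊ (((a : ZMod (p ^ k)).val / (p ^ k : ℕ) + j / p : ℚ) : ℝ)).re =
      1 / (p : ℝ) * ∑ j ∈ range p, (F ⌊v⌋₊ (((a : ZMod (p ^ k)).val / (p ^ k : ℕ) + j / p : ℚ) : ℝ)).re := by
    have h3 : (1 / p : ℂ) = ((1 / (p : ℝ) : ℝ) : ℂ) := by push_cast; rfl
    rw [h3, Complex.re_ofReal_mul, Complex.re_sum]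
  rw [Complex.sub_re, h2]
  refine (abs_sub _ _).trans ?_
  rw [add_mul, Finset.sum_mul]
  refine add_le_add ((hB _).trans (floor_bound hB0 hv0)) ?_
  rw [abs_mul]
  have hp1 : (1 : ℝ) ≤ p := by exact_mod_cast hp.one_lt.le
  have h4 : |1 / (p : ℝ)| ≤ 1 := by
    rw [abs_of_pos (by positivity), div_le_one (by linarith)]
    exact hp1
  have h5 : |∑ j ∈ range p, (F ⌊v⌋₊ (((a : ZMod (p ^ k)).val / (p ^ k : ℕ) + j / p : ℚ) : ℝ)).re| ≤
      ∑ j ∈ range p, B' j * Real.sqrt v := by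
    refine (Finset.abs_sum_le_sum_abs _ _).trans (Finset.sum_le_sum fun j _ => ?_)
    rw [Two.frac_eq hp (by omega)]
    exact (hB' j _).trans (floor_bound (hB'0 j) hv0)
  calc _ ≤ 1 * ∑ j ∈ range p, B' j * Real.sqrt v := mul_le_mul h4 h5 (abs_nonneg _) (by norm_num)
    _ = _ := one_mul _

end

/-- square root bounds for the even primitive characters modulo `q` -/
def GoodE (q : ℕ) [NeZero q] : Prop := ∀ χ : DirichletCharacter ℂ q, χ.IsPrimitive → χ.Even →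
      ∃ B : ℝ, 0 ≤ B ∧ ∀ v : ℝ, 1 ≤ v → ‖Mx (fun n => χ n) v‖ ≤ B * Real.sqrt v

theorem cR_boundE (q : ℕ) [NeZero q] (hch0 : GoodE q) (a : ZMod q) :
    ∃ B : ℝ, ∀ v, 1 ≤ v → ‖Mx (cR q a) v‖ ≤ B * Real.sqrt v := by
  have hBχ : ∀ χ : DirichletCharacter ℂ q, ∃ B : ℝ, χ.IsPrimitive → χ.Even → ∀ v, 1 ≤ v →
      ‖Mx (fun n => χ n) v‖ ≤ B * Real.sqrt v := by
    intro χ
    by_cases hp : χ.IsPrimitive ∧ χ.Even
    · obtain ⟨B, -, hB⟩ := hch0 χ hp.1 hp.2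
      exact ⟨B, fun _ _ => hB⟩
    · exact ⟨0, fun hp' he' => absurd ⟨hp', he'⟩ hp⟩
  choose Bχ hBχ using hBχ
  refine ⟨∑ χ ∈ Ev q, ‖cf q a χ‖ * Bχ χ, fun v hv => ?_⟩
  have h4 : cR q a = fun n : ℕ => ∑ χ ∈ Ev q, cf q a χ * χ n := rfl
  rw [h4, Mx_sum (Ev q) (fun χ => cf q a χ) (fun χ n => χ n), Finset.sum_mul]
  refine (norm_sum_le _ _).trans (Finset.sum_le_sum fun χ hχ => ?_)
  rw [norm_mul, mul_assoc]
  have hχ' : χ.Even ∧ χ.IsPrimitive := by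
    classical
    unfold Ev at hχ
    exact (Finset.mem_filter.mp hχ).2
  exact mul_le_mul_of_nonneg_left (hBχ χ hχ'.2 hχ'.1 v hv) (norm_nonneg _)

theorem cL_boundE (q : ℕ) [NeZero q] (hch0 : GoodE q) (a : ZMod q) :
    ∃ B : ℝ, ∀ v, 1 ≤ v → ‖Mx (cL q a) v‖ ≤ B * Real.sqrt v := by
  have hBχ : ∀ χ : DirichletCharacter ℂ q, ∃ B : ℝ, χ.IsPrimitive → χ.Even → ∀ v, 1 ≤ v →
      ‖Mx (fun n => χ n) v‖ ≤ B * Real.sqrt v := by
    intro χ
    by_cases hp : χ.IsPrimitive ∧ χ.Even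
    · obtain ⟨B, -, hB⟩ := hch0 χ hp.1 hp.2
      exact ⟨B, fun _ _ => hB⟩
    · exact ⟨0, fun hp' he' => absurd ⟨hp', he'⟩ hp⟩
  choose Bχ hBχ using hBχ
  refine ⟨∑ χ ∈ Ev q, ‖cf q a χ * (DirichletCharacter.rootNumber χ)⁻¹‖ * Bχ χ⁻¹, fun v hv => ?_⟩
  have h4 : cL q a = fun n : ℕ => ∑ χ ∈ Ev q, cf q a χ * (DirichletCharacter.rootNumber χ)⁻¹ * χ⁻¹ n := rfl
  rw [h4, Mx_sum (Ev q) (fun χ => cf q a χ * (DirichletCharacter.rootNumber χ)⁻¹) (fun χ n => χ⁻¹ n),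
    Finset.sum_mul]
  refine (norm_sum_le _ _).trans (Finset.sum_le_sum fun χ hχ => ?_)
  rw [norm_mul, mul_assoc]
  have hχ' : χ.Even ∧ χ.IsPrimitive := by
    classical
    unfold Ev at hχ
    exact (Finset.mem_filter.mp hχ).2
  exact mul_le_mul_of_nonneg_left (hBχ χ⁻¹ (inv_prim q hχ'.2) (inv_even hχ'.1) v hv) (norm_nonneg _)

end Pool.Agent.T9h54.MY
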