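import Pool.Agent.T9h54.MY.Scal

/-!
# The inequality for the full sums
-/

set_option autoImplicit false

open Filter Topology MeasureTheory Finset

namespace Pool.Agent.T9h54.MY

open Pool.Agent.Y821.ME

theorem aF_sub (lam B1 B2 : ℝ) (M1 M2 : ℝ → ℂ) (m1 : Measurable M1) (m2 : Measurable M2)
    (z1 : ∀ v < 1, M1 v = 0) (z2 : ∀ v < 1, M2 v = 0)
    (b1 : ∀ v, 1 ≤ v → ‖M1 v‖ ≤ B1 * Real.sqrt v) (b2 : ∀ v, 1 ≤ v → ‖M2 v‖ ≤ B2 * Real.sqrt v) (u : ℝ) :
    aF lam (fun v => M1 v - M2 v) u = aF lam M1 u - aF lam M2 u := by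
  unfold aF
  have i1 := (lap lam B1 M1 m1 z1 b1).2.1 u
  have i2 := (lap lam B2 M2 m2 z2 b2).2.1 u
  rw [← mul_sub, ← integral_sub i1 i2]
  congr 1
  refine integral_congr_ae (Eventually.of_forall fun v => ?_)
  simp only
  ring

section

variable (p l : ℕ) [Fact p.Prime]

/-- the two parameters -/
noncomputable def lm : ℝ := Real.log ((p ^ (2 * l) : ℕ) / Real.pi) / 2

noncomputable def lm' : ℝ := Real.log ((p ^ (2 * l - 1) : ℕ) / Real.pi) / 2

theorem lm'_eq (hl : 1 ≤ l) : lm' p l = lm p l - Real.log p / 2 := by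
  have hp0 : (0 : ℝ) < p := by exact_mod_cast (Fact.out : p.Prime).pos
  unfold lm lm'
  have h1 : ((p ^ (2 * l) : ℕ) : ℝ) / Real.pi = ((p ^ (2 * l - 1) : ℕ) : ℝ) / Real.pi * p := by
    have h4 : (p : ℝ) ^ (2 * l) = (p : ℝ) ^ (2 * l - 1) * p := by
      rw [← pow_succ]
      congr 1
      omega
    push_cast
    rw [h4]
    ring
  have h2 : (0 : ℝ) < ((p ^ (2 * l - 1) : ℕ) : ℝ) / Real.pi := by
    push_cast
    have := Real.pi_pos
    positivity
  rw [h1, Real.log_mul h2.ne' hp0.ne']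
  ring

/-- the shift -/
noncomputable def sg : ℝ := 3 / 2 * Real.log p

/-- the factor -/
noncomputable def PP : ℂ := ((Real.exp (-(3 / 4 * Real.log p)) : ℝ) : ℂ)

/-- the left coefficients for the smaller modulus -/
noncomputable def cL' (a : (ZMod (p ^ (2 * l)))ˣ) (n : ℕ) : ℂ :=
  cL (p ^ (2 * l - 1)) ((ru p l a : (ZMod (p ^ (2 * l - 1)))ˣ) : ZMod (p ^ (2 * l - 1))) n

/-- the right coefficients for the smaller modulus -/
noncomputable def cR' (a : (ZMod (p ^ (2 * l)))ˣ) (n : ℕ) : ℂ :=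
  cR (p ^ (2 * l - 1)) ((ru p l a : (ZMod (p ^ (2 * l - 1)))ˣ) : ZMod (p ^ (2 * l - 1))) n

theorem ineqF (hl : 2 ≤ l) {C : ℝ}
    (hch0 : GoodE (p ^ (2 * l))) (hch1 : GoodE (p ^ (2 * l - 1))) (a : (ZMod (p ^ (2 * l)))ˣ)
    (hgood : ∃ v₀ : ℝ, ∀ v, v₀ ≤ v → ‖Mx (cF p l a) v‖ ≤ C * Real.sqrt v) (u : ℝ) :
    ‖(aF (lm p l) (Mx (cR (p ^ (2 * l)) a)) u - aF (lm p l) (Mx (cL (p ^ (2 * l)) a)) (-u)) -
      PP p * (aF (lm' p l) (Mx (cR' p l a)) (u - sg p) - aF (lm' p l) (Mx (cL' p l a)) (-(u - sg p)))‖ ≤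
      C * Real.exp (-(lm p l) / 2) * Kth := by
  classical
  have hp : p.Prime := Fact.out
  have hp0 : (0 : ℝ) < p := by exact_mod_cast hp.pos
  have hp1 : (1 : ℝ) ≤ p := by exact_mod_cast hp.one_lt.le
  have hq : ∀ k, 1 ≤ k → 2 ≤ p ^ k := fun k hk => by
    calc 2 ≤ p := hp.two_le
      _ = p ^ 1 := (pow_one p).symm
      _ ≤ p ^ k := Nat.pow_le_pow_right hp.pos hk
  obtain ⟨c0, ⟨B0, b0⟩, d0⟩ := discA (p ^ (2 * l)) (hq _ (by omega)) hch0 (a : ZMod (p ^ (2 * l)))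
  obtain ⟨c1, ⟨B1, b1⟩, d1⟩ := discA (p ^ (2 * l - 1)) (hq _ (by omega)) hch1
    ((ru p l a : (ZMod (p ^ (2 * l - 1)))ˣ) : ZMod (p ^ (2 * l - 1)))
  set A : ℝ → ℂ := fun u => aF (lm p l) (Mx (cR (p ^ (2 * l)) a)) u -
    aF (lm p l) (Mx (cL (p ^ (2 * l)) a)) (-u) with hA
  set A' : ℝ → ℂ := fun u => aF (lm' p l) (Mx (cR' p l a)) u - aF (lm' p l) (Mx (cL' p l a)) (-u) with hA'
  have c0' : Continuous A := c0
  have c1' : Continuous A' := c1
  have d0' : Disc A := d0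
  have d1' : Disc A' := d1
  have b0' : ∀ u, ‖A u‖ ≤ B0 := b0
  have b1' : ∀ u, ‖A' u‖ ≤ B1 := b1
  set B : ℝ → ℂ := fun u => A u - PP p * A' (u - sg p) with hB
  have hBeq : B = fun u => ∑ i : Bool, (if i then (1 : ℂ) else -PP p) *
      ((if i then A else fun u => A' (u - sg p)) u) := by
    funext u
    rw [Fintype.sum_bool]
    simp only [if_true, Bool.false_eq_true, if_false]
    rw [hB]
    ring
  have hcB : ∀ i : Bool, Continuous ((if i then A else fun u => A' (u - sg p)) : ℝ → ℂ) := by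
    intro i
    cases i
    · simp only [Bool.false_eq_true, if_false]
      exact c1'.comp (continuous_id.sub continuous_const)
    · simp only [if_true]
      exact c0'
  have hbB : ∀ i : Bool, ∃ B : ℝ, ∀ u, ‖((if i then A else fun u => A' (u - sg p)) : ℝ → ℂ) u‖ ≤ B := by
    intro i
    cases i
    · simp only [Bool.false_eq_true, if_false]
      exact ⟨B1, fun u => b1' _⟩
    · simp only [if_true]
      exact ⟨B0, b0'⟩
  have hdB : ∀ i : Bool, Disc ((if i then A else fun u => A' (u - sg p)) : ℝ → ℂ) := by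
    intro i
    cases i
    · simp only [Bool.false_eq_true, if_false]
      exact Disc_shift A' d1' (sg p)
    · simp only [if_true]
      exact d0'
  have hdisc : Disc B := by
    rw [hBeq]
    exact Disc_sum univ (fun i : Bool => if i then (1 : ℂ) else -PP p)
      (fun i : Bool => ((if i then A else fun u => A' (u - sg p)) : ℝ → ℂ)) (fun i _ => hcB i) (fun i _ => hbB i)
      (fun i _ => hdB i)
  have hBc : Continuous B := c0'.sub (continuous_const.mul (c1'.comp (continuous_id.sub continuous_const)))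
  have hBb : ∃ K : ℝ, ∀ u, ‖B u‖ ≤ K := by
    refine ⟨B0 + ‖PP p‖ * B1, fun u => (norm_sub_le _ _).trans (add_le_add (b0' u) ?_)⟩
    rw [norm_mul]
    exact mul_le_mul_of_nonneg_left (b1' _) (norm_nonneg _)
  -- bounds
  obtain ⟨BR, hBR⟩ := cR_boundE (p ^ (2 * l)) hch0 (a : ZMod (p ^ (2 * l)))
  obtain ⟨BR', hBR'⟩ := cR_boundE (p ^ (2 * l - 1)) hch1
    ((ru p l a : (ZMod (p ^ (2 * l - 1)))ˣ) : ZMod (p ^ (2 * l - 1)))
  obtain ⟨BL, hBL⟩ := cL_boundE (p ^ (2 * l)) hch0 (a : ZMod (p ^ (2 * l)))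
  obtain ⟨BL', hBL'⟩ := cL_boundE (p ^ (2 * l - 1)) hch1
    ((ru p l a : (ZMod (p ^ (2 * l - 1)))ˣ) : ZMod (p ^ (2 * l - 1)))
  have hM2z : ∀ v : ℝ, v < 1 → Mx (cR' p l a) (v / p) = 0 := by
    intro v hv
    refine Mx_lt_one _ _ ?_
    rw [div_lt_one hp0]
    linarith
  have hM2b : ∀ v : ℝ, 1 ≤ v → ‖Mx (cR' p l a) (v / p)‖ ≤ |BR'| * Real.sqrt v := by
    intro v hv
    rcases lt_or_ge (v / p) 1 with h3 | h3
    · rw [Mx_lt_one _ _ h3, norm_zero]
      positivity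
    · refine (hBR' _ h3).trans ?_
      have h4 : Real.sqrt (v / p) ≤ Real.sqrt v := Real.sqrt_le_sqrt (div_le_self (by linarith) hp1)
      calc BR' * Real.sqrt (v / p) ≤ |BR'| * Real.sqrt (v / p) :=
            mul_le_mul_of_nonneg_right (le_abs_self _) (Real.sqrt_nonneg _)
        _ ≤ |BR'| * Real.sqrt v := mul_le_mul_of_nonneg_left h4 (abs_nonneg _)
  have hM2m : Measurable (fun v : ℝ => Mx (cR' p l a) (v / p)) :=
    (Mx_measurable _).comp (measurable_id.div_const _)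
  have hFeq : Mx (cF p l a) = fun v => Mx (cR (p ^ (2 * l)) a) v - Mx (cR' p l a) (v / p) := by
    funext v
    exact Mx_cF p l hl a v
  have hFaF : ∀ u, aF (lm p l) (Mx (cF p l a)) u = aF (lm p l) (Mx (cR (p ^ (2 * l)) a)) u -
      PP p * aF (lm' p l) (Mx (cR' p l a)) (u - sg p) := by
    intro u
    rw [hFeq, aF_sub (lm p l) BR |BR'| _ _ (Mx_measurable _) hM2m (Mx_lt_one _) hM2z hBR hM2b u,
      aF_scale (lm p l) (Mx (cR' p l a)) p hp.pos u, ← lm'_eq p l (by omega)]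
    rfl
  have hFb : ∀ v, 1 ≤ v → ‖Mx (cF p l a) v‖ ≤ (BR + |BR'|) * Real.sqrt v := by
    intro v hv
    rw [hFeq]
    refine (norm_sub_le _ _).trans ?_
    rw [add_mul]
    exact add_le_add (hBR v hv) (hM2b v hv)
  obtain ⟨v₀, hv₀⟩ := hgood
  obtain ⟨-, -, ⟨E0, hE0⟩, -⟩ := lap (lm p l) BL (Mx (cL (p ^ (2 * l)) a)) (Mx_measurable _) (Mx_lt_one _) hBL
  obtain ⟨-, -, ⟨E1, hE1⟩, -⟩ := lap (lm' p l) BL' (Mx (cL' p l a)) (Mx_measurable _) (Mx_lt_one _) hBL'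
  have hexp0 : ∀ (K s : ℝ), Tendsto (fun u : ℝ => K * Real.exp (-(u - s) / 2)) atTop (𝓝 0) := by
    intro K s
    have h2 : Tendsto (fun u : ℝ => K * Real.exp (-(u - s) / 2)) atTop (𝓝 (K * 0)) := by
      refine Tendsto.const_mul _ ?_
      refine Real.tendsto_exp_atBot.comp ?_
      have h3 : (fun u : ℝ => -(u - s) / 2) = fun u => -((u - s) / 2) := by funext u; ring
      rw [h3]
      exact tendsto_neg_atTop_atBot.comp
        ((tendsto_atTop_add_const_right _ (-s) tendsto_id).atTop_div_const (by norm_num))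
    rwa [mul_zero] at h2
  have hlimsup : ∀ ε : ℝ, 0 < ε → ∀ᶠ u in atTop, ‖B u‖ ≤ C * Real.exp (-(lm p l) / 2) * Kth + ε := by
    intro ε hε
    have h2 := lim (lm p l) (BR + |BR'|) C v₀ (Mx (cF p l a)) (Mx_measurable _) (Mx_lt_one _) hFb hv₀ (ε / 2)
      (by positivity)
    have h3 := (hexp0 E0 0).eventually (gt_mem_nhds (show 0 < ε / 4 by positivity))
    have h4 := (hexp0 (‖PP p‖ * E1) (sg p)).eventually (gt_mem_nhds (show 0 < ε / 4 by positivity))
    filter_upwards [h2, h3, h4] with u hu2 hu3 hu4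
    have h5 : B u = aF (lm p l) (Mx (cF p l a)) u - aF (lm p l) (Mx (cL (p ^ (2 * l)) a)) (-u) +
        PP p * aF (lm' p l) (Mx (cL' p l a)) (-(u - sg p)) := by
      rw [hFaF, hB, hA, hA']
      ring
    rw [h5]
    have h6 := (hE0 (-u)).2
    have h7 := (hE1 (-(u - sg p))).2
    have h8 : ‖PP p * aF (lm' p l) (Mx (cL' p l a)) (-(u - sg p))‖ ≤ ‖PP p‖ * E1 * Real.exp (-(u - sg p) / 2) := by
      rw [norm_mul, mul_assoc]
      exact mul_le_mul_of_nonneg_left h7 (norm_nonneg _)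
    have h9 := norm_add_le (aF (lm p l) (Mx (cF p l a)) u - aF (lm p l) (Mx (cL (p ^ (2 * l)) a)) (-u))
      (PP p * aF (lm' p l) (Mx (cL' p l a)) (-(u - sg p)))
    have h10 := norm_sub_le (aF (lm p l) (Mx (cF p l a)) u) (aF (lm p l) (Mx (cL (p ^ (2 * l)) a)) (-u))
    rw [sub_zero] at hu3
    linarith
  exact sup B hBc hBb hdisc (C * Real.exp (-(lm p l) / 2) * Kth) hlimsup u

end

end Pool.Agent.T9h54.MY
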