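import Pool.Agent.T9h54.MY.Gen

/-!
# Kloosterman sums modulo `p ^ (2l - 1)`
-/

set_option autoImplicit false

open Filter Topology Finset

namespace Pool.Agent.T9h54.MY

open Pool.Agent.Y821.ME
open Pool.Agent.T9h54.MX (card_sol)

/-- reduction modulo `p` -/
noncomputable def redG (p k : ℕ) (hk : 1 ≤ k) : ZMod (p ^ k) →+* ZMod p :=
  ZMod.castHom (dvd_pow_self p (by omega : k ≠ 0)) (ZMod p)

theorem isUnit_of_redG {p k : ℕ} [NeZero (p ^ k)] (hp : p.Prime) (hk : 1 ≤ k) (a : ZMod (p ^ k))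
    (ha : redG p k hk a ≠ 0) : IsUnit a := by
  have h1 : a = ((a.val : ℕ) : ZMod (p ^ k)) := (ZMod.natCast_zmod_val a).symm
  rw [h1, ZMod.isUnit_iff_coprime]
  apply Nat.Coprime.pow_right
  rw [Nat.coprime_comm, Nat.Prime.coprime_iff_not_dvd hp]
  intro h2
  apply ha
  rw [h1, map_natCast]
  exact (ZMod.natCast_eq_zero_iff _ _).mpr h2

theorem dichG {p k : ℕ} [NeZero (p ^ k)] (hp : p.Prime) (hp2 : p ≠ 2) (hk : 1 ≤ k) (P : ZMod (p ^ k))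
    (x z : (ZMod (p ^ k))ˣ) (h : P * ((x : ZMod (p ^ k)) ^ 2 - (z : ZMod (p ^ k)) ^ 2) = 0) :
    P * ((x : ZMod (p ^ k)) - z) = 0 ∨ P * ((x : ZMod (p ^ k)) + z) = 0 := by
  have : Fact p.Prime := ⟨hp⟩
  by_cases h1 : redG p k hk ((x : ZMod (p ^ k)) - z) = 0
  · left
    have h2 : redG p k hk ((x : ZMod (p ^ k)) + z) ≠ 0 := by
      intro h3
      have h4 : (2 : ZMod p) * redG p k hk (z : ZMod (p ^ k)) = 0 := by
        rw [map_sub] at h1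
        rw [map_add] at h3
        linear_combination h3 - h1
      rcases mul_eq_zero.mp h4 with h5 | h5
      · exact two_ne hp hp2 h5
      · exact ((z.isUnit.map (redG p k hk)).ne_zero) h5
    obtain ⟨u, hu⟩ := isUnit_of_redG hp hk _ h2
    have h3 : P * ((x : ZMod (p ^ k)) - z) * u = 0 := by
      rw [hu]
      linear_combination h
    exact (Units.mul_left_eq_zero u).mp h3
  · right
    obtain ⟨u, hu⟩ := isUnit_of_redG hp hk _ h1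
    have h3 : P * ((x : ZMod (p ^ k)) + z) * u = 0 := by
      rw [hu]
      linear_combination h
    exact (Units.mul_left_eq_zero u).mp h3

section

variable (p l : ℕ) [Fact p.Prime]

/-- the set of `x` with `p ^ l (x - c / x) = 0` -/
noncomputable def Xc (c : ZMod (p ^ (2 * l - 1))) : Finset (ZMod (p ^ (2 * l - 1)))ˣ :=
  (univ : Finset (ZMod (p ^ (2 * l - 1)))ˣ).filter (fun x : (ZMod (p ^ (2 * l - 1)))ˣ =>
        ((p ^ l : ℕ) : ZMod (p ^ (2 * l - 1))) * ((x : ZMod (p ^ (2 * l - 1))) -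
          c * ((x⁻¹ : (ZMod (p ^ (2 * l - 1)))ˣ) : ZMod (p ^ (2 * l - 1)))) = 0)

theorem mem_Xc (c : ZMod (p ^ (2 * l - 1))) (x : (ZMod (p ^ (2 * l - 1)))ˣ) : x ∈ Xc p l c ↔
    ((p ^ l : ℕ) : ZMod (p ^ (2 * l - 1))) * ((x : ZMod (p ^ (2 * l - 1))) ^ 2 - c) = 0 := by
  unfold Xc
  rw [Finset.mem_filter, cond_iff]
  simp

theorem card_Xc (hp2 : p ≠ 2) (hl : 1 ≤ l) (c : ZMod (p ^ (2 * l - 1))) : (Xc p l c).card ≤ 2 * p ^ l := by
  classical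
  have hp : p.Prime := Fact.out
  rcases (Xc p l c).eq_empty_or_nonempty with h | ⟨z, hz⟩
  · rw [h]; simp
  rw [mem_Xc] at hz
  have hsub : Xc p l c ⊆ ((univ : Finset (ZMod (p ^ (2 * l - 1)))ˣ).filter (fun x : (ZMod (p ^ (2 * l - 1)))ˣ =>
      ((p ^ l : ℕ) : ZMod (p ^ (2 * l - 1))) * ((x : ZMod (p ^ (2 * l - 1))) - z) = 0)) ∪
      ((univ : Finset (ZMod (p ^ (2 * l - 1)))ˣ).filter (fun x : (ZMod (p ^ (2 * l - 1)))ˣ =>
      ((p ^ l : ℕ) : ZMod (p ^ (2 * l - 1))) * ((x : ZMod (p ^ (2 * l - 1))) + z) = 0)) := by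
    intro x hx
    rw [mem_Xc] at hx
    rw [Finset.mem_union, Finset.mem_filter, Finset.mem_filter]
    rcases dichG hp hp2 (by omega : 1 ≤ 2 * l - 1) ((p ^ l : ℕ) : ZMod (p ^ (2 * l - 1))) x z
      (by linear_combination hx - hz) with h | h
    · exact Or.inl ⟨Finset.mem_univ _, h⟩
    · exact Or.inr ⟨Finset.mem_univ _, h⟩
  have hpl : 0 < p ^ l := pow_pos hp.pos l
  have h1 : ((univ : Finset (ZMod (p ^ (2 * l - 1)))ˣ).filter (fun x : (ZMod (p ^ (2 * l - 1)))ˣ =>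
      ((p ^ l : ℕ) : ZMod (p ^ (2 * l - 1))) * ((x : ZMod (p ^ (2 * l - 1))) - z) = 0)).card ≤ p ^ l := by
    rw [← Finset.card_image_of_injective (f := fun b : (ZMod (p ^ (2 * l - 1)))ˣ => (b : ZMod (p ^ (2 * l - 1)))) _
      Units.val_injective]
    refine card_sol _ _ hpl (((p ^ l : ℕ) : ZMod (p ^ (2 * l - 1))) * (z : ZMod (p ^ (2 * l - 1)))) _ ?_
    intro b hb
    obtain ⟨u, hu, rfl⟩ := Finset.mem_image.mp hb
    have := (Finset.mem_filter.mp hu).2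
    linear_combination this
  have h2 : ((univ : Finset (ZMod (p ^ (2 * l - 1)))ˣ).filter (fun x : (ZMod (p ^ (2 * l - 1)))ˣ =>
      ((p ^ l : ℕ) : ZMod (p ^ (2 * l - 1))) * ((x : ZMod (p ^ (2 * l - 1))) + z) = 0)).card ≤ p ^ l := by
    rw [← Finset.card_image_of_injective (f := fun b : (ZMod (p ^ (2 * l - 1)))ˣ => (b : ZMod (p ^ (2 * l - 1)))) _
      Units.val_injective]
    refine card_sol _ _ hpl (-(((p ^ l : ℕ) : ZMod (p ^ (2 * l - 1))) * (z : ZMod (p ^ (2 * l - 1))))) _ ?_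
    intro b hb
    obtain ⟨u, hu, rfl⟩ := Finset.mem_image.mp hb
    have := (Finset.mem_filter.mp hu).2
    linear_combination this
  have h3 := (Finset.card_le_card hsub).trans (Finset.card_union_le _ _)
  omega

/-- the critical values -/
theorem crit (hp2 : p ≠ 2) (hl : 1 ≤ l) (ρ x : (ZMod (p ^ (2 * l - 1)))ˣ)
    (hx : x ∈ Xc p l ((ρ : ZMod (p ^ (2 * l - 1))) ^ 2)) :
    (p : ZMod (p ^ (2 * l - 1))) * ((x : ZMod (p ^ (2 * l - 1))) + (ρ : ZMod (p ^ (2 * l - 1))) ^ 2 *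
      ((x⁻¹ : (ZMod (p ^ (2 * l - 1)))ˣ) : ZMod (p ^ (2 * l - 1))) - 2 * ρ) = 0 ∨
    (p : ZMod (p ^ (2 * l - 1))) * ((x : ZMod (p ^ (2 * l - 1))) + (ρ : ZMod (p ^ (2 * l - 1))) ^ 2 *
      ((x⁻¹ : (ZMod (p ^ (2 * l - 1)))ˣ) : ZMod (p ^ (2 * l - 1))) + 2 * ρ) = 0 := by
  have hp : p.Prime := Fact.out
  have key : ∀ y : ZMod (p ^ (2 * l - 1)), ((p ^ l : ℕ) : ZMod (p ^ (2 * l - 1))) * y = 0 →
      (p : ZMod (p ^ (2 * l - 1))) * y ^ 2 = 0 := by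
    intro y hy
    have h1 : ((p ^ l : ℕ) : ZMod (p ^ (2 * l - 1))) * y = ((p ^ l * y.val : ℕ) : ZMod (p ^ (2 * l - 1))) := by
      rw [Nat.cast_mul (p ^ l) y.val, ZMod.natCast_zmod_val]
    rw [h1, ZMod.natCast_eq_zero_iff] at hy
    have h2 : p ^ (2 * l - 1) = p ^ l * p ^ (l - 1) := by rw [← pow_add]; congr 1; omega
    have h3 : p ^ (l - 1) ∣ y.val := by
      have h4 : p ^ l * p ^ (l - 1) ∣ p ^ l * y.val := by
        refine (dvd_of_eq h2.symm).trans hy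
      exact Nat.dvd_of_mul_dvd_mul_left (pow_pos hp.pos l) h4
    obtain ⟨v, hv⟩ := h3
    have h5 : y = ((p ^ (l - 1) * v : ℕ) : ZMod (p ^ (2 * l - 1))) := by
      rw [← hv, ZMod.natCast_zmod_val]
    have h6 : (p : ZMod (p ^ (2 * l - 1))) * y ^ 2 = ((p ^ (2 * l - 1) * v ^ 2 : ℕ) : ZMod (p ^ (2 * l - 1))) := by
      have h7 : p ^ (2 * l - 1) * v ^ 2 = p * (p ^ (l - 1) * v) ^ 2 := by
        have h8 : p ^ (2 * l - 1) = p * (p ^ (l - 1)) ^ 2 := by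
          rw [← pow_mul, ← pow_succ']
          congr 1
          omega
        rw [h8]; ring
      rw [h7, h5]
      push_cast
      ring
    rw [h6, Nat.cast_mul, ZMod.natCast_self, zero_mul]
  have hxx : (x : ZMod (p ^ (2 * l - 1))) * ((x⁻¹ : (ZMod (p ^ (2 * l - 1)))ˣ) : ZMod (p ^ (2 * l - 1))) = 1 :=
    Units.mul_inv x
  rw [mem_Xc] at hx
  rcases dichG hp hp2 (by omega : 1 ≤ 2 * l - 1) _ x ρ hx with h | h
  · left
    have h1 := key _ h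
    have h2 : ((x : ZMod (p ^ (2 * l - 1))) + (ρ : ZMod (p ^ (2 * l - 1))) ^ 2 *
      ((x⁻¹ : (ZMod (p ^ (2 * l - 1)))ˣ) : ZMod (p ^ (2 * l - 1))) - 2 * ρ) =
      ((x : ZMod (p ^ (2 * l - 1))) - ρ) ^ 2 * ((x⁻¹ : (ZMod (p ^ (2 * l - 1)))ˣ) : ZMod (p ^ (2 * l - 1))) := by
      linear_combination (2 * (ρ : ZMod (p ^ (2 * l - 1))) - x) * hxx
    rw [h2, ← mul_assoc, h1, zero_mul]
  · right
    have h1 := key _ h
    have h2 : ((x : ZMod (p ^ (2 * l - 1))) + (ρ : ZMod (p ^ (2 * l - 1))) ^ 2 *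
      ((x⁻¹ : (ZMod (p ^ (2 * l - 1)))ˣ) : ZMod (p ^ (2 * l - 1))) + 2 * ρ) =
      ((x : ZMod (p ^ (2 * l - 1))) + ρ) ^ 2 * ((x⁻¹ : (ZMod (p ^ (2 * l - 1)))ˣ) : ZMod (p ^ (2 * l - 1))) := by
      linear_combination (-2 * (ρ : ZMod (p ^ (2 * l - 1))) - x) * hxx
    rw [h2, ← mul_assoc, h1, zero_mul]

/-- reduction modulo `p ^ (2l - 1)` -/
noncomputable def rd : ZMod (p ^ (2 * l)) →+* ZMod (p ^ (2 * l - 1)) :=
  ZMod.castHom (pow_dvd_pow p (by omega : 2 * l - 1 ≤ 2 * l)) (ZMod (p ^ (2 * l - 1)))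

theorem ee_rd (hl : 1 ≤ l) (z : ZMod (p ^ (2 * l))) :
    ee (p ^ (2 * l - 1)) (rd p l z) = ee (p ^ (2 * l)) (p * z) := by
  have hp : p.Prime := Fact.out
  have h1 : z = ((z.val : ℤ) : ZMod (p ^ (2 * l))) := by
    rw [Int.cast_natCast, ZMod.natCast_zmod_val]
  have h2 : rd p l z = ((z.val : ℤ) : ZMod (p ^ (2 * l - 1))) := by
    conv_lhs => rw [h1]
    rw [map_intCast]
  have h3 : (p : ZMod (p ^ (2 * l))) * z = (((p : ℤ) * (z.val : ℤ) : ℤ) : ZMod (p ^ (2 * l))) := by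
    conv_lhs => rw [h1]
    push_cast
    ring
  unfold ee
  rw [h2, h3, ZMod.stdAddChar_coe, ZMod.stdAddChar_coe]
  congr 1
  have hp0 : (p : ℂ) ≠ 0 := Nat.cast_ne_zero.mpr hp.ne_zero
  have h4 : (p : ℂ) ^ (2 * l) = (p : ℂ) ^ (2 * l - 1) * p := by
    rw [← pow_succ]
    congr 1
    omega
  push_cast
  rw [h4]
  field_simp

/-- the Kloosterman sum at `b² c` as a sum of exponentials in `b` -/
theorem Kl_sq (hl : 1 ≤ l) (b : (ZMod (p ^ (2 * l)))ˣ) (c : ZMod (p ^ (2 * l - 1))) :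
    Kl (p ^ (2 * l - 1)) ((rd p l (b : ZMod (p ^ (2 * l)))) ^ 2 * c) =
      ∑ x ∈ Xc p l c, ee (p ^ (2 * l)) (((p : ZMod (p ^ (2 * l))) *
        ((((x : ZMod (p ^ (2 * l - 1))) + c * ((x⁻¹ : (ZMod (p ^ (2 * l - 1)))ˣ) :
          ZMod (p ^ (2 * l - 1)))).val : ℕ) : ZMod (p ^ (2 * l)))) * b) := by
  classical
  have hp : p.Prime := Fact.out
  have hq : (((p ^ l : ℕ) : ZMod (p ^ (2 * l - 1)))) ^ 2 = 0 := by
    rw [← Nat.cast_pow, ZMod.natCast_eq_zero_iff, ← pow_mul]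
    exact pow_dvd_pow _ (by omega)
  rw [kl_restrict (p ^ l) (p ^ (2 * l - 1)) hq]
  set β : (ZMod (p ^ (2 * l - 1)))ˣ := Units.map (rd p l : ZMod (p ^ (2 * l)) →* ZMod (p ^ (2 * l - 1))) b with hβ
  have hβv : (β : ZMod (p ^ (2 * l - 1))) = rd p l (b : ZMod (p ^ (2 * l))) := rfl
  rw [← hβv]
  have hββ : (β : ZMod (p ^ (2 * l - 1))) * ((β⁻¹ : (ZMod (p ^ (2 * l - 1)))ˣ) : ZMod (p ^ (2 * l - 1))) = 1 :=
    Units.mul_inv β
  symm
  refine Finset.sum_bij (fun x _ => β * x) ?_ ?_ ?_ ?_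
  · intro x hx
    unfold Xc at hx
    rw [Finset.mem_filter] at hx ⊢
    refine ⟨Finset.mem_univ _, ?_⟩
    rw [mul_inv, Units.val_mul, Units.val_mul]
    have h1 := hx.2
    linear_combination (β : ZMod (p ^ (2 * l - 1))) * h1 - ((p ^ l : ℕ) : ZMod (p ^ (2 * l - 1))) * β * c *
      ((x⁻¹ : (ZMod (p ^ (2 * l - 1)))ˣ) : ZMod (p ^ (2 * l - 1))) * hββ
  · intro x _ y _ h
    exact mul_left_cancel h
  · intro y hy
    rw [Finset.mem_filter] at hy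
    refine ⟨β⁻¹ * y, ?_, by group⟩
    unfold Xc
    rw [Finset.mem_filter]
    refine ⟨Finset.mem_univ _, ?_⟩
    have h1 := hy.2
    rw [mul_inv, inv_inv, Units.val_mul, Units.val_mul]
    linear_combination ((β⁻¹ : (ZMod (p ^ (2 * l - 1)))ˣ) : ZMod (p ^ (2 * l - 1))) * h1 +
      ((p ^ l : ℕ) : ZMod (p ^ (2 * l - 1))) * β * c *
      ((y⁻¹ : (ZMod (p ^ (2 * l - 1)))ˣ) : ZMod (p ^ (2 * l - 1))) * hββ
  · intro x _
    have h1 : (((β * x : (ZMod (p ^ (2 * l - 1)))ˣ) : ZMod (p ^ (2 * l - 1)))) + (β : ZMod (p ^ (2 * l - 1))) ^ 2 * c *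
        (((β * x)⁻¹ : (ZMod (p ^ (2 * l - 1)))ˣ) : ZMod (p ^ (2 * l - 1))) =
        β * ((x : ZMod (p ^ (2 * l - 1))) + c * ((x⁻¹ : (ZMod (p ^ (2 * l - 1)))ˣ) : ZMod (p ^ (2 * l - 1)))) := by
      rw [mul_inv, Units.val_mul, Units.val_mul]
      linear_combination (β : ZMod (p ^ (2 * l - 1))) * c *
        ((x⁻¹ : (ZMod (p ^ (2 * l - 1)))ˣ) : ZMod (p ^ (2 * l - 1))) * hββ
    rw [h1]
    set y : ZMod (p ^ (2 * l - 1)) := (x : ZMod (p ^ (2 * l - 1))) +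
      c * ((x⁻¹ : (ZMod (p ^ (2 * l - 1)))ˣ) : ZMod (p ^ (2 * l - 1))) with hy
    have h2 : (β : ZMod (p ^ (2 * l - 1))) * y = rd p l ((b : ZMod (p ^ (2 * l))) * ((y.val : ℕ) : ZMod (p ^ (2 * l)))) := by
      rw [map_mul, map_natCast, ZMod.natCast_zmod_val, hβv]
    rw [h2, ee_rd p l hl]
    congr 1
    ring

end

end Pool.Agent.T9h54.MY
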