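import Pool.Agent.T9h54.MY.Serf

/-!
# The local theorem for the full sums
-/

set_option autoImplicit false

open Filter Topology MeasureTheory Finset

namespace Pool.Agent.T9h54.MY

open Pool.Agent.Y821.ME
open Pool.Agent.T9h54.MX (nu tg norm_nu abs_tg yb Near series_diff)

/-- a series whose first coefficients are small -/
theorem small_series (Z e : ℝ) (hZ : 0 < Z) (he0 : 0 ≤ e) (Y : ℕ) (hY : 1 ≤ Y) (T : ℕ → ℂ)
    (hT : ∀ n, ‖T n‖ ≤ 2) (he : ∀ n : ℕ, 1 ≤ n → n ≤ Y → ‖mu n * T n‖ ≤ e) :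
    ‖∑' n : ℕ, mu (n + 1) * T (n + 1) * (VL ((n + 1 : ℕ) * (1 / Z)) : ℝ)‖ ≤ 6 * e * Z ^ 3 + 6 * Z ^ 3 / (Y : ℝ) ^ 2 := by
  classical
  set T' : ℕ → ℂ := fun n => if n ≤ Y then 0 else T n with hT'
  have hT'2 : ∀ n, ‖T' n‖ ≤ 2 := by
    intro n
    rw [hT']
    simp only
    split_ifs
    · rw [norm_zero]; norm_num
    · exact hT n
  have hd := series_diff vb Z e hZ T T' hT hT'2 (fun n hn => by
    rw [hT']
    simp only
    split_ifs with h
    · rw [mul_zero, sub_zero]; exact he n hn h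
    · rw [sub_self, norm_zero]; exact he0)
  set g : ℕ → ℂ := fun n => mu (n + 1) * T' (n + 1) * (VL ((n + 1 : ℕ) * (1 / Z)) : ℝ) with hg
  have hbound : ∀ n : ℕ, ‖g n‖ ≤ 6 * Z ^ 3 * (1 / ((n : ℝ) + 1) ^ 3) := by
    intro n
    have hn : (0 : ℝ) < (n : ℝ) + 1 := by positivity
    have h1 := (vb.1 (((n + 1 : ℕ) : ℝ) * (1 / Z)) (by positivity)).2
    rw [hg]
    simp only
    rw [norm_mul, norm_mul, Complex.norm_real, Real.norm_eq_abs]
    calc ‖mu (n + 1)‖ * ‖T' (n + 1)‖ * |VL (((n + 1 : ℕ) : ℝ) * (1 / Z))|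
        ≤ 1 * 2 * (3 / (((n + 1 : ℕ) : ℝ) * (1 / Z)) ^ 3) := by
          gcongr
          · exact norm_mu_le _
          · exact hT'2 _
      _ = _ := by
          push_cast
          field_simp
          ring
  have hsum : Summable g := Summable.of_norm_bounded (cube_summable0.mul_left _) hbound
  have hsplit := hsum.sum_add_tsum_nat_add Y
  have hzero : ∑ n ∈ range Y, g n = 0 := by
    refine Finset.sum_eq_zero fun n hn => ?_
    rw [Finset.mem_range] at hn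
    rw [hg, hT']
    simp only
    rw [if_pos (by omega : n + 1 ≤ Y), mul_zero, zero_mul]
  rw [hzero, zero_add] at hsplit
  have htail : ‖∑' n : ℕ, g (n + Y)‖ ≤ 6 * Z ^ 3 / (Y : ℝ) ^ 2 := by
    have h1 : ∀ n : ℕ, ‖g (n + Y)‖ ≤ 6 * Z ^ 3 * (1 / ((n : ℝ) + Y + 1) ^ 3) := by
      intro n
      have := hbound (n + Y)
      push_cast at this
      exact this
    have h2 : ‖∑' n : ℕ, g (n + Y)‖ ≤ ∑' n : ℕ, 6 * Z ^ 3 * (1 / ((n : ℝ) + Y + 1) ^ 3) :=
      tsum_of_norm_bounded ((cube_summable Y hY).mul_left _).hasSum h1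
    refine h2.trans ?_
    rw [tsum_mul_left]
    have h3 := cube_tsum Y hY
    calc 6 * Z ^ 3 * ∑' n : ℕ, 1 / ((n : ℝ) + Y + 1) ^ 3 ≤ 6 * Z ^ 3 * (1 / (Y : ℝ) ^ 2) := by
          gcongr
      _ = _ := by ring
  rw [hsplit] at htail
  have h4 := norm_add_le (∑' n : ℕ, mu (n + 1) * T (n + 1) * ((VL ((n + 1 : ℕ) * (1 / Z)) : ℝ) : ℂ) - ∑' n : ℕ, g n)
    (∑' n : ℕ, g n)
  rw [sub_add_cancel] at h4
  linarith

/-- the numerical end of the argument -/
theorem combine (p : ℕ) (C lam U : ℝ) (SR SR' SL SS : ℂ) (X' : ℝ) (N M : ℕ) (hp : p.Prime) (hN2 : 1 ≤ N)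
    (hlam0 : 0 ≤ lam) (hU : U = Real.log (10 * N) + lam)
    (hmain : ‖((Real.exp (U / 2) : ℂ) * SR - (Real.exp (-U / 2) : ℂ) * SL) -
      PP p * ((Real.exp ((U + sg p) / 2) : ℂ) * SR' -
        (Real.sqrt p : ℂ) * ((Real.exp (-(U + sg p) / 2) : ℂ) * SS))‖ ≤ 5 * (C * Real.exp (-lam / 2) * Kth))
    (hlow : (M : ℝ) / 5 - 2 ≤ ‖SL‖) (hSS : ‖SS‖ ≤ 2) (hXU : 1 ≤ Real.exp (lam + U))
    (hright : ‖SR‖ ≤ 360 / Real.exp (lam + U) ^ 3) (hXU' : 1 ≤ X') (hright' : ‖SR'‖ ≤ 360 / X' ^ 3)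
    (hX' : Real.exp U ≤ X') (hcard : (N : ℝ) / (5 * p) ≤ M)
    (hN1 : (5 * C * Kth + 725) * Real.sqrt (10 * N) + 1 < N / (25 * p)) : False := by
  have hN' : (1 : ℝ) ≤ N := by exact_mod_cast hN2
  have hZ : (0 : ℝ) < 10 * N := by linarith
  have hpR : (1 : ℝ) ≤ p := by exact_mod_cast hp.one_lt.le
  have hp0 : (0 : ℝ) < p := by linarith
  have hsp : 0 < Real.sqrt p := Real.sqrt_pos.mpr hp0
  -- norms of the four parts
  have n1 : ‖(Real.exp (U / 2) : ℂ) * SR‖ = Real.exp (U / 2) * ‖SR‖ := by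
    rw [norm_mul, Complex.norm_real, Real.norm_of_nonneg (Real.exp_pos _).le]
  have n2 : ‖(Real.exp (-U / 2) : ℂ) * SL‖ = Real.exp (-U / 2) * ‖SL‖ := by
    rw [norm_mul, Complex.norm_real, Real.norm_of_nonneg (Real.exp_pos _).le]
  have hPP : ‖PP p‖ = Real.exp (-(sg p) / 2) := by
    unfold PP sg
    rw [Complex.norm_real, Real.norm_of_nonneg (Real.exp_pos _).le]
    congr 1
    ring
  have n3 : ‖PP p * ((Real.exp ((U + sg p) / 2) : ℂ) * SR')‖ = Real.exp (U / 2) * ‖SR'‖ := by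
    rw [norm_mul, norm_mul, Complex.norm_real, Real.norm_of_nonneg (Real.exp_pos _).le, hPP, ← mul_assoc,
      ← Real.exp_add]
    congr 2
    ring
  have n4 : ‖PP p * ((Real.sqrt p : ℂ) * ((Real.exp (-(U + sg p) / 2) : ℂ) * SS))‖ ≤ Real.exp (-U / 2) * ‖SS‖ := by
    rw [norm_mul, norm_mul, norm_mul, Complex.norm_real, Complex.norm_real, Real.norm_of_nonneg hsp.le,
      Real.norm_of_nonneg (Real.exp_pos _).le, hPP]
    have e1 : Real.exp (-(sg p) / 2) * (Real.sqrt p * (Real.exp (-(U + sg p) / 2) * ‖SS‖)) =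
        (Real.sqrt p * Real.exp (-(sg p))) * (Real.exp (-U / 2) * ‖SS‖) := by
      have e2 : Real.exp (-(U + sg p) / 2) = Real.exp (-U / 2) * Real.exp (-(sg p) / 2) := by
        rw [← Real.exp_add]; congr 1; ring
      have e3 : Real.exp (-(sg p)) = Real.exp (-(sg p) / 2) * Real.exp (-(sg p) / 2) := by
        rw [← Real.exp_add]; congr 1; ring
      rw [e2, e3]; ring
    rw [e1]
    have e4 : Real.sqrt p * Real.exp (-(sg p)) ≤ 1 := by
      have e5 : Real.sqrt p = Real.exp (1 / 2 * Real.log p) := by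
        rw [Real.sqrt_eq_rpow, Real.rpow_def_of_pos hp0]
        congr 1
        ring
      rw [e5, ← Real.exp_add, Real.exp_le_one_iff]
      unfold sg
      have := Real.log_nonneg hpR
      linarith
    calc _ ≤ 1 * (Real.exp (-U / 2) * ‖SS‖) := mul_le_mul_of_nonneg_right e4 (by positivity)
      _ = _ := one_mul _
  have h1 : Real.exp (-U / 2) * ‖SL‖ ≤ 5 * (C * Real.exp (-lam / 2) * Kth) + Real.exp (U / 2) * ‖SR‖ +
      Real.exp (U / 2) * ‖SR'‖ + Real.exp (-U / 2) * ‖SS‖ := by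
    have e1 : (Real.exp (-U / 2) : ℂ) * SL = (Real.exp (U / 2) : ℂ) * SR -
        PP p * ((Real.exp ((U + sg p) / 2) : ℂ) * SR') +
        PP p * ((Real.sqrt p : ℂ) * ((Real.exp (-(U + sg p) / 2) : ℂ) * SS)) -
        (((Real.exp (U / 2) : ℂ) * SR - (Real.exp (-U / 2) : ℂ) * SL) -
      PP p * ((Real.exp ((U + sg p) / 2) : ℂ) * SR' -
        (Real.sqrt p : ℂ) * ((Real.exp (-(U + sg p) / 2) : ℂ) * SS))) := by ring
    rw [← n2, e1]
    refine (norm_sub_le _ _).trans ?_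
    have e2 := norm_add_le ((Real.exp (U / 2) : ℂ) * SR - PP p * ((Real.exp ((U + sg p) / 2) : ℂ) * SR'))
      (PP p * ((Real.sqrt p : ℂ) * ((Real.exp (-(U + sg p) / 2) : ℂ) * SS)))
    have e3 := norm_sub_le ((Real.exp (U / 2) : ℂ) * SR) (PP p * ((Real.exp ((U + sg p) / 2) : ℂ) * SR'))
    rw [n1, n3] at e3
    linarith
  have hE : 0 < Real.exp (U / 2) := Real.exp_pos _
  have h2 : ‖SL‖ ≤ Real.exp (U / 2) * (5 * (C * Real.exp (-lam / 2) * Kth)) + Real.exp U * ‖SR‖ +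
      Real.exp U * ‖SR'‖ + ‖SS‖ := by
    have e1 : Real.exp (U / 2) * Real.exp (-U / 2) = 1 := by
      rw [← Real.exp_add, show U / 2 + -U / 2 = 0 by ring, Real.exp_zero]
    have e2 : Real.exp (U / 2) * Real.exp (U / 2) = Real.exp U := by
      rw [← Real.exp_add, show U / 2 + U / 2 = U by ring]
    have e3 := mul_le_mul_of_nonneg_left h1 hE.le
    calc ‖SL‖ = (Real.exp (U / 2) * Real.exp (-U / 2)) * ‖SL‖ := by rw [e1, one_mul]
      _ = Real.exp (U / 2) * (Real.exp (-U / 2) * ‖SL‖) := by ring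
      _ ≤ Real.exp (U / 2) * (5 * (C * Real.exp (-lam / 2) * Kth) + Real.exp (U / 2) * ‖SR‖ +
            Real.exp (U / 2) * ‖SR'‖ + Real.exp (-U / 2) * ‖SS‖) := e3
      _ = Real.exp (U / 2) * (5 * (C * Real.exp (-lam / 2) * Kth)) +
            (Real.exp (U / 2) * Real.exp (U / 2)) * ‖SR‖ +
            (Real.exp (U / 2) * Real.exp (U / 2)) * ‖SR'‖ + (Real.exp (U / 2) * Real.exp (-U / 2)) * ‖SS‖ := by ring
      _ = _ := by rw [e1, e2, one_mul]
  have h3 : Real.exp (U / 2) * (5 * (C * Real.exp (-lam / 2) * Kth)) = 5 * C * Kth * Real.sqrt (10 * N) := by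
    have e1 : Real.exp (U / 2) = Real.sqrt (10 * N) * Real.exp (lam / 2) := by
      rw [hU, add_div, Real.exp_add]
      congr 1
      rw [Real.sqrt_eq_rpow, Real.rpow_def_of_pos hZ]
      congr 1
      ring
    have e2 : Real.exp (lam / 2) * Real.exp (-lam / 2) = 1 := by
      rw [← Real.exp_add, show lam / 2 + -lam / 2 = 0 by ring, Real.exp_zero]
    rw [e1]
    calc Real.sqrt (10 * N) * Real.exp (lam / 2) * (5 * (C * Real.exp (-lam / 2) * Kth))
        = (Real.exp (lam / 2) * Real.exp (-lam / 2)) * (5 * C * Kth * Real.sqrt (10 * N)) := by ring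
      _ = _ := by rw [e2, one_mul]
  have hpow : ∀ X : ℝ, 1 ≤ X → X ≤ X ^ 3 := fun X hX => by
    nlinarith [sq_nonneg X, mul_self_nonneg (X - 1)]
  have h4 : Real.exp U * ‖SR‖ ≤ 360 := by
    have e0 : Real.exp U ≤ Real.exp (lam + U) := Real.exp_le_exp.mpr (by linarith)
    have hpos : 0 < Real.exp (lam + U) := Real.exp_pos _
    calc Real.exp U * ‖SR‖ ≤ Real.exp (lam + U) ^ 3 * (360 / Real.exp (lam + U) ^ 3) :=
          mul_le_mul (e0.trans (hpow _ hXU)) hright (norm_nonneg _) (by positivity)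
      _ = 360 := by field_simp
  have h4' : Real.exp U * ‖SR'‖ ≤ 360 := by
    have hpos : 0 < X' := by linarith
    calc Real.exp U * ‖SR'‖ ≤ X' ^ 3 * (360 / X' ^ 3) :=
          mul_le_mul (hX'.trans (hpow _ hXU')) hright' (norm_nonneg _) (by positivity)
      _ = 360 := by field_simp
  have hfin : (M : ℝ) / 5 - 2 ≤ 5 * C * Kth * Real.sqrt (10 * N) + 722 := by
    linarith
  have h5 : (1 : ℝ) ≤ Real.sqrt (10 * N) := by
    rw [Real.one_le_sqrt]; linarith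
  have h7 : (N : ℝ) / (25 * p) = (N / (5 * p)) / 5 := by
    rw [div_div]
    congr 1
    ring
  nlinarith

theorem mainF (p : ℕ) [Fact p.Prime] (hp2 : p ≠ 2) (C x₀ δ : ℝ) (hC : 0 ≤ C) (hδ : 0 < δ)
    (hδ2 : δ ≤ 1 / 2) :
    ∃ κ : ℝ, 0 < κ ∧ ∃ l₀ : ℕ, 2 ≤ l₀ ∧ ∀ l : ℕ, l₀ ≤ l →
      GoodE (p ^ (2 * l)) → GoodE (p ^ (2 * l - 1)) →
      ∀ E : Finset (ZMod (p ^ (2 * l)))ˣ, (E.card : ℝ) ≤ κ * (p : ℝ) ^ (2 * l) →
      ∃ b : (ZMod (p ^ (2 * l)))ˣ, b ∉ E ∧ Near δ (yb (p ^ (2 * l)) x₀ b) ∧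
        ¬ ∃ v₀ : ℝ, ∀ v, v₀ ≤ v → ‖Mx (cF p l (b ^ 2)) v‖ ≤ C * Real.sqrt v := by
  classical
  have hp : p.Prime := Fact.out
  have hpR : (1 : ℝ) ≤ p := by exact_mod_cast hp.one_lt.le
  obtain ⟨N₀, hN₀⟩ := sf2 p hp
  obtain ⟨N, hN1, hN2, hN3⟩ := ((Two.big_N2 (5 * C * Kth + 725) p hp.one_lt.le).and
    ((eventually_ge_atTop 1).and (eventually_ge_atTop N₀))).exists
  set Sn : Finset ℕ := (Icc (2 * N) (3 * N)).filter (fun m => Squarefree m ∧ m % p = 1) with hSn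
  have hcard : (N : ℝ) / (5 * p) ≤ Sn.card := by
    have := hN₀ N hN3
    rw [hSn]
    convert this
  have hN' : (1 : ℝ) ≤ N := by exact_mod_cast hN2
  have hNN : N ≤ N ^ 2 := by nlinarith
  have hp4 : 1 ≤ p ^ 4 := Nat.one_le_pow _ _ hp.pos
  set Y : ℕ := 100 * N ^ 2 * p ^ 4 with hY
  have hYge : 100 * N ^ 2 ≤ Y := by
    rw [hY]
    exact Nat.le_mul_of_pos_right _ hp4
  set S : Finset ℤ := Sn.image (fun m : ℕ => (m : ℤ)) with hS
  have hSmem : ∀ m : ℕ, ((m : ℤ) ∈ S ↔ m ∈ Sn) := by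
    intro m
    rw [hS, Finset.mem_image]
    constructor
    · rintro ⟨k, hk, hk'⟩
      have : k = m := by exact_mod_cast hk'
      rwa [← this]
    · intro h
      exact ⟨m, h, rfl⟩
  have hSneg : ∀ m : ℕ, 1 ≤ m → -(m : ℤ) ∉ S := by
    intro m hm h
    rw [hS, Finset.mem_image] at h
    obtain ⟨k, -, hk⟩ := h
    omega
  have hSsub : S ⊆ Gs Y p := by
    intro g hg
    rw [hS, Finset.mem_image] at hg
    obtain ⟨m, hm, rfl⟩ := hg
    rw [hSn, Finset.mem_filter, Finset.mem_Icc] at hm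
    obtain ⟨⟨h1, h2⟩, h3, h4⟩ := hm
    rw [Two.mem_Gs]
    refine ⟨⟨by omega, ?_⟩, ?_, ?_, ?_⟩
    · have : m ≤ Y := by omega
      exact_mod_cast this
    · exact Int.squarefree_natCast.mpr h3
    · intro hd
      have hd' : p ∣ m := by exact_mod_cast hd
      have := Nat.mod_eq_zero_of_dvd hd'
      omega
    · have h5 : ((m : ℤ) : ZMod p) = 1 := by
        have h6 : ((m : ℕ) : ZMod p) = ((1 : ℕ) : ZMod p) := by
          rw [ZMod.natCast_eq_natCast_iff, Nat.ModEq, h4, Nat.mod_eq_of_lt hp.one_lt]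
        push_cast
        push_cast at h6
        exact h6
      rw [h5]
      exact IsSquare.one
  set ε : ℝ := 1 / (12000 * (N : ℝ) ^ 3 * (p : ℝ) ^ 6) with hε
  have hp6 : (1 : ℝ) ≤ (p : ℝ) ^ 6 := one_le_pow₀ hpR
  have hε0 : 0 < ε := by positivity
  obtain ⟨κ, hκ, l₀, hl₀, hall⟩ := weightsO Y p hp2 S hSsub x₀ δ ε hδ hδ2 hε0
  refine ⟨κ, hκ, l₀, hl₀, fun l hl' h h1Q E hE => ?_⟩
  have hl2 : 2 ≤ l := hl₀.trans hl'
  have hl : 1 ≤ l := by omega
  obtain ⟨r, hr, hallE⟩ := hall l hl'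
  obtain ⟨w, hw0, hw1, hwE, hw, hwK⟩ := hallE E hE
  by_contra hcon
  push Not at hcon
  have hloc : ∀ b, w b ≠ 0 → ∃ v₀ : ℝ, ∀ v, v₀ ≤ v → ‖Mx (cF p l (b ^ 2)) v‖ ≤ C * Real.sqrt v :=
    fun b hb => hcon b (hwE b hb).1 (hwE b hb).2
  set TR : ℕ → ℂ := fun n => ∑ b, (w b : ℂ) *
      cR (p ^ (2 * l)) ((b ^ 2 : (ZMod (p ^ (2 * l)))ˣ) : ZMod (p ^ (2 * l))) n with hTR
  set TL : ℕ → ℂ := fun n => ∑ b, (w b : ℂ) *
      cL (p ^ (2 * l)) ((b ^ 2 : (ZMod (p ^ (2 * l)))ˣ) : ZMod (p ^ (2 * l))) n with hTL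
  set TR' : ℕ → ℂ := fun n => ∑ b, (w b : ℂ) * cR' p l (b ^ 2) n with hTR'
  set TL' : ℕ → ℂ := fun n => ∑ b, ((w b / Real.sqrt p : ℝ) : ℂ) * cL' p l (b ^ 2) n with hTL'
  set lam : ℝ := lm p l with hlam
  have hlam0 : 0 ≤ lam := by
    rw [hlam]
    unfold lm
    refine div_nonneg (Real.log_nonneg ?_) (by norm_num)
    rw [le_div_iff₀ Real.pi_pos, one_mul]
    have h1 : 3 ≤ p := by
      have := hp.two_le
      omega
    have h2 : 3 ^ 2 ≤ p ^ (2 * l) := (Nat.pow_le_pow_left h1 2).trans (Nat.pow_le_pow_right hp.pos (by omega))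
    have h3 : ((3 ^ 2 : ℕ) : ℝ) ≤ ((p ^ (2 * l) : ℕ) : ℝ) := by exact_mod_cast h2
    have := Real.pi_lt_four
    norm_num at h3 ⊢
    linarith
  set U : ℝ := Real.log (10 * N) + lam with hU
  have hZ : (0 : ℝ) < 10 * N := by linarith
  have hlogZ : 0 ≤ Real.log (10 * N) := Real.log_nonneg (by linarith)
  obtain ⟨hmain, hTR2, hTL2, hTR2', hTL2'⟩ := seriesF p l hp2 hl2 h h1Q
    w hw0 hw1 hloc TR TL TR' TL' hTR hTL hTR' hTL' U
  have he1 : Real.exp (lam - U) = 1 / (10 * N) := by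
    rw [hU, show lam - (Real.log (10 * N) + lam) = -Real.log (10 * N) by ring, Real.exp_neg, Real.exp_log hZ,
      one_div]
  have hp0R' : (0 : ℝ) < p := by linarith
  have hlogp : 0 ≤ Real.log p := Real.log_nonneg hpR
  have he2 : Real.exp (lm' p l - (U + sg p)) = 1 / (10 * N * (p : ℝ) ^ 2) := by
    rw [lm'_eq p l hl]
    unfold sg
    have e : lm p l - Real.log p / 2 - (U + 3 / 2 * Real.log p) = (lam - U) - (Real.log p + Real.log p) := by
      rw [hlam]; ring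
    rw [e, Real.exp_sub, he1, Real.exp_add, Real.exp_log hp0R']
    rw [div_div, sq]
  rw [he1, he2] at hmain
  -- averages of Kloosterman sums
  have hp0 : (p : ℂ) ^ l ≠ 0 := pow_ne_zero _ (Nat.cast_ne_zero.mpr hp.ne_zero)
  have hpn : ‖2 * (p : ℂ) ^ l‖ = 2 * (p : ℝ) ^ l := by
    rw [norm_mul, norm_pow, Complex.norm_natCast, Complex.norm_ofNat]
  have hp0R : (0 : ℝ) < 2 * (p : ℝ) ^ l := by
    have : (0 : ℝ) < p := by linarith
    positivity
  have havg : ∀ (g : ℤ) (g' : (ZMod (p ^ (2 * l)))ˣ), (g' : ZMod (p ^ (2 * l))) = (g : ZMod (p ^ (2 * l))) →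
      Squarefree g → ¬ (p : ℤ) ∣ g → -((Y : ℕ) : ℤ) ≤ g → g ≤ ((Y : ℕ) : ℤ) →
      ‖(∑ b, (w b : ℂ) * Kl (p ^ (2 * l)) ((b ^ 2 * g'⁻¹ : (ZMod (p ^ (2 * l)))ˣ) : ZMod (p ^ (2 * l)))) /
        (2 * (p : ℂ) ^ l) - ((tg S g : ℝ) : ℂ)‖ ≤ ε := by
    intro g g' hg' hg1 hg2 hg3 hg4
    by_cases hsq : IsSquare (g : ZMod p)
    · have hgG : g ∈ Gs Y p := by
        rw [Two.mem_Gs]
        exact ⟨⟨hg3, hg4⟩, hg1, hg2, hsq⟩
      have h1 : ∀ b : (ZMod (p ^ (2 * l)))ˣ,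
          Kl (p ^ (2 * l)) ((b ^ 2 * g'⁻¹ : (ZMod (p ^ (2 * l)))ˣ) : ZMod (p ^ (2 * l))) =
          2 * (p : ℂ) ^ l * ((ee (p ^ (2 * l)) (2 * b * r g)).re : ℂ) := fun b =>
        Two.Kl_div kl2 hp hp2 hl b (r g) g' (by rw [hg']; exact hr g hgG)
      simp only [h1]
      have h2 := hw g hgG
      have h3 : (∑ b, (w b : ℂ) * (2 * (p : ℂ) ^ l * ((ee (p ^ (2 * l)) (2 * b * r g)).re : ℂ))) /
          (2 * (p : ℂ) ^ l) - ((tg S g : ℝ) : ℂ) =
          ((∑ b, w b * (ee (p ^ (2 * l)) (2 * (b : ZMod (p ^ (2 * l))) * r g)).re - tg S g : ℝ) : ℂ) := by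
        push_cast
        rw [Finset.sum_div]
        congr 1
        refine Finset.sum_congr rfl fun b _ => ?_
        field_simp
      rw [h3, Complex.norm_real]
      exact h2
    · have hgS : g ∉ S := by
        intro hgS
        exact hsq (Two.mem_Gs.mp (hSsub hgS)).2.2.2
      have h1 : ∑ b, (w b : ℂ) * Kl (p ^ (2 * l)) ((b ^ 2 * g'⁻¹ : (ZMod (p ^ (2 * l)))ˣ) : ZMod (p ^ (2 * l))) =
          0 := by
        refine Finset.sum_eq_zero fun b _ => ?_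
        rw [(kl2 p l hp hp2 hl).2.1 _ (Two.not_square hl g g' b hg' hsq), mul_zero]
      have h2 : tg S g = 0 := by
        unfold tg
        rw [if_neg hgS]
      rw [h1, h2]
      simpa using hε0.le
  -- small coefficients
  set TT : ℕ → ℂ := fun m => if m ≤ 100 * N ^ 2 then
    (if m ∈ Sn then ((ArithmeticFunction.moebius m : ℤ) : ℂ) / 2 else 0) else TL m with hTT
  have hmu1 : ∀ m : ℕ, ‖((ArithmeticFunction.moebius m : ℤ) : ℂ)‖ ≤ 1 := fun m => norm_mu_le m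
  have hTT2 : ∀ n, ‖TT n‖ ≤ 2 := by
    intro n
    rw [hTT]
    simp only
    split_ifs
    · rw [norm_div, Complex.norm_ofNat]
      have := hmu1 n
      linarith
    · rw [norm_zero]; norm_num
    · exact hTL2 n
  have hsmall : ∀ m : ℕ, 1 ≤ m → m ≤ 100 * N ^ 2 → mu m * TT m = if m ∈ Sn then (1 / 2 : ℂ) else 0 := by
    intro m hm1 hm2
    rw [hTT]
    simp only
    rw [if_pos hm2]
    by_cases hmS : m ∈ Sn
    · rw [if_pos hmS, if_pos hmS]
      have hsqf : Squarefree m := (Finset.mem_filter.mp hmS).2.1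
      unfold mu
      have h3 : (ArithmeticFunction.moebius m : ℤ) ^ 2 = 1 :=
        ArithmeticFunction.moebius_sq_eq_one_of_squarefree hsqf
      have h4 : ((ArithmeticFunction.moebius m : ℤ) : ℂ) * ((ArithmeticFunction.moebius m : ℤ) : ℂ) = 1 := by
        rw [← sq]; exact_mod_cast h3
      rw [← mul_div_assoc, h4]
    · rw [if_neg hmS, if_neg hmS, mul_zero]
  have hclose : ∀ m : ℕ, 1 ≤ m → ‖mu m * TL m - mu m * TT m‖ ≤ 2 * ε := by
    intro m hm1
    rw [hTT]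
    simp only
    by_cases hm2 : m ≤ 100 * N ^ 2
    swap
    · rw [if_neg hm2, sub_self, norm_zero]; positivity
    rw [if_pos hm2]
    by_cases hsqf : Squarefree m
    swap
    · have h1 : mu m = 0 := by
        unfold mu
        rw [ArithmeticFunction.moebius_eq_zero_of_not_squarefree hsqf]
        simp
      rw [h1, zero_mul, zero_mul, sub_self, norm_zero]
      positivity
    rw [← mul_sub, norm_mul]
    have hmm : ‖mu m‖ ≤ 1 := norm_mu_le m
    suffices hs : ‖TL m - (if m ∈ Sn then ((ArithmeticFunction.moebius m : ℤ) : ℂ) / 2 else 0)‖ ≤ 2 * ε by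
      calc _ ≤ 1 * (2 * ε) := mul_le_mul hmm hs (norm_nonneg _) (by norm_num)
        _ = _ := one_mul _
    by_cases hpm : p ∣ m
    · have h1 : m ∉ Sn := by
        intro hm
        rw [hSn, Finset.mem_filter] at hm
        have := Nat.mod_eq_zero_of_dvd hpm
        omega
      have h2 : TL m = 0 := by
        rw [hTL]
        refine Finset.sum_eq_zero fun b _ => ?_
        have h3 := Pool.Agent.Y821.ME.not_isUnit_nat (l := l) hp hl m hpm
        have h4 : cL (p ^ (2 * l)) ((b ^ 2 : (ZMod (p ^ (2 * l)))ˣ) : ZMod (p ^ (2 * l))) m = 0 := by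
          unfold cL
          refine Finset.sum_eq_zero fun χ _ => ?_
          rw [MulChar.map_nonunit _ h3, mul_zero]
        rw [h4, mul_zero]
      rw [h2, if_neg h1, sub_zero, norm_zero]
      positivity
    · obtain ⟨m', hm'⟩ := Pool.Agent.Y821.ME.isUnit_nat (l := l) hp m hpm
      have hpZ : ¬ (p : ℤ) ∣ (m : ℤ) := fun hd => hpm (by exact_mod_cast hd)
      have hsqZ : Squarefree (m : ℤ) := Int.squarefree_natCast.mpr hsqf
      have hmle : (m : ℤ) ≤ ((Y : ℕ) : ℤ) := by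
        have : m ≤ Y := hm2.trans hYge
        exact_mod_cast this
      have e1 := havg (m : ℤ) m' (by rw [hm']; push_cast; rfl) hsqZ hpZ (by omega) hmle
      have e2 := havg (-(m : ℤ)) (-m') (by rw [Units.val_neg, hm']; push_cast; rfl)
        (by
          have := hsqZ
          rwa [← Int.squarefree_natAbs, Int.natAbs_neg, Int.squarefree_natAbs]) (by
          rwa [Int.dvd_neg]) (by omega) (by omega)
      have h2 : TL m = (∑ b, (w b : ℂ) * Kl (p ^ (2 * l))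
            ((b ^ 2 * m'⁻¹ : (ZMod (p ^ (2 * l)))ˣ) : ZMod (p ^ (2 * l)))) / (2 * (p : ℂ) ^ l) +
          (∑ b, (w b : ℂ) * Kl (p ^ (2 * l)) ((b ^ 2 * (-m')⁻¹ : (ZMod (p ^ (2 * l)))ˣ) :
              ZMod (p ^ (2 * l)))) / (2 * (p : ℂ) ^ l) := by
        rw [← add_div, ← Finset.sum_add_distrib, Finset.sum_div]
        rw [hTL]
        refine Finset.sum_congr rfl fun b _ => ?_
        have h3 := Pool.Agent.Y821.ME.cL_eq ch hp hp2 hl (b ^ 2) m' m hm'
        rw [h3]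
        have h4 : -((b ^ 2 * m'⁻¹ : (ZMod (p ^ (2 * l)))ˣ) : ZMod (p ^ (2 * l))) =
            ((b ^ 2 * (-m')⁻¹ : (ZMod (p ^ (2 * l)))ˣ) : ZMod (p ^ (2 * l))) := by
          rw [← Units.val_neg]
          congr 1
          rw [inv_neg, mul_neg]
        rw [h4]
        ring
      have h5 : (if m ∈ Sn then ((ArithmeticFunction.moebius m : ℤ) : ℂ) / 2 else 0) =
          ((tg S (m : ℤ) : ℝ) : ℂ) + ((tg S (-(m : ℤ)) : ℝ) : ℂ) := by
        have h6 : ((m : ℤ) ∈ S) = (m ∈ Sn) := propext (hSmem m)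
        unfold tg
        rw [if_neg (hSneg m hm1)]
        simp only [h6, Int.natAbs_natCast]
        split_ifs <;> push_cast <;> ring
      rw [h2, h5, add_sub_add_comm]
      refine (norm_add_le _ _).trans ?_
      linarith
  have hlow := left_lower vb N hN2 Sn (fun m hm => by
    rw [hSn, Finset.mem_filter, Finset.mem_Icc] at hm
    exact hm.1) TT hTT2 hsmall
  have hdiff := series_diff vb (10 * N) (2 * ε) hZ TL TT hTL2 hTT2 hclose
  have hdiff1 : 6 * (2 * ε) * (10 * (N : ℝ)) ^ 3 ≤ 1 := by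
    rw [hε]
    have : (0 : ℝ) < (N : ℝ) ^ 3 := by positivity
    have e : 6 * (2 * (1 / (12000 * (N : ℝ) ^ 3 * (p : ℝ) ^ 6))) * (10 * (N : ℝ)) ^ 3 = 1 / (p : ℝ) ^ 6 := by
      field_simp
      norm_num
    rw [e, div_le_one (by positivity)]
    exact hp6
  -- the small series
  have hsmall' : ∀ m : ℕ, 1 ≤ m → m ≤ Y → ‖mu m * TL' m‖ ≤ ε := by
    intro m hm1 hm2
    by_cases hsqf : Squarefree m
    swap
    · have h1 : mu m = 0 := by
        unfold mu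
        rw [ArithmeticFunction.moebius_eq_zero_of_not_squarefree hsqf]
        simp
      rw [h1, zero_mul, norm_zero]
      exact hε0.le
    rw [norm_mul]
    have hmm : ‖mu m‖ ≤ 1 := norm_mu_le m
    suffices hs : ‖TL' m‖ ≤ ε by
      calc _ ≤ 1 * ε := mul_le_mul hmm hs (norm_nonneg _) (by norm_num)
        _ = _ := one_mul _
    have hsp : 0 < Real.sqrt p := Real.sqrt_pos.mpr hp0R'
    have hsqp : (0 : ℝ) < Real.sqrt ((p : ℝ) ^ (2 * l - 1)) := Real.sqrt_pos.mpr (by positivity)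
    by_cases hpm : p ∣ m
    · have h2 : TL' m = 0 := by
        rw [hTL']
        refine Finset.sum_eq_zero fun b _ => ?_
        have h4 : cL' p l (b ^ 2) m = 0 := by
          unfold cL'
          exact cL_zero hp (by omega) _ m hpm
        rw [h4, mul_zero]
      rw [h2, norm_zero]
      exact hε0.le
    · obtain ⟨m', hm'⟩ := isUnit_nat (k := 2 * l - 1) hp m hpm
      have hpZ : ¬ (p : ℤ) ∣ (m : ℤ) := fun hd => hpm (by exact_mod_cast hd)
      have hsqZ : Squarefree (m : ℤ) := Int.squarefree_natCast.mpr hsqf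
      have hmle : (m : ℤ) ≤ ((Y : ℕ) : ℤ) := by exact_mod_cast hm2
      have e1 := hwK (m : ℤ) m' (by rw [hm']; push_cast; rfl) hsqZ hpZ (by omega) hmle
      have e2 := hwK (-(m : ℤ)) (-m') (by rw [Units.val_neg, hm']; push_cast; rfl)
        (by
          have := hsqZ
          rwa [← Int.squarefree_natAbs, Int.natAbs_neg, Int.squarefree_natAbs]) (by
          rwa [Int.dvd_neg]) (by omega) (by omega)
      have h2 : TL' m = ((∑ b, (w b : ℂ) * Kl (p ^ (2 * l - 1)) ((rd p l (b : ZMod (p ^ (2 * l)))) ^ 2 *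
          ((m'⁻¹ : (ZMod (p ^ (2 * l - 1)))ˣ) : ZMod (p ^ (2 * l - 1))))) +
          (∑ b, (w b : ℂ) * Kl (p ^ (2 * l - 1)) ((rd p l (b : ZMod (p ^ (2 * l)))) ^ 2 *
          (((-m')⁻¹ : (ZMod (p ^ (2 * l - 1)))ˣ) : ZMod (p ^ (2 * l - 1)))))) /
          ((Real.sqrt p * (2 * Real.sqrt ((p : ℝ) ^ (2 * l - 1))) : ℝ) : ℂ) := by
        rw [← Finset.sum_add_distrib, Finset.sum_div]
        rw [hTL']
        refine Finset.sum_congr rfl fun b _ => ?_
        unfold cL'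
        rw [cL_eq hp (by omega) (ru p l (b ^ 2)) m' m hm']
        have e0 : ((ru p l (b ^ 2) * m'⁻¹ : (ZMod (p ^ (2 * l - 1)))ˣ) : ZMod (p ^ (2 * l - 1))) =
            (rd p l (b : ZMod (p ^ (2 * l)))) ^ 2 *
              ((m'⁻¹ : (ZMod (p ^ (2 * l - 1)))ˣ) : ZMod (p ^ (2 * l - 1))) := by
          rw [Units.val_mul, ru_val, Units.val_pow_eq_pow_val, map_pow]
        have e00 : -((rd p l (b : ZMod (p ^ (2 * l)))) ^ 2 *
              ((m'⁻¹ : (ZMod (p ^ (2 * l - 1)))ˣ) : ZMod (p ^ (2 * l - 1)))) =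
            (rd p l (b : ZMod (p ^ (2 * l)))) ^ 2 *
              (((-m')⁻¹ : (ZMod (p ^ (2 * l - 1)))ˣ) : ZMod (p ^ (2 * l - 1))) := by
          rw [inv_neg, Units.val_neg, mul_neg]
        rw [e0, e00]
        push_cast
        have hc1 : ((Real.sqrt p : ℝ) : ℂ) ≠ 0 := by exact_mod_cast hsp.ne'
        have hc2 : ((Real.sqrt ((p : ℝ) ^ (2 * l - 1)) : ℝ) : ℂ) ≠ 0 := by exact_mod_cast hsqp.ne'
        field_simp
      rw [h2, norm_div, Complex.norm_real, Real.norm_of_nonneg (by positivity), div_le_iff₀ (by positivity)]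
      have h4 : Real.sqrt p * Real.sqrt ((p : ℝ) ^ (2 * l - 1)) = (p : ℝ) ^ l := by
        rw [← Real.sqrt_mul hp0R'.le, ← pow_succ']
        have : (p : ℝ) ^ (2 * l - 1 + 1) = ((p : ℝ) ^ l) ^ 2 := by
          rw [← pow_mul]
          congr 1
          omega
        rw [this, Real.sqrt_sq (by positivity)]
      refine (norm_add_le _ _).trans ?_
      have h5 : ε * (Real.sqrt p * (2 * Real.sqrt ((p : ℝ) ^ (2 * l - 1)))) = 2 * (ε * (p : ℝ) ^ l) := by
        rw [← h4]; ring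
      rw [h5]
      linarith
  have hZ' : (0 : ℝ) < 10 * N * (p : ℝ) ^ 2 := by positivity
  have hY1 : 1 ≤ Y := by
    have : 1 ≤ N ^ 2 := Nat.one_le_pow _ _ hN2
    omega
  have hSLs := small_series (10 * N * (p : ℝ) ^ 2) ε hZ' hε0.le Y hY1 TL' hTL2' hsmall'
  have hSLs1 : 6 * ε * (10 * N * (p : ℝ) ^ 2) ^ 3 + 6 * (10 * N * (p : ℝ) ^ 2) ^ 3 / (Y : ℝ) ^ 2 ≤ 2 := by
    have e1 : 6 * ε * (10 * N * (p : ℝ) ^ 2) ^ 3 = 1 / 2 := by
      rw [hε]
      have : (0 : ℝ) < (N : ℝ) ^ 3 := by positivity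
      field_simp
      norm_num
    have e2 : 6 * (10 * N * (p : ℝ) ^ 2) ^ 3 / (Y : ℝ) ^ 2 = 6 / (10 * N * (p : ℝ) ^ 2) := by
      have hYR : (Y : ℝ) = (10 * N * (p : ℝ) ^ 2) ^ 2 := by
        rw [hY]; push_cast; ring
      rw [hYR]
      field_simp
    have e3 : 6 / (10 * N * (p : ℝ) ^ 2) ≤ 1 := by
      rw [div_le_one hZ']
      have : (1 : ℝ) ≤ (p : ℝ) ^ 2 := one_le_pow₀ hpR
      nlinarith
    rw [e1, e2]
    linarith
  have hXU : 1 ≤ Real.exp (lam + U) := Real.one_le_exp (by rw [hU]; linarith)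
  have hright := right_upper vb (Real.exp (lam + U)) hXU TR hTR2
  have hlm' : U ≤ lm' p l + (U + sg p) := by
    rw [lm'_eq p l hl]
    unfold sg
    rw [← hlam]
    linarith
  have hU0 : 0 ≤ U := by rw [hU]; linarith
  have hXU' : 1 ≤ Real.exp (lm' p l + (U + sg p)) := Real.one_le_exp (hU0.trans hlm')
  have hright' := right_upper vb (Real.exp (lm' p l + (U + sg p))) hXU' TR' hTR2'
  set SR := ∑' n : ℕ, mu (n + 1) * TR (n + 1) * ((VR ((n + 1 : ℕ) * Real.exp (lam + U)) : ℝ) : ℂ) with hSR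
  set SR' := ∑' n : ℕ, mu (n + 1) * TR' (n + 1) *
    ((VR ((n + 1 : ℕ) * Real.exp (lm' p l + (U + sg p))) : ℝ) : ℂ) with hSR'
  set SL := ∑' n : ℕ, mu (n + 1) * TL (n + 1) * ((VL ((n + 1 : ℕ) * (1 / (10 * N : ℝ))) : ℝ) : ℂ) with hSL
  set SL' := ∑' n : ℕ, mu (n + 1) * TT (n + 1) * ((VL ((n + 1 : ℕ) * (1 / (10 * N : ℝ))) : ℝ) : ℂ) with hSL'
  set SS := ∑' n : ℕ, mu (n + 1) * TL' (n + 1) *
    ((VL ((n + 1 : ℕ) * (1 / (10 * N * (p : ℝ) ^ 2))) : ℝ) : ℂ) with hSS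
  have hlow' : (Sn.card : ℝ) / 5 - 2 ≤ ‖SL‖ := by
    have h1 : ‖SL'‖ ≤ ‖SL‖ + ‖SL - SL'‖ := by
      have := norm_sub_le SL (SL - SL')
      rwa [sub_sub_cancel] at this
    linarith
  exact combine p C lam U SR SR' SL SS (Real.exp (lm' p l + (U + sg p))) N Sn.card hp hN2 hlam0 hU hmain hlow'
    (hSLs.trans hSLs1) hXU hright hXU' hright' (Real.exp_le_exp.mpr hlm') hcard hN1

end Pool.Agent.T9h54.MY
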