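import Pool.Agent.T9h54.MY.KlO

/-!
# Riesz products with a larger range of independence
-/

set_option autoImplicit false

open Filter Topology Finset

namespace Pool.Agent.T9h54.MY

open Pool.Agent.Y821.ME
open Pool.Agent.T9h54.MX (nu tg norm_nu abs_tg card_units_ge loc_sum Wt yb Near w_le exists_K exists_l cos_sq_le)

/-- uniform non-divisibility -/
lemma uniformB (p : ℕ) [Fact p.Prime] (B : ℤ) (SF : Finset ℤ) (ρ : ℤ → ℤ_[p])
    (hρ : ∀ h : ℤ → ℤ, ∑ m ∈ SF, (h m : ℤ_[p]) * ρ m = 0 → ∀ m ∈ SF, h m = 0) :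
    ∃ n0 : ℕ, ∀ h : ℤ → ℤ, (∀ m ∈ SF, |h m| ≤ B) → (∃ m ∈ SF, h m ≠ 0) →
      ¬ ((p : ℤ_[p]) ^ n0 ∣ 2 * ∑ m ∈ SF, (h m : ℤ_[p]) * ρ m) := by
  classical
  let val : (↥SF → ℤ) → ℤ_[p] := fun g => 2 * ∑ m : ↥SF, (g m : ℤ_[p]) * ρ m
  let n : (↥SF → ℤ) → ℕ := fun g =>
    if h : ∃ n, ¬ ((p : ℤ_[p]) ^ n ∣ val g) then h.choose else 0
  have hT : Set.Finite {g : ↥SF → ℤ | ∀ m, g m ∈ Set.Icc (-B) B} :=
    Set.Finite.pi' (fun _ => Set.finite_Icc _ _)
  obtain ⟨M, hM⟩ := (hT.image n).bddAbove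
  refine ⟨M, fun h hb hne hd => ?_⟩
  have hval : val (fun m => h m) = 2 * ∑ m ∈ SF, (h m : ℤ_[p]) * ρ m := by
    simp only [val]
    congr 1
    exact Finset.sum_coe_sort SF (fun m => (h m : ℤ_[p]) * ρ m)
  have hv0 : val (fun m => h m) ≠ 0 := by
    rw [hval]
    intro h0
    have h2 : (2 : ℤ_[p]) ≠ 0 := two_ne_zero
    have h1 := (mul_eq_zero.mp h0).resolve_left h2
    obtain ⟨m, hm, hm0⟩ := hne
    exact hm0 (hρ h h1 m hm)
  have hex := RZ2.exists_not_dvd p _ hv0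
  have hn : ¬ ((p : ℤ_[p]) ^ (n (fun m => h m)) ∣ val (fun m => h m)) := by
    simp only [n]
    rw [dif_pos hex]
    exact hex.choose_spec
  apply hn
  have hle : n (fun m => h m) ≤ M := by
    apply hM
    refine ⟨_, ?_, rfl⟩
    intro m
    have := hb m m.2
    rw [abs_le] at this
    exact this
  rw [hval]
  exact (pow_dvd_pow _ hle).trans hd

open RZ2 in
/-- the Riesz products of the library, with their formula -/
theorem rz2y (Y p : ℕ) [Fact p.Prime] (hp2 : p ≠ 2) (S : Finset ℤ) (hS : S ⊆ Gs Y p) :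
    ∃ l₀ : ℕ, 1 ≤ l₀ ∧ ∀ l : ℕ, l₀ ≤ l → ∃ r : ℤ → (ZMod (p ^ (2 * l)))ˣ,
    (∀ g ∈ Gs Y p, (g : ZMod (p ^ (2 * l))) * (r g : ZMod (p ^ (2 * l))) ^ 2 = 1) ∧
    (∀ h : ℤ → ℤ, (∀ m ∈ Gs Y p, |h m| ≤ (p : ℤ) + 2) → (∃ m ∈ Gs Y p, h m ≠ 0) →
      (p : ZMod (p ^ (2 * l))) * (2 * ∑ m ∈ Gs Y p, (h m : ZMod (p ^ (2 * l))) *
        ((r m : (ZMod (p ^ (2 * l)))ˣ) : ZMod (p ^ (2 * l)))) ≠ 0) ∧
    ∃ w : (ZMod (p ^ (2 * l)))ˣ → ℝ, (∀ b, 0 ≤ w b) ∧ ∑ b, w b = 1 ∧
      (∀ g ∈ Gs Y p, ∑ b, w b * (ee (p ^ (2 * l)) (2 * (b : ZMod (p ^ (2 * l))) * r g)).re = tg S g) ∧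
      ∀ b, (w b : ℂ) = (Fintype.card (ZMod (p ^ (2 * l)))ˣ : ℂ)⁻¹ *
        ∏ j ∈ S, fac (p ^ (2 * l)) (fun m => ((r m : (ZMod (p ^ (2 * l)))ˣ) : ZMod (p ^ (2 * l)))) nu
          (b : ZMod (p ^ (2 * l))) j := by
  classical
  obtain ⟨ρ, hρ1, hρ2⟩ := li2 Y p hp2
  set SF := Gs Y p with hSF
  obtain ⟨n0, hn0⟩ := uniformB p ((p : ℤ) + 2) SF ρ hρ2
  refine ⟨n0 + 1, by omega, ?_⟩
  intro l hl0
  have hl1 : 1 ≤ l := by omega
  have hl2 : n0 ≤ 2 * l - 1 := by omega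
  have hm1 : ∀ m ∈ SF, (m : ZMod (p ^ (2 * l))) * (PadicInt.toZModPow (2 * l) (ρ m)) ^ 2 = 1 := by
    intro m h1
    have := congrArg (PadicInt.toZModPow (p := p) (2 * l)) (hρ1 m h1)
    rw [map_mul, map_pow, map_intCast, map_one] at this
    exact this
  let r : ℤ → (ZMod (p ^ (2 * l)))ˣ := fun m =>
    if h : IsUnit (PadicInt.toZModPow (p := p) (2 * l) (ρ m)) then h.unit else 1
  have hr : ∀ m ∈ SF, ((r m : (ZMod (p ^ (2 * l)))ˣ) : ZMod (p ^ (2 * l))) = PadicInt.toZModPow (2 * l) (ρ m) := by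
    intro m h1
    have hu : IsUnit (PadicInt.toZModPow (p := p) (2 * l) (ρ m)) := by
      have := hm1 m h1
      apply IsUnit.of_mul_eq_one ((m : ZMod (p ^ (2 * l))) * PadicInt.toZModPow (2 * l) (ρ m))
      rw [← this]; ring
    simp only [r]
    rw [dif_pos hu]
    rfl
  refine ⟨r, fun m h1 => by rw [hr m h1]; exact hm1 m h1, ?_⟩
  set R : ℤ → ZMod (p ^ (2 * l)) := fun m => ((r m : (ZMod (p ^ (2 * l)))ˣ) : ZMod (p ^ (2 * l))) with hRdef
  have hR : ∀ h : ℤ → ℤ, (∀ m ∈ SF, |h m| ≤ (p : ℤ) + 2) → (∃ m ∈ SF, h m ≠ 0) →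
      (p : ZMod (p ^ (2 * l))) * (2 * ∑ m ∈ SF, (h m : ZMod (p ^ (2 * l))) * R m) ≠ 0 := by
    intro h hb hne h0
    apply hn0 h hb hne
    have h1 : (2 * ∑ m ∈ SF, (h m : ZMod (p ^ (2 * l))) * R m) =
        PadicInt.toZModPow (2 * l) (2 * ∑ m ∈ SF, (h m : ℤ_[p]) * ρ m) := by
      rw [map_mul, map_sum, map_ofNat]
      congr 1
      apply Finset.sum_congr rfl
      intro m hm
      rw [map_mul, map_intCast, ← hr m hm]
    rw [h1] at h0
    exact (pow_dvd_pow _ hl2).trans (dvd_of_mul_eq_zero p l hl1 _ h0)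
  set ν : ℤ → ℂ := nu with hνdef
  refine ⟨hR, ?_⟩
  have hri := riesz p l SF R ν (fun h hb => hR h (fun m hm => (hb m hm).trans (by omega))) S hS
  have hcard : (0 : ℝ) < (Fintype.card (ZMod (p ^ (2 * l)))ˣ : ℝ) := by
    exact_mod_cast Fintype.card_pos
  have hcardC : (Fintype.card (ZMod (p ^ (2 * l)))ˣ : ℂ) ≠ 0 := by
    have : Fintype.card (ZMod (p ^ (2 * l)))ˣ ≠ 0 := Fintype.card_ne_zero
    exact_mod_cast this
  let w : (ZMod (p ^ (2 * l)))ˣ → ℝ := fun b => (Fintype.card (ZMod (p ^ (2 * l)))ˣ : ℝ)⁻¹ *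
    ∏ j ∈ S, (1 + ((ArithmeticFunction.moebius j.natAbs : ℤ) : ℝ) * (ee (p ^ (2 * l)) (2 * (b : ZMod (p ^ (2 * l))) * r j)).re)
  have hconj : ∀ x : ZMod (p ^ (2 * l)), ee (p ^ (2 * l)) x + ee (p ^ (2 * l)) (-x) = 2 * ((ee (p ^ (2 * l)) x).re : ℂ) := by
    intro x
    have : ee (p ^ (2 * l)) (-x) = (starRingEnd ℂ) (ee (p ^ (2 * l)) x) := by
      simp only [ee]
      exact AddChar.map_neg_eq_conj _ _
    rw [this, Complex.add_conj]
    push_cast
    ring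
  have hnorm : ∀ x : ZMod (p ^ (2 * l)), |(ee (p ^ (2 * l)) x).re| ≤ 1 := by
    intro x
    refine (Complex.abs_re_le_norm _).trans ?_
    simp only [ee]
    rw [AddChar.norm_apply]
  have hwC : ∀ b, (w b : ℂ) = (Fintype.card (ZMod (p ^ (2 * l)))ˣ : ℂ)⁻¹ *
      ∏ j ∈ S, fac (p ^ (2 * l)) R ν (b : ZMod (p ^ (2 * l))) j := by
    intro b
    simp only [w]
    push_cast
    congr 1
    apply Finset.prod_congr rfl
    intro j _
    simp only [fac, hconj, hνdef, nu, R]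
    ring
  have hmain : ∀ g : ℤ → ℤ, (∀ m ∈ SF, |g m| ≤ 1) →
      ∑ b : (ZMod (p ^ (2 * l)))ˣ, (w b : ℂ) *
        ee (p ^ (2 * l)) ((b : ZMod (p ^ (2 * l))) * (2 * ∑ m ∈ SF, (g m : ZMod (p ^ (2 * l))) * R m)) =
      ∏ m ∈ SF, cc ν S m (g m) := by
    intro g hg
    have h1 := hri g (fun m hm => (hg m hm).trans (by norm_num)) (fun m hm => hg m (hS hm))
    calc ∑ b : (ZMod (p ^ (2 * l)))ˣ, (w b : ℂ) *
        ee (p ^ (2 * l)) ((b : ZMod (p ^ (2 * l))) * (2 * ∑ m ∈ SF, (g m : ZMod (p ^ (2 * l))) * R m))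
        = (Fintype.card (ZMod (p ^ (2 * l)))ˣ : ℂ)⁻¹ * ∑ b : (ZMod (p ^ (2 * l)))ˣ, (∏ j ∈ S, fac (p ^ (2 * l)) R ν (b : ZMod (p ^ (2 * l))) j) *
        ee (p ^ (2 * l)) ((b : ZMod (p ^ (2 * l))) * (2 * ∑ m ∈ SF, (g m : ZMod (p ^ (2 * l))) * R m)) := by
          rw [Finset.mul_sum (s := (Finset.univ : Finset (ZMod (p ^ (2 * l)))ˣ))]
          apply Finset.sum_congr rfl
          intro b _
          rw [hwC]; ring
      _ = ∏ m ∈ SF, cc ν S m (g m) := by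
          rw [h1, ← mul_assoc, inv_mul_cancel₀ hcardC, one_mul]
  refine ⟨w, ?_, ?_, ?_, hwC⟩
  · intro b
    apply mul_nonneg (inv_nonneg.mpr hcard.le)
    apply Finset.prod_nonneg
    intro j _
    have h1 := hnorm (2 * (b : ZMod (p ^ (2 * l))) * r j)
    have h2 : |((ArithmeticFunction.moebius j.natAbs : ℤ) : ℝ)| ≤ 1 := by
      exact_mod_cast ArithmeticFunction.abs_moebius_le_one (n := j.natAbs)
    have h3 : |((ArithmeticFunction.moebius j.natAbs : ℤ) : ℝ) * (ee (p ^ (2 * l)) (2 * (b : ZMod (p ^ (2 * l))) * r j)).re| ≤ 1 := by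
      rw [abs_mul]
      calc _ ≤ 1 * 1 := mul_le_mul h2 h1 (abs_nonneg _) zero_le_one
        _ = 1 := by norm_num
    linarith [(abs_le.mp h3).1]
  · have h1 := hmain (fun _ => 0) (fun m _ => by norm_num)
    have h2 : ∏ m ∈ SF, cc ν S m ((fun _ => (0 : ℤ)) m) = 1 := by
      apply Finset.prod_eq_one
      intro m _
      simp [cc]
    rw [h2] at h1
    have h3 : ((∑ b, w b : ℝ) : ℂ) = 1 := by
      rw [← h1]
      push_cast
      apply Finset.sum_congr rfl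
      intro b _
      simp [ee]
    exact_mod_cast h3
  · intro m hm
    let g : ℤ → ℤ := fun j => if j = m then 1 else 0
    have h1 := hmain g (fun j _ => by simp only [g]; split_ifs <;> norm_num)
    have h2 : ∏ j ∈ SF, cc ν S j (g j) = cc ν S m 1 := by
      rw [← Finset.mul_prod_erase SF _ hm]
      have : ∏ j ∈ SF.erase m, cc ν S j (g j) = 1 := by
        apply Finset.prod_eq_one
        intro j hj
        simp only [g, if_neg (Finset.ne_of_mem_erase hj)]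
        simp [cc]
      rw [this, mul_one]
      simp [g]
    have h3 : ∑ j ∈ SF, (g j : ZMod (p ^ (2 * l))) * R j = R m := by
      rw [← Finset.add_sum_erase SF _ hm]
      have : ∑ j ∈ SF.erase m, (g j : ZMod (p ^ (2 * l))) * R j = 0 := by
        apply Finset.sum_eq_zero
        intro j hj
        simp only [g, if_neg (Finset.ne_of_mem_erase hj)]
        simp
      rw [this, add_zero]
      simp [g]
    rw [h2, h3] at h1
    have h4 : ∑ b, w b * (ee (p ^ (2 * l)) (2 * (b : ZMod (p ^ (2 * l))) * r m)).re =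
        (cc ν S m 1).re := by
      rw [← h1, Complex.re_sum]
      apply Finset.sum_congr rfl
      intro b _
      rw [Complex.re_ofReal_mul]
      congr 3
      simp only [R]
      ring
    rw [h4]
    simp only [cc, hνdef, nu, tg]
    by_cases hmS : m ∈ S
    · simp only [hmS, if_true]
      norm_num
    · simp [hmS]


/-- a Riesz product against a frequency outside of its spectrum -/
theorem riesz_zero (q : ℕ) [NeZero q] (R : ℤ → ZMod q) (ν : ℤ → ℂ) (S : Finset ℤ) :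
    ∀ t : ZMod q, (∀ h : ℤ → ℤ, (∀ j, |h j| ≤ 1) →
      ∑ b : (ZMod q)ˣ, ee q ((t + 2 * ∑ j ∈ S, (h j : ZMod q) * R j) * b) = 0) →
    ∑ b : (ZMod q)ˣ, (∏ j ∈ S, RZ2.fac q R ν (b : ZMod q) j) * ee q (t * b) = 0 := by
  classical
  induction S using Finset.induction_on with
  | empty =>
    intro t ht
    have := ht (fun _ => 0) (fun _ => by norm_num)
    simpa using this
  | insert j S hj ih =>
    intro t ht
    have hexp : ∀ b : (ZMod q)ˣ, (∏ i ∈ insert j S, RZ2.fac q R ν (b : ZMod q) i) * ee q (t * b) =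
        (∏ i ∈ S, RZ2.fac q R ν (b : ZMod q) i) * ee q (t * b) +
        ν j / 2 * ((∏ i ∈ S, RZ2.fac q R ν (b : ZMod q) i) * ee q ((t + 2 * R j) * b)) +
        ν j / 2 * ((∏ i ∈ S, RZ2.fac q R ν (b : ZMod q) i) * ee q ((t - 2 * R j) * b)) := by
      intro b
      rw [Finset.prod_insert hj]
      have e1 : (t + 2 * R j) * (b : ZMod q) = t * b + 2 * b * R j := by ring
      have e2 : (t - 2 * R j) * (b : ZMod q) = t * b + -(2 * b * R j) := by ring
      rw [e1, e2]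
      simp only [RZ2.fac, ee]
      rw [AddChar.map_add_eq_mul, AddChar.map_add_eq_mul]
      ring
    have key : ∀ e : ℤ, |e| ≤ 1 → ∑ b : (ZMod q)ˣ, (∏ i ∈ S, RZ2.fac q R ν (b : ZMod q) i) *
        ee q ((t + 2 * ((e : ZMod q) * R j)) * b) = 0 := by
      intro e he
      refine ih _ fun h hh => ?_
      have h1 := ht (Function.update h j e) (fun i => by
        by_cases hij : i = j
        · subst hij; rw [Function.update_self]; exact he
        · rw [Function.update_of_ne hij]; exact hh i)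
      rw [Finset.sum_insert hj, Function.update_self] at h1
      have h2 : ∑ i ∈ S, ((Function.update h j e i : ℤ) : ZMod q) * R i = ∑ i ∈ S, (h i : ZMod q) * R i := by
        refine Finset.sum_congr rfl fun i hi => ?_
        have hij : i ≠ j := fun h' => hj (by rw [← h']; exact hi)
        rw [Function.update_of_ne hij]
      rw [h2] at h1
      rw [← h1]
      refine Finset.sum_congr rfl fun b _ => ?_
      congr 1
      ring
    rw [Finset.sum_congr rfl fun b _ => hexp b, Finset.sum_add_distrib, Finset.sum_add_distrib, ← Finset.mul_sum,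
      ← Finset.mul_sum]
    have h0 := key 0 (by norm_num)
    have h1 := key 1 (by norm_num)
    have h2 := key (-1) (by norm_num)
    simp only [Int.cast_zero, zero_mul, mul_zero, add_zero, Int.cast_one, one_mul, Int.cast_neg, neg_mul,
      mul_neg, ← sub_eq_add_neg] at h0 h1 h2
    rw [h0, h1, h2]
    ring

end Pool.Agent.T9h54.MY
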