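import Pool.Agent.T9h54.MY.Wto
import Pool.Agent.T9h54.MY.Hyp

/-!
# Scaling, shifts and the decomposition of the cosine sums
-/

set_option autoImplicit false

open Filter Topology MeasureTheory Finset

namespace Pool.Agent.T9h54.MY

open Pool.Agent.Y821.ME
open Pool.Agent.T9h54.MX (cop_neg Mx_cop_neg)

/-- scaling -/
theorem aF_scale (lam : ℝ) (M : ℝ → ℂ) (p : ℕ) (hp : 0 < p) (u : ℝ) :
    aF lam (fun v => M (v / p)) u = (Real.exp (-(3 / 4 * Real.log p)) : ℂ) *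
      aF (lam - Real.log p / 2) M (u - 3 / 2 * Real.log p) := by
  have hp0 : (0 : ℝ) < p := by exact_mod_cast hp
  unfold aF
  have h1 := integral_comp_mul_left_Ioi (fun v : ℝ => M (v / p) * ((th1 (v * Real.exp (lam - u)) / v : ℝ) : ℂ)) 0 hp0
  rw [mul_zero] at h1
  have h2 : ∫ v in Set.Ioi (0 : ℝ), M (v / p) * ((th1 (v * Real.exp (lam - u)) / v : ℝ) : ℂ) =
      ∫ w in Set.Ioi (0 : ℝ), M w * ((th1 (w * Real.exp (lam - Real.log p / 2 - (u - 3 / 2 * Real.log p))) / w : ℝ) : ℂ) := by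
    have h3 : ∫ v in Set.Ioi (0 : ℝ), M (v / p) * ((th1 (v * Real.exp (lam - u)) / v : ℝ) : ℂ) =
        ((p : ℝ) : ℂ) * ∫ w in Set.Ioi (0 : ℝ), M (p * w / p) * ((th1 (p * w * Real.exp (lam - u)) / (p * w) : ℝ) : ℂ) := by
      rw [h1, Complex.real_smul, ← mul_assoc, ← Complex.ofReal_mul, mul_inv_cancel₀ hp0.ne', Complex.ofReal_one, one_mul]
    rw [h3, ← MeasureTheory.integral_const_mul]
    refine setIntegral_congr_fun measurableSet_Ioi fun w hw => ?_
    have hw0 : (0 : ℝ) < w := hw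
    have h4 : Real.exp (lam - Real.log p / 2 - (u - 3 / 2 * Real.log p)) = p * Real.exp (lam - u) := by
      rw [show lam - Real.log p / 2 - (u - 3 / 2 * Real.log p) = Real.log p + (lam - u) by ring, Real.exp_add,
        Real.exp_log hp0]
    rw [h4, mul_div_cancel_left₀ _ hp0.ne']
    have h5 : w * (p * Real.exp (lam - u)) = p * w * Real.exp (lam - u) := by ring
    rw [h5]
    push_cast
    have hpC : ((p : ℝ) : ℂ) ≠ 0 := by exact_mod_cast hp0.ne'
    have hwC : (w : ℂ) ≠ 0 := by exact_mod_cast hw0.ne'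
    push_cast at hpC
    field_simp
  rw [h2, ← mul_assoc, ← Complex.ofReal_mul, ← Real.exp_add]
  congr 3
  ring_nf

/-- shifts -/
theorem Disc_shift (A : ℝ → ℂ) (hA : Disc A) (σ : ℝ) : Disc (fun u => A (u - σ)) := by
  intro k hk1 hk2 hk3
  obtain ⟨Γ, c, h⟩ := hA k hk1 hk2 hk3
  refine ⟨Γ, fun γ => c γ * Complex.exp (-(Complex.I * γ * σ)), fun u => ?_⟩
  have h1 := h (u - σ)
  have h2 := integral_sub_right_eq_self (μ := volume) (fun v : ℝ => A v * ∫ t : ℝ, k t *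
    Complex.exp (Complex.I * t * ((u - σ : ℝ) - v))) σ
  have h3 : ∫ v : ℝ, A (v - σ) * ∫ t : ℝ, k t * Complex.exp (Complex.I * t * (u - v)) =
      ∫ v : ℝ, A (v - σ) * ∫ t : ℝ, k t * Complex.exp (Complex.I * t * ((u - σ : ℝ) - ((v - σ : ℝ) : ℂ))) := by
    refine integral_congr_ae (Eventually.of_forall fun v => ?_)
    simp only
    congr 1
    refine integral_congr_ae (Eventually.of_forall fun t => ?_)
    simp only
    congr 2
    push_cast
    ring
  rw [h3]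
  refine h2.trans (h1.trans ?_)
  refine Finset.sum_congr rfl fun γ _ => ?_
  simp only
  rw [mul_assoc (c γ), ← Complex.exp_add]
  congr 2
  push_cast
  ring

theorem D_shift (A : ℝ → ℂ) (σ u : ℝ) : D (fun t => A (t - σ)) u = D A (u - σ) := by
  unfold D
  simp only
  congr 2
  · congr 2
    ring
  · congr 1
    ring

/-- the part of the argument which is about one modulus -/
theorem discA (q : ℕ) [NeZero q] (hq : 2 ≤ q) (hch0 : GoodE q) (a : ZMod q) :
    Continuous (fun u => aF (Real.log (q / Real.pi) / 2) (Mx (cR q a)) u -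
      aF (Real.log (q / Real.pi) / 2) (Mx (cL q a)) (-u)) ∧
    (∃ B : ℝ, ∀ u, ‖aF (Real.log (q / Real.pi) / 2) (Mx (cR q a)) u -
      aF (Real.log (q / Real.pi) / 2) (Mx (cL q a)) (-u)‖ ≤ B) ∧
    Disc (fun u => aF (Real.log (q / Real.pi) / 2) (Mx (cR q a)) u -
      aF (Real.log (q / Real.pi) / 2) (Mx (cL q a)) (-u)) := by
  classical
  set lam := Real.log (q / Real.pi) / 2 with hlam
  have hev : ∀ χ ∈ Ev q, χ.Even ∧ χ.IsPrimitive := fun χ hχ => by
    unfold Ev at hχ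
    exact (Finset.mem_filter.mp hχ).2
  have hBχ : ∀ χ : DirichletCharacter ℂ q, ∃ B : ℝ, χ.IsPrimitive → χ.Even → ∀ v, 1 ≤ v →
      ‖Mx (fun n => χ n) v‖ ≤ B * Real.sqrt v := by
    intro χ
    by_cases hp : χ.IsPrimitive ∧ χ.Even
    · obtain ⟨B, -, hB⟩ := hch0 χ hp.1 hp.2
      exact ⟨B, fun _ _ => hB⟩
    · exact ⟨0, fun hp' he' => absurd ⟨hp', he'⟩ hp⟩
  choose Bχ hBχ using hBχ
  have hP : ∀ χ ∈ Ev q, Pair (aF lam (Mx (fun n => χ n)))
      (fun u => (DirichletCharacter.rootNumber χ)⁻¹ * aF lam (Mx (fun n => χ⁻¹ n)) u) := by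
    intro χ hχ
    obtain ⟨he, hp⟩ := hev χ hχ
    refine pairM lap lfn q χ hq hp he ⟨max (Bχ χ) (Bχ χ⁻¹), fun v hv => ⟨?_, ?_⟩⟩
    · exact (hBχ χ hp he v hv).trans (mul_le_mul_of_nonneg_right (le_max_left _ _) (Real.sqrt_nonneg _))
    · exact (hBχ χ⁻¹ (inv_prim q hp) (inv_even he) v hv).trans
        (mul_le_mul_of_nonneg_right (le_max_right _ _) (Real.sqrt_nonneg _))
  -- the function
  set A : ℝ → ℂ := fun u => ∑ χ ∈ Ev q, cf q a χ * (aF lam (Mx (fun n => χ n)) u -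
    (DirichletCharacter.rootNumber χ)⁻¹ * aF lam (Mx (fun n => χ⁻¹ n)) (-u)) with hA
  have hAeq : (fun u => aF lam (Mx (cR q a)) u - aF lam (Mx (cL q a)) (-u)) = A := by
    funext u
    have h1 := aF_sum lap (Ev q) (fun χ => cf q a χ) (fun χ n => χ n) lam Bχ
      (fun χ hχ v hv => hBχ χ (hev χ hχ).2 (hev χ hχ).1 v hv) u
    have h2 := aF_sum lap (Ev q) (fun χ => cf q a χ * (DirichletCharacter.rootNumber χ)⁻¹)
      (fun χ n => χ⁻¹ n) lam (fun χ => Bχ χ⁻¹)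
      (fun χ hχ v hv => hBχ χ⁻¹ (inv_prim q (hev χ hχ).2) (inv_even (hev χ hχ).1) v hv) (-u)
    have h3 : cR q a = fun n : ℕ => ∑ χ ∈ Ev q, cf q a χ * χ n := rfl
    have h4 : cL q a = fun n : ℕ => ∑ χ ∈ Ev q, cf q a χ * (DirichletCharacter.rootNumber χ)⁻¹ * χ⁻¹ n := rfl
    rw [h3, h4, h1, h2, hA, ← Finset.sum_sub_distrib]
    refine Finset.sum_congr rfl fun χ _ => ?_
    ring
  have hcont : ∀ χ ∈ Ev q, Continuous (fun u => aF lam (Mx (fun n => χ n)) u -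
      (DirichletCharacter.rootNumber χ)⁻¹ * aF lam (Mx (fun n => χ⁻¹ n)) (-u)) := by
    intro χ hχ
    exact (hP χ hχ).ca.sub ((hP χ hχ).cb.comp continuous_neg)
  have hbdd : ∀ χ ∈ Ev q, ∃ B : ℝ, ∀ u, ‖aF lam (Mx (fun n => χ n)) u -
      (DirichletCharacter.rootNumber χ)⁻¹ * aF lam (Mx (fun n => χ⁻¹ n)) (-u)‖ ≤ B := by
    intro χ hχ
    obtain ⟨B, hB⟩ := (hP χ hχ).bd
    refine ⟨B + B, fun u => (norm_sub_le _ _).trans (add_le_add (hB u).1 (hB (-u)).2.2.1)⟩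
  have hdisc : Disc A := Disc_sum (Ev q) (fun χ => cf q a χ) _ hcont hbdd
    (fun χ hχ => trig _ _ (hP χ hχ))
  have hAc : Continuous A := continuous_finsetSum _ fun χ hχ => continuous_const.mul (hcont χ hχ)
  have hAb : ∃ B : ℝ, ∀ u, ‖A u‖ ≤ B := by
    have hex : ∀ χ : DirichletCharacter ℂ q, ∃ B : ℝ, χ ∈ Ev q → ∀ u, ‖aF lam (Mx (fun n => χ n)) u -
      (DirichletCharacter.rootNumber χ)⁻¹ * aF lam (Mx (fun n => χ⁻¹ n)) (-u)‖ ≤ B := by
      intro χ
      by_cases hχ : χ ∈ Ev q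
      · obtain ⟨B, hB⟩ := hbdd χ hχ
        exact ⟨B, fun _ => hB⟩
      · exact ⟨0, fun h => absurd h hχ⟩
    choose B hB using hex
    refine ⟨∑ χ ∈ Ev q, ‖cf q a χ‖ * B χ, fun u => (norm_sum_le _ _).trans
      (Finset.sum_le_sum fun χ hχ => ?_)⟩
    rw [norm_mul]
    exact mul_le_mul_of_nonneg_left (hB χ hχ u) (norm_nonneg _)
  rw [hAeq]
  refine ⟨hAc, ?_, hdisc⟩
  obtain ⟨B, hB⟩ := hAb
  refine ⟨B, fun u => ?_⟩
  have := congrFun hAeq u
  rw [this]
  exact hB u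

section

variable (p l : ℕ) [Fact p.Prime]

/-- the cosine sums over all `n` -/
noncomputable def cF (a : (ZMod (p ^ (2 * l)))ˣ) (n : ℕ) : ℂ :=
  (ee (p ^ (2 * l)) (a * n) + ee (p ^ (2 * l)) (-a * n)) / 2

/-- the reduction of a unit -/
noncomputable def ru (a : (ZMod (p ^ (2 * l)))ˣ) : (ZMod (p ^ (2 * l - 1)))ˣ :=
  Units.map (rd p l : ZMod (p ^ (2 * l)) →* ZMod (p ^ (2 * l - 1))) a

theorem ru_val (a : (ZMod (p ^ (2 * l)))ˣ) : ((ru p l a : (ZMod (p ^ (2 * l - 1)))ˣ) : ZMod (p ^ (2 * l - 1))) =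
    rd p l (a : ZMod (p ^ (2 * l))) := rfl

theorem mu_mul (m : ℕ) : mu (p * m) = if p ∣ m then 0 else -mu m := by
  have hp : p.Prime := Fact.out
  unfold mu
  split_ifs with h
  · have h1 : ¬ Squarefree (p * m) := by
      intro hs
      have h2 := hs p (mul_dvd_mul_left p h)
      exact hp.one_lt.ne' (Nat.isUnit_iff.mp h2)
    rw [ArithmeticFunction.moebius_eq_zero_of_not_squarefree h1]
    simp
  · have h1 : Nat.Coprime p m := (Nat.Prime.coprime_iff_not_dvd hp).mpr h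
    rw [ArithmeticFunction.isMultiplicative_moebius.map_mul_of_coprime h1, ArithmeticFunction.moebius_apply_prime hp]
    push_cast
    ring

/-- the decomposition -/
theorem Mx_cF (hl : 2 ≤ l) (a : (ZMod (p ^ (2 * l)))ˣ) (v : ℝ) :
    Mx (cF p l a) v = Mx (cR (p ^ (2 * l)) a) v -
      Mx (cR (p ^ (2 * l - 1)) ((ru p l a : (ZMod (p ^ (2 * l - 1)))ˣ) : ZMod (p ^ (2 * l - 1)))) (v / p) := by
  classical
  have hp : p.Prime := Fact.out
  unfold Mx
  rw [Nat.floor_div_natCast]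
  set N := ⌊v⌋₊ with hN
  have h1 : ∑ n ∈ Icc 1 N, mu n * cF p l a n =
      ∑ n ∈ (Icc 1 N).filter (fun n => ¬ p ∣ n), mu n * cF p l a n +
      ∑ n ∈ (Icc 1 N).filter (fun n => p ∣ n), mu n * cF p l a n := by
    rw [add_comm]
    exact (Finset.sum_filter_add_sum_filter_not _ _ _).symm
  have h2 : ∑ n ∈ Icc 1 N, mu n * cR (p ^ (2 * l)) (a : ZMod (p ^ (2 * l))) n =
      ∑ n ∈ (Icc 1 N).filter (fun n => ¬ p ∣ n), mu n * cF p l a n := by
    rw [Finset.sum_filter]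
    refine Finset.sum_congr rfl fun n _ => ?_
    rw [cR_eq hp (by omega)]
    unfold cop cF
    split_ifs <;> simp
  have h3 : ∑ n ∈ (Icc 1 N).filter (fun n => p ∣ n), mu n * cF p l a n =
      ∑ m ∈ Icc 1 (N / p), mu (p * m) * cF p l a (p * m) := by
    symm
    refine Finset.sum_bij (fun m _ => p * m) ?_ ?_ ?_ ?_
    · intro m hm
      rw [Finset.mem_Icc] at hm
      rw [Finset.mem_filter, Finset.mem_Icc]
      refine ⟨⟨Nat.mul_pos hp.pos hm.1, ?_⟩, dvd_mul_right _ _⟩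
      have := (Nat.le_div_iff_mul_le hp.pos).mp hm.2
      rwa [mul_comm]
    · intro m₁ _ m₂ _ h
      exact Nat.eq_of_mul_eq_mul_left hp.pos h
    · intro n hn
      rw [Finset.mem_filter, Finset.mem_Icc] at hn
      obtain ⟨⟨h4, h5⟩, m, rfl⟩ := hn
      refine ⟨m, ?_, rfl⟩
      rw [Finset.mem_Icc]
      refine ⟨?_, ?_⟩
      · rcases Nat.eq_zero_or_pos m with h6 | h6
        · subst h6; simp at h4
        · exact h6
      · rw [Nat.le_div_iff_mul_le hp.pos, mul_comm]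
        exact h5
    · intro m _; rfl
  have h4 : ∀ m ∈ Icc 1 (N / p), mu (p * m) * cF p l a (p * m) =
      -(mu m * cR (p ^ (2 * l - 1)) ((ru p l a : (ZMod (p ^ (2 * l - 1)))ˣ) : ZMod (p ^ (2 * l - 1))) m) := by
    intro m _
    rw [mu_mul, cR_eq hp (by omega)]
    unfold cop
    split_ifs with h
    · simp
    · have h5 : ∀ z : ZMod (p ^ (2 * l)), ee (p ^ (2 * l)) (z * ((p * m : ℕ) : ZMod (p ^ (2 * l)))) =
          ee (p ^ (2 * l - 1)) (rd p l z * m) := by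
        intro z
        have h6 : rd p l z * (m : ZMod (p ^ (2 * l - 1))) = rd p l (z * m) := by
          rw [map_mul, map_natCast]
        rw [h6, ee_rd p l (by omega)]
        congr 1
        push_cast
        ring
      unfold cF
      rw [h5, h5, map_neg, ru_val]
      ring
  rw [h1, h2, h3, Finset.sum_congr rfl h4, Finset.sum_neg_distrib]
  ring

theorem norm_Mx_cF (a : (ZMod (p ^ (2 * l)))ˣ) (v : ℝ) :
    ‖Mx (cF p l a) v‖ ≤ ‖F ⌊v⌋₊ (((a : ZMod (p ^ (2 * l))).val : ℝ) / (p : ℝ) ^ (2 * l))‖ := by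
  have h1 : Mx (cF p l a) v = (Mx (fun n => ee (p ^ (2 * l)) (a * n)) v +
      (starRingEnd ℂ) (Mx (fun n => ee (p ^ (2 * l)) (a * n)) v)) / 2 := by
    unfold Mx
    rw [map_sum, ← Finset.sum_add_distrib, Finset.sum_div]
    refine Finset.sum_congr rfl fun n _ => ?_
    rw [map_mul]
    have h2 : (starRingEnd ℂ) (mu n) = mu n := by
      unfold mu
      exact map_intCast (starRingEnd ℂ) _
    have h3 : (starRingEnd ℂ) (ee (p ^ (2 * l)) ((a : ZMod (p ^ (2 * l))) * n)) =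
        ee (p ^ (2 * l)) (-(a : ZMod (p ^ (2 * l))) * n) := by
      unfold ee
      rw [neg_mul, AddChar.map_neg_eq_conj]
    rw [h2, h3]
    unfold cF
    ring
  have h2 : Mx (fun n => ee (p ^ (2 * l)) ((a : ZMod (p ^ (2 * l))) * n)) v =
      F ⌊v⌋₊ (((a : ZMod (p ^ (2 * l))).val : ℝ) / (p : ℝ) ^ (2 * l)) := by
    rw [Mx_ee]
    congr 1
    push_cast
    ring
  rw [h1, h2, norm_div, Complex.norm_ofNat]
  have h3 := norm_add_le (F ⌊v⌋₊ (((a : ZMod (p ^ (2 * l))).val : ℝ) / (p : ℝ) ^ (2 * l)))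
    ((starRingEnd ℂ) (F ⌊v⌋₊ (((a : ZMod (p ^ (2 * l))).val : ℝ) / (p : ℝ) ^ (2 * l))))
  rw [Complex.norm_conj] at h3
  linarith

end

end Pool.Agent.T9h54.MY
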