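import Pool.Agent.T9h54.MY.Ineq

/-!
# The averaged inequality between the series, for the full sums
-/

set_option autoImplicit false

open Filter Topology MeasureTheory Finset

namespace Pool.Agent.T9h54.MY

open Pool.Agent.Y821.ME

theorem D_const (c : ℂ) (A : ℝ → ℂ) (u : ℝ) : D (fun t => c * A t) u = c * D A u := by
  unfold D
  ring

section

variable (p l : ℕ) [Fact p.Prime]

theorem norm_cL'_le (hp2 : p ≠ 2) (hl : 2 ≤ l) (b : (ZMod (p ^ (2 * l)))ˣ) (n : ℕ) :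
    ‖cL' p l (b ^ 2) n‖ ≤ 2 * Real.sqrt p := by
  have hp : p.Prime := Fact.out
  have hp0 : (0 : ℝ) < p := by exact_mod_cast hp.pos
  unfold cL'
  by_cases hn : p ∣ n
  · rw [cL_zero hp (by omega) _ n hn, norm_zero]
    positivity
  · obtain ⟨m, hm⟩ := isUnit_nat (k := 2 * l - 1) hp n hn
    rw [cL_eq hp (by omega) (ru p l (b ^ 2)) m n hm, norm_div]
    have e0 : ((ru p l (b ^ 2) * m⁻¹ : (ZMod (p ^ (2 * l - 1)))ˣ) : ZMod (p ^ (2 * l - 1))) =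
        (rd p l (b : ZMod (p ^ (2 * l)))) ^ 2 * ((m⁻¹ : (ZMod (p ^ (2 * l - 1)))ˣ) : ZMod (p ^ (2 * l - 1))) := by
      rw [Units.val_mul, ru_val, Units.val_pow_eq_pow_val, map_pow]
    have h1 := norm_Kl_le p l hp2 (by omega) b ((m⁻¹ : (ZMod (p ^ (2 * l - 1)))ˣ) : ZMod (p ^ (2 * l - 1)))
    have h2 := norm_Kl_le p l hp2 (by omega) b (-((m⁻¹ : (ZMod (p ^ (2 * l - 1)))ˣ) : ZMod (p ^ (2 * l - 1))))
    rw [mul_neg] at h2
    rw [e0]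
    have hsq : (0 : ℝ) < Real.sqrt ((p : ℝ) ^ (2 * l - 1)) := Real.sqrt_pos.mpr (by positivity)
    have h3 : ‖(2 * ((Real.sqrt ((p : ℝ) ^ (2 * l - 1)) : ℝ) : ℂ))‖ = 2 * Real.sqrt ((p : ℝ) ^ (2 * l - 1)) := by
      rw [norm_mul, Complex.norm_real, Complex.norm_ofNat, Real.norm_of_nonneg hsq.le]
    rw [h3, div_le_iff₀ (by positivity)]
    have h4 : Real.sqrt p * Real.sqrt ((p : ℝ) ^ (2 * l - 1)) = (p : ℝ) ^ l := by
      rw [← Real.sqrt_mul hp0.le, ← pow_succ']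
      have : (p : ℝ) ^ (2 * l - 1 + 1) = ((p : ℝ) ^ l) ^ 2 := by
        rw [← pow_mul]
        congr 1
        omega
      rw [this, Real.sqrt_sq (by positivity)]
    refine (norm_add_le _ _).trans ?_
    nlinarith

theorem seriesF (hp2 : p ≠ 2) (hl : 2 ≤ l) {C : ℝ}
    (hch0 : GoodE (p ^ (2 * l))) (hch1 : GoodE (p ^ (2 * l - 1)))
    (w : (ZMod (p ^ (2 * l)))ˣ → ℝ) (hw0 : ∀ b, 0 ≤ w b) (hw1 : ∑ b, w b = 1)
    (hloc : ∀ b, w b ≠ 0 → ∃ v₀ : ℝ, ∀ v, v₀ ≤ v → ‖Mx (cF p l (b ^ 2)) v‖ ≤ C * Real.sqrt v)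
    (TR TL TR' TL' : ℕ → ℂ)
    (hTR : TR = fun n => ∑ b, (w b : ℂ) *
      cR (p ^ (2 * l)) ((b ^ 2 : (ZMod (p ^ (2 * l)))ˣ) : ZMod (p ^ (2 * l))) n)
    (hTL : TL = fun n => ∑ b, (w b : ℂ) *
      cL (p ^ (2 * l)) ((b ^ 2 : (ZMod (p ^ (2 * l)))ˣ) : ZMod (p ^ (2 * l))) n)
    (hTR' : TR' = fun n => ∑ b, (w b : ℂ) * cR' p l (b ^ 2) n)
    (hTL' : TL' = fun n => ∑ b, ((w b / Real.sqrt p : ℝ) : ℂ) * cL' p l (b ^ 2) n)
    (U : ℝ) :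
    ‖((Real.exp (U / 2) : ℂ) *
        ∑' n : ℕ, mu (n + 1) * TR (n + 1) * (VR ((n + 1 : ℕ) * Real.exp (lm p l + U)) : ℝ) -
      (Real.exp (-U / 2) : ℂ) *
        ∑' n : ℕ, mu (n + 1) * TL (n + 1) * (VL ((n + 1 : ℕ) * Real.exp (lm p l - U)) : ℝ)) -
      PP p * ((Real.exp ((U + sg p) / 2) : ℂ) *
        ∑' n : ℕ, mu (n + 1) * TR' (n + 1) * (VR ((n + 1 : ℕ) * Real.exp (lm' p l + (U + sg p))) : ℝ) -
      (Real.sqrt p : ℂ) * ((Real.exp (-(U + sg p) / 2) : ℂ) *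
        ∑' n : ℕ, mu (n + 1) * TL' (n + 1) * (VL ((n + 1 : ℕ) * Real.exp (lm' p l - (U + sg p))) : ℝ)))‖ ≤
      5 * (C * Real.exp (-(lm p l) / 2) * Kth) ∧ (∀ n, ‖TR n‖ ≤ 2) ∧ (∀ n, ‖TL n‖ ≤ 2) ∧
      (∀ n, ‖TR' n‖ ≤ 2) ∧ (∀ n, ‖TL' n‖ ≤ 2) := by
  have hp : p.Prime := Fact.out
  have hp0 : (0 : ℝ) < p := by exact_mod_cast hp.pos
  have hsp : 0 < Real.sqrt p := Real.sqrt_pos.mpr hp0
  have hspC : (Real.sqrt p : ℂ) ≠ 0 := by exact_mod_cast hsp.ne'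
  choose BR hBR using fun b : (ZMod (p ^ (2 * l)))ˣ => cR_boundE (p ^ (2 * l)) hch0
    ((b ^ 2 : (ZMod (p ^ (2 * l)))ˣ) : ZMod (p ^ (2 * l)))
  choose BR' hBR' using fun b : (ZMod (p ^ (2 * l)))ˣ =>
    cR_boundE (p ^ (2 * l - 1)) hch1 ((ru p l (b ^ 2) : (ZMod (p ^ (2 * l - 1)))ˣ) : ZMod (p ^ (2 * l - 1)))
  choose BL hBL using fun b : (ZMod (p ^ (2 * l)))ˣ =>
    cL_boundE (p ^ (2 * l)) hch0 ((b ^ 2 : (ZMod (p ^ (2 * l)))ˣ) : ZMod (p ^ (2 * l)))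
  choose BL' hBL' using fun b : (ZMod (p ^ (2 * l)))ˣ =>
    cL_boundE (p ^ (2 * l - 1)) hch1
    ((ru p l (b ^ 2) : (ZMod (p ^ (2 * l - 1)))ˣ) : ZMod (p ^ (2 * l - 1)))
  -- the norms
  have hav : ∀ (x : (ZMod (p ^ (2 * l)))ˣ → ℝ) (c : (ZMod (p ^ (2 * l)))ˣ → ℕ → ℂ) (s : ℝ), (∀ b, 0 ≤ x b) →
      (∀ b n, ‖c b n‖ ≤ s) → (∑ b, x b) * s ≤ 2 → ∀ n, ‖∑ b, (x b : ℂ) * c b n‖ ≤ 2 := by
    intro x c s hx hc hs n
    refine (norm_sum_le _ _).trans (le_trans ?_ hs)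
    rw [Finset.sum_mul]
    refine Finset.sum_le_sum fun b _ => ?_
    rw [norm_mul, Complex.norm_real, Real.norm_of_nonneg (hx b)]
    exact mul_le_mul_of_nonneg_left (hc b n) (hx b)
  have hR2 : ∀ n, ‖TR n‖ ≤ 2 := by
    rw [hTR]
    exact hav w (fun b n => cR (p ^ (2 * l)) ((b ^ 2 : (ZMod (p ^ (2 * l)))ˣ) : ZMod (p ^ (2 * l))) n) 1 hw0
      (fun b n => norm_cR_le hp (by omega) (b ^ 2) n) (by rw [hw1]; norm_num)
  have hL2 : ∀ n, ‖TL n‖ ≤ 2 := by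
    rw [hTL]
    exact hav w (fun b n => cL (p ^ (2 * l)) ((b ^ 2 : (ZMod (p ^ (2 * l)))ˣ) : ZMod (p ^ (2 * l))) n) 2 hw0
      (fun b n => Two.norm_cL_le ch kl2 hp hp2 (by omega) (b ^ 2) n) (by rw [hw1]; norm_num)
  have hR2' : ∀ n, ‖TR' n‖ ≤ 2 := by
    rw [hTR']
    exact hav w (fun b n => cR' p l (b ^ 2) n) 1 hw0
      (fun b n => norm_cR_le hp (by omega) (ru p l (b ^ 2)) n) (by rw [hw1]; norm_num)
  have hL2' : ∀ n, ‖TL' n‖ ≤ 2 := by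
    rw [hTL']
    refine hav (fun b => w b / Real.sqrt p) (fun b n => cL' p l (b ^ 2) n) (2 * Real.sqrt p)
      (fun b => div_nonneg (hw0 b) hsp.le)
      (fun b n => norm_cL'_le p l hp2 hl b n) ?_
    rw [← Finset.sum_div, hw1]
    exact le_of_eq (by field_simp)
  refine ⟨?_, hR2, hL2, hR2', hL2'⟩
  -- the growth
  have hM : ∀ (x : (ZMod (p ^ (2 * l)))ˣ → ℝ) (c : (ZMod (p ^ (2 * l)))ˣ → ℕ → ℂ)
      (B : (ZMod (p ^ (2 * l)))ˣ → ℝ), (∀ b, 0 ≤ x b) → (∀ b v, 1 ≤ v → ‖Mx (c b) v‖ ≤ B b * Real.sqrt v) →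
      ∀ v, 1 ≤ v → ‖Mx (fun n => ∑ b, (x b : ℂ) * c b n) v‖ ≤ (∑ b, x b * B b) * Real.sqrt v := by
    intro x c B hx hc v hv
    rw [Mx_sum univ (fun b => (x b : ℂ)) c, Finset.sum_mul]
    refine (norm_sum_le _ _).trans (Finset.sum_le_sum fun b _ => ?_)
    rw [norm_mul, Complex.norm_real, Real.norm_of_nonneg (hx b), mul_assoc]
    exact mul_le_mul_of_nonneg_left (hc b v hv) (hx b)
  have hMR := hM w (fun b n => cR (p ^ (2 * l)) ((b ^ 2 : (ZMod (p ^ (2 * l)))ˣ) : ZMod (p ^ (2 * l))) n) BR hw0 hBR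
  have hML := hM w (fun b n => cL (p ^ (2 * l)) ((b ^ 2 : (ZMod (p ^ (2 * l)))ˣ) : ZMod (p ^ (2 * l))) n) BL hw0 hBL
  have hMR' := hM w (fun b n => cR' p l (b ^ 2) n) BR' hw0 hBR'
  have hML' := hM (fun b => w b / Real.sqrt p) (fun b n => cL' p l (b ^ 2) n) BL'
    (fun b => div_nonneg (hw0 b) hsp.le) hBL'
  rw [← hTR] at hMR
  rw [← hTL] at hML
  rw [← hTR'] at hMR'
  rw [← hTL'] at hML'
  set G1 : ℝ → ℂ := fun t => aF (lm p l) (Mx TR) t - aF (lm p l) (Mx TL) (-t) with hG1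
  set G2 : ℝ → ℂ := fun t => aF (lm' p l) (Mx TR') t - (Real.sqrt p : ℂ) * aF (lm' p l) (Mx TL') (-t) with hG2
  have hA : ∀ u, ‖G1 u - PP p * G2 (u - sg p)‖ ≤ C * Real.exp (-(lm p l) / 2) * Kth := by
    intro u
    have e1 := aF_sum lap univ (fun b => (w b : ℂ))
      (fun b n => cR (p ^ (2 * l)) ((b ^ 2 : (ZMod (p ^ (2 * l)))ˣ) : ZMod (p ^ (2 * l))) n) (lm p l) BR
      (fun b _ v hv => hBR b v hv) u
    have e2 := aF_sum lap univ (fun b => (w b : ℂ))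
      (fun b n => cL (p ^ (2 * l)) ((b ^ 2 : (ZMod (p ^ (2 * l)))ˣ) : ZMod (p ^ (2 * l))) n) (lm p l) BL
      (fun b _ v hv => hBL b v hv) (-u)
    have e3 := aF_sum lap univ (fun b => (w b : ℂ)) (fun b n => cR' p l (b ^ 2) n) (lm' p l) BR'
      (fun b _ v hv => hBR' b v hv) (u - sg p)
    have e4 := aF_sum lap univ (fun b => ((w b / Real.sqrt p : ℝ) : ℂ)) (fun b n => cL' p l (b ^ 2) n) (lm' p l) BL'
      (fun b _ v hv => hBL' b v hv) (-(u - sg p))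
    rw [← hTR] at e1
    rw [← hTL] at e2
    rw [← hTR'] at e3
    rw [← hTL'] at e4
    have e5 : G1 u - PP p * G2 (u - sg p) = ∑ b, (w b : ℂ) *
        ((aF (lm p l) (Mx (cR (p ^ (2 * l)) ((b ^ 2 : (ZMod (p ^ (2 * l)))ˣ) : ZMod (p ^ (2 * l))))) u -
          aF (lm p l) (Mx (cL (p ^ (2 * l)) ((b ^ 2 : (ZMod (p ^ (2 * l)))ˣ) : ZMod (p ^ (2 * l))))) (-u)) -
      PP p * (aF (lm' p l) (Mx (cR' p l (b ^ 2))) (u - sg p) -
        aF (lm' p l) (Mx (cL' p l (b ^ 2))) (-(u - sg p)))) := by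
      rw [hG1, hG2]
      simp only
      rw [e1, e2, e3, e4]
      simp only [Finset.mul_sum, ← Finset.sum_sub_distrib]
      refine Finset.sum_congr rfl fun b _ => ?_
      push_cast
      field_simp
    rw [e5]
    refine (norm_sum_le _ _).trans ?_
    calc _ ≤ ∑ b, w b * (C * Real.exp (-(lm p l) / 2) * Kth) := by
          refine Finset.sum_le_sum fun b _ => ?_
          rw [norm_mul, Complex.norm_real, Real.norm_of_nonneg (hw0 b)]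
          by_cases hb : w b = 0
          · rw [hb, zero_mul, zero_mul]
          exact mul_le_mul_of_nonneg_left (ineqF p l hl hch0 hch1 (b ^ 2) (hloc b hb) u) (hw0 b)
      _ = _ := by rw [← Finset.sum_mul, hw1, one_mul]
  have hD := norm_D_le (fun t => G1 t - PP p * G2 (t - sg p)) _ hA (-U)
  rw [D_sub G1 (fun t => PP p * G2 (t - sg p)), D_const (PP p) (fun t => G2 (t - sg p)), D_shift G2 (sg p)] at hD
  rw [show -U - sg p = -(U + sg p) by ring] at hD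
  rw [hG1, D_sub (aF (lm p l) (Mx TR)) (fun t => aF (lm p l) (Mx TL) (-t))] at hD
  rw [hG2, D_sub (aF (lm' p l) (Mx TR')) (fun t => (Real.sqrt p : ℂ) * aF (lm' p l) (Mx TL') (-t)),
    D_const (Real.sqrt p : ℂ) (fun t => aF (lm' p l) (Mx TL') (-t))] at hD
  rw [(ser (lm p l) _ TR hR2 hMR (-U)).1, (ser (lm p l) _ TL hL2 hML (-U)).2,
    (ser (lm' p l) _ TR' hR2' hMR' (-(U + sg p))).1, (ser (lm' p l) _ TL' hL2' hML' (-(U + sg p))).2] at hD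
  simp only [neg_neg, sub_neg_eq_add, ← sub_eq_add_neg] at hD
  exact hD

end

end Pool.Agent.T9h54.MY
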