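import Pool.Agent.T9h54.MY.Avg

/-!
# The localised weights, with the averages of Kloosterman sums modulo `p ^ (2l - 1)`
-/

set_option autoImplicit false

open Filter Topology Finset

namespace Pool.Agent.T9h54.MY

open Pool.Agent.Y821.ME
open Pool.Agent.T9h54.MX (nu tg norm_nu abs_tg card_units_ge loc_sum Wt yb Near w_le exists_K exists_l cos_sq_le)

/-- the localised weights -/
theorem weightsO (Y p : ℕ) [Fact p.Prime] (hp2 : p ≠ 2) (S : Finset ℤ) (hS : S ⊆ Gs Y p) (x₀ δ ε : ℝ)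
    (hδ : 0 < δ) (hδ2 : δ ≤ 1 / 2) (hε : 0 < ε) :
    ∃ κ : ℝ, 0 < κ ∧ ∃ l₀ : ℕ, 2 ≤ l₀ ∧ ∀ l : ℕ, l₀ ≤ l → ∃ r : ℤ → (ZMod (p ^ (2 * l)))ˣ,
    (∀ g ∈ Gs Y p, (g : ZMod (p ^ (2 * l))) * (r g : ZMod (p ^ (2 * l))) ^ 2 = 1) ∧
    ∀ E : Finset (ZMod (p ^ (2 * l)))ˣ, (E.card : ℝ) ≤ κ * (p : ℝ) ^ (2 * l) →
    ∃ w : (ZMod (p ^ (2 * l)))ˣ → ℝ, (∀ b, 0 ≤ w b) ∧ ∑ b, w b = 1 ∧
      (∀ b, w b ≠ 0 → b ∉ E ∧ Near δ (yb (p ^ (2 * l)) x₀ b)) ∧
      (∀ g ∈ Gs Y p, |∑ b, w b * (ee (p ^ (2 * l)) (2 * (b : ZMod (p ^ (2 * l))) * r g)).re - tg S g| ≤ ε) ∧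
      ∀ (g : ℤ) (g' : (ZMod (p ^ (2 * l - 1)))ˣ), (g' : ZMod (p ^ (2 * l - 1))) = (g : ZMod (p ^ (2 * l - 1))) →
        Squarefree g → ¬ (p : ℤ) ∣ g → -(Y : ℤ) ≤ g → g ≤ (Y : ℤ) →
        ‖∑ b, (w b : ℂ) * Kl (p ^ (2 * l - 1)) ((rd p l (b : ZMod (p ^ (2 * l)))) ^ 2 *
          ((g'⁻¹ : (ZMod (p ^ (2 * l - 1)))ˣ) : ZMod (p ^ (2 * l - 1))))‖ ≤ ε * (p : ℝ) ^ l := by
  classical
  obtain ⟨l₁, hl₁, hall⟩ := rz2y Y p hp2 S hS
  set ε' : ℝ := min ε 1 with hε'
  have hε'0 : 0 < ε' := lt_min hε one_pos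
  have hε'1 : ε' ≤ 1 := min_le_right _ _
  obtain ⟨K, hK1, hK⟩ := exists_K δ (ε' / 12) hδ hδ2 (by positivity)
  set c : ℝ := (Nat.centralBinom K : ℝ) / 4 ^ K with hc
  have hKR : (1 : ℝ) ≤ K := by exact_mod_cast hK1
  have hc0 : 0 < c := by
    rw [hc]
    have : (0 : ℝ) < Nat.centralBinom K := by exact_mod_cast Nat.centralBinom_pos K
    positivity
  have hcK : 1 ≤ 2 * K * c := by
    have h1 := Nat.four_pow_le_two_mul_self_mul_centralBinom K (by omega)
    have h2 : ((4 ^ K : ℕ) : ℝ) ≤ ((2 * K * Nat.centralBinom K : ℕ) : ℝ) := by exact_mod_cast h1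
    push_cast at h2
    rw [hc, ← mul_div_assoc, le_div_iff₀ (by positivity), one_mul]
    exact h2
  have hρ0 : 0 ≤ 1 - 4 * δ ^ 2 := by nlinarith
  have hρK : (1 - 4 * δ ^ 2) ^ K ≤ ε' * c / 12 := by
    have h1 : (1 - 4 * δ ^ 2) ^ K * 1 ≤ (1 - 4 * δ ^ 2) ^ K * (2 * K * c) :=
      mul_le_mul_of_nonneg_left hcK (pow_nonneg hρ0 K)
    have h2 : (1 - 4 * δ ^ 2) ^ K * (2 * K * c) = ((1 - 4 * δ ^ 2) ^ K * (2 * K)) * c := by ring
    have h3 := mul_le_mul_of_nonneg_right hK hc0.le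
    linarith
  set s : ℝ := 2 ^ S.card with hs
  have hs0 : 0 < s := by positivity
  obtain ⟨l₂, hl₂⟩ := exists_l p (s * (4 * K)) (ε' * c / 12) (by positivity)
  refine ⟨ε' * c / (24 * s), by positivity, max (max l₁ l₂) 2, le_max_right _ _, fun l hl0 => ?_⟩
  have hl : max l₁ l₂ ≤ l := (le_max_left _ _).trans hl0
  have hl22 : 2 ≤ l := (le_max_right _ _).trans hl0
  have hl1 : 1 ≤ l := hl₁.trans ((le_max_left _ _).trans hl)
  obtain ⟨r, hr, hRy, w, hw0, hw1, hwg, hwf⟩ := hall l ((le_max_left _ _).trans hl)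
  refine ⟨r, hr, fun E hE => ?_⟩
  have herr := hl₂ l ((le_max_right _ _).trans hl)
  set φ : ℝ := (Fintype.card (ZMod (p ^ (2 * l)))ˣ : ℝ) with hφ
  have hφge := card_units_ge p l hl1
  have hp0 : (0 : ℝ) < p := by exact_mod_cast (Fact.out : p.Prime).pos
  have hpq : (0 : ℝ) < (p : ℝ) ^ (2 * l) := by positivity
  have hφ0 : 0 < φ := by
    have : (0 : ℝ) < (p : ℝ) ^ (2 * l) / 2 := by positivity
    linarith
  have hwle := w_le p l _ S w hwf
  have happ := Pool.Agent.T9h54.MX.approx p l hl1 _ S w hwf K x₀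
  set u : (ZMod (p ^ (2 * l)))ˣ → ℝ := fun b => w b * Wt (p ^ (2 * l)) K x₀ b with hu
  have hW0 : ∀ b : (ZMod (p ^ (2 * l)))ˣ, 0 ≤ Wt (p ^ (2 * l)) K x₀ b := by
    intro b
    unfold Wt
    rw [pow_mul]
    positivity
  have hW1 : ∀ b : (ZMod (p ^ (2 * l)))ˣ, Wt (p ^ (2 * l)) K x₀ b ≤ 1 := by
    intro b
    unfold Wt
    rw [pow_mul]
    exact pow_le_one₀ (sq_nonneg _) (Real.cos_sq_le_one _)
  have hu0 : ∀ b, 0 ≤ u b := fun b => mul_nonneg (hw0 b) (hW0 b)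
  set bad : (ZMod (p ^ (2 * l)))ˣ → Prop := fun b => b ∈ E ∨ ¬ Near δ (yb (p ^ (2 * l)) x₀ b) with hbad
  set u' : (ZMod (p ^ (2 * l)))ˣ → ℝ := fun b => if bad b then 0 else u b with hu'
  have hu'0 : ∀ b, 0 ≤ u' b := by
    intro b
    rw [hu']
    simp only
    split_ifs
    · exact le_rfl
    · exact hu0 b
  have hdiff : ∀ b, u b - u' b ≤ (if b ∈ E then s / φ else 0) + w b * (1 - 4 * δ ^ 2) ^ K := by
    intro b
    have hwρ : 0 ≤ w b * (1 - 4 * δ ^ 2) ^ K := mul_nonneg (hw0 b) (pow_nonneg hρ0 K)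
    have hsφ : 0 ≤ s / φ := by positivity
    rw [hu']
    simp only
    by_cases hb : bad b
    · rw [if_pos hb, sub_zero]
      rcases hb with h | h
      · rw [if_pos h]
        have h1 : u b ≤ w b := by
          calc w b * Wt (p ^ (2 * l)) K x₀ b ≤ w b * 1 := mul_le_mul_of_nonneg_left (hW1 b) (hw0 b)
            _ = w b := mul_one _
        have h2 := hwle b
        linarith
      · have h1 : Wt (p ^ (2 * l)) K x₀ b ≤ (1 - 4 * δ ^ 2) ^ K := by
          unfold Wt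
          rw [pow_mul]
          exact pow_le_pow_left₀ (sq_nonneg _) (cos_sq_le hδ h) K
        have h2 : u b ≤ w b * (1 - 4 * δ ^ 2) ^ K := mul_le_mul_of_nonneg_left h1 (hw0 b)
        split_ifs
        · linarith
        · linarith
    · rw [if_neg hb, sub_self]
      split_ifs
      · linarith
      · linarith
  have hdiff0 : ∀ b, 0 ≤ u b - u' b := by
    intro b
    rw [hu']
    simp only
    split_ifs
    · rw [sub_zero]; exact hu0 b
    · rw [sub_self]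
  have hmass : ∑ b, (u b - u' b) ≤ ε' * c / 6 := by
    calc ∑ b, (u b - u' b) ≤ ∑ b, ((if b ∈ E then s / φ else 0) + w b * (1 - 4 * δ ^ 2) ^ K) :=
          Finset.sum_le_sum fun b _ => hdiff b
      _ = E.card * (s / φ) + (1 - 4 * δ ^ 2) ^ K := by
          rw [Finset.sum_add_distrib, ← Finset.sum_mul, hw1, one_mul, Finset.sum_ite_mem, Finset.univ_inter,
            Finset.sum_const, nsmul_eq_mul]
      _ ≤ ε' * c / 12 + ε' * c / 12 := by
          refine add_le_add ?_ hρK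
          have h1 : (E.card : ℝ) * (s / φ) ≤ (ε' * c / (24 * s) * (p : ℝ) ^ (2 * l)) * (s / φ) :=
            mul_le_mul_of_nonneg_right hE (by positivity)
          refine h1.trans ?_
          have h2 : (ε' * c / (24 * s) * (p : ℝ) ^ (2 * l)) * (s / φ) = ε' * c / 12 * (((p : ℝ) ^ (2 * l) / 2) / φ) := by
            field_simp
            ring
          rw [h2]
          have h3 : ((p : ℝ) ^ (2 * l) / 2) / φ ≤ 1 := by
            rw [div_le_one hφ0]; exact hφge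
          have h4 : 0 ≤ ε' * c / 12 := by positivity
          nlinarith
      _ = ε' * c / 6 := by ring
  have happrox : ∀ (x : ZMod (p ^ (2 * l))) (t : ℝ), ∑ b, w b * (ee (p ^ (2 * l)) (x * b)).re = t →
      |∑ b, u' b * (ee (p ^ (2 * l)) (x * b)).re - c * t| ≤ ε' * c / 4 := by
    intro x t ht
    have h1 := happ x
    rw [ht] at h1
    have h2 : |∑ b, u' b * (ee (p ^ (2 * l)) (x * b)).re - ∑ b, u b * (ee (p ^ (2 * l)) (x * b)).re| ≤ ε' * c / 6 := by
      rw [← Finset.sum_sub_distrib]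
      refine (Finset.abs_sum_le_sum_abs _ _).trans (le_trans (Finset.sum_le_sum fun b _ => ?_) hmass)
      rw [← sub_mul, abs_mul, abs_sub_comm, abs_of_nonneg (hdiff0 b)]
      have h3 : |(ee (p ^ (2 * l)) (x * (b : ZMod (p ^ (2 * l))))).re| ≤ 1 :=
        (Complex.abs_re_le_norm _).trans (by rw [norm_ee])
      calc (u b - u' b) * |(ee (p ^ (2 * l)) (x * (b : ZMod (p ^ (2 * l))))).re| ≤ (u b - u' b) * 1 :=
            mul_le_mul_of_nonneg_left h3 (hdiff0 b)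
        _ = u b - u' b := mul_one _
    have h4 := abs_sub_le (∑ b, u' b * (ee (p ^ (2 * l)) (x * b)).re) (∑ b, u b * (ee (p ^ (2 * l)) (x * b)).re) (c * t)
    have h5 : |∑ b, u b * (ee (p ^ (2 * l)) (x * b)).re - c * t| ≤ ε' * c / 12 := h1.trans herr
    linarith
  have hZ : |∑ b, u' b - c| ≤ ε' * c / 4 := by
    have h1 := happrox 0 1 (by
      rw [← hw1]
      refine Finset.sum_congr rfl fun b _ => ?_
      simp [ee])
    have h2 : ∑ b : (ZMod (p ^ (2 * l)))ˣ, u' b * (ee (p ^ (2 * l)) (0 * (b : ZMod (p ^ (2 * l))))).re = ∑ b, u' b := by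
      refine Finset.sum_congr rfl fun b _ => ?_
      simp [ee]
    rw [h2, mul_one] at h1
    exact h1
  set Z : ℝ := ∑ b, u' b with hZdef
  have hZc : 3 / 4 * c ≤ Z := by
    have := (abs_le.mp hZ).1
    nlinarith
  have hZ0 : 0 < Z := by
    have : 0 < 3 / 4 * c := by positivity
    linarith
  refine ⟨fun b => u' b / Z, fun b => div_nonneg (hu'0 b) hZ0.le, ?_, ?_, ?_, ?_⟩
  · rw [← Finset.sum_div, ← hZdef, div_self hZ0.ne']
  · intro b hb
    have h1 : u' b ≠ 0 := by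
      intro h
      apply hb
      simp only [h, zero_div]
    have h2 : ¬ bad b := by
      intro h
      apply h1
      rw [hu']
      simp only
      rw [if_pos h]
    rw [hbad] at h2
    simp only [not_or, not_not] at h2
    exact h2
  · intro g hg
    have h1 := hwg g hg
    have h2 : ∀ b : (ZMod (p ^ (2 * l)))ˣ, (2 * (b : ZMod (p ^ (2 * l))) * r g : ZMod (p ^ (2 * l))) =
        2 * (r g : ZMod (p ^ (2 * l))) * b := fun b => by ring
    simp only [h2] at h1 ⊢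
    have h3 := happrox (2 * (r g : ZMod (p ^ (2 * l)))) (tg S g) h1
    have h4 : ∑ b, u' b / Z * (ee (p ^ (2 * l)) (2 * (r g : ZMod (p ^ (2 * l))) * b)).re - tg S g =
        (∑ b, u' b * (ee (p ^ (2 * l)) (2 * (r g : ZMod (p ^ (2 * l))) * b)).re - tg S g * Z) / Z := by
      rw [sub_div, mul_div_cancel_right₀ _ hZ0.ne', Finset.sum_div]
      congr 1
      refine Finset.sum_congr rfl fun b _ => ?_
      ring
    rw [h4, abs_div, abs_of_pos hZ0, div_le_iff₀ hZ0]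
    have h5 : |∑ b, u' b * (ee (p ^ (2 * l)) (2 * (r g : ZMod (p ^ (2 * l))) * b)).re - tg S g * Z| ≤
        ε' * c / 4 + 1 / 2 * (ε' * c / 4) := by
      have h6 := abs_sub_le (∑ b, u' b * (ee (p ^ (2 * l)) (2 * (r g : ZMod (p ^ (2 * l))) * b)).re) (c * tg S g)
        (tg S g * Z)
      have h7 : |c * tg S g - tg S g * Z| ≤ 1 / 2 * (ε' * c / 4) := by
        have : c * tg S g - tg S g * Z = -(tg S g * (Z - c)) := by ring
        rw [this, abs_neg, abs_mul]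
        exact mul_le_mul (abs_tg S g) hZ (abs_nonneg _) (by norm_num)
      linarith
    have h8 : ε' * (3 / 4 * c) ≤ ε * Z := by
      exact mul_le_mul (min_le_left _ _) hZc (by positivity) hε.le
    have h9 : 0 < ε' * c := by positivity
    nlinarith
  · intro g g' hg' hg1 hg2 hg3 hg4
    set c' : ZMod (p ^ (2 * l - 1)) := ((g'⁻¹ : (ZMod (p ^ (2 * l - 1)))ˣ) : ZMod (p ^ (2 * l - 1))) with hc'
    have hpl : (0 : ℝ) < (p : ℝ) ^ l := by positivity
    have hu1 : ‖∑ b, (u b : ℂ) * Kl (p ^ (2 * l - 1)) ((rd p l (b : ZMod (p ^ (2 * l)))) ^ 2 * c')‖ ≤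
        2 * (p : ℝ) ^ l * (ε' * c / 12) := by
      by_cases hsq : IsSquare (g : ZMod p)
      · have hgG : g ∈ Gs Y p := by
          rw [Two.mem_Gs]
          exact ⟨⟨hg3, hg4⟩, hg1, hg2, hsq⟩
        have h1 : ∑ b, (u b : ℂ) * Kl (p ^ (2 * l - 1)) ((rd p l (b : ZMod (p ^ (2 * l)))) ^ 2 * c') =
            ∑ x ∈ Xc p l c', ∑ b, (u b : ℂ) * ee (p ^ (2 * l)) (((p : ZMod (p ^ (2 * l))) *
        ((((x : ZMod (p ^ (2 * l - 1))) + c' * ((x⁻¹ : (ZMod (p ^ (2 * l - 1)))ˣ) :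
          ZMod (p ^ (2 * l - 1)))).val : ℕ) : ZMod (p ^ (2 * l)))) * b) := by
          rw [Finset.sum_comm]
          refine Finset.sum_congr rfl fun b _ => ?_
          rw [Kl_sq p l hl1, Finset.mul_sum]
        rw [h1]
        have h2 : ∀ x ∈ Xc p l c', ‖∑ b, (u b : ℂ) * ee (p ^ (2 * l)) (((p : ZMod (p ^ (2 * l))) *
        ((((x : ZMod (p ^ (2 * l - 1))) + c' * ((x⁻¹ : (ZMod (p ^ (2 * l - 1)))ˣ) :
          ZMod (p ^ (2 * l - 1)))).val : ℕ) : ZMod (p ^ (2 * l)))) * b)‖ ≤ ε' * c / 12 := by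
          intro x hx
          set t : ZMod (p ^ (2 * l)) := ((p : ZMod (p ^ (2 * l))) *
            ((((x : ZMod (p ^ (2 * l - 1))) + c' * ((x⁻¹ : (ZMod (p ^ (2 * l - 1)))ˣ) :
              ZMod (p ^ (2 * l - 1)))).val : ℕ) : ZMod (p ^ (2 * l)))) with ht
          have h3 := approxC p l hl1 _ S w hwf K x₀ t
          have h4 : ∑ b, (w b : ℂ) * ee (p ^ (2 * l)) (t * b) = 0 := by
            have h5 := riesz_zero (p ^ (2 * l)) (fun m => ((r m : (ZMod (p ^ (2 * l)))ˣ) : ZMod (p ^ (2 * l)))) nu S t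
              (fun h hh => by
                have h6 := freq_ne p l Y hl1 S hS hp2 r hr hRy g hgG g' hg' x hx h hh
                have h7 := RZ2.sum_units_eq_zero p l _ h6
                rw [← h7]
                refine Finset.sum_congr rfl fun b _ => ?_
                congr 1
                exact mul_comm _ _)
            calc ∑ b, (w b : ℂ) * ee (p ^ (2 * l)) (t * b) =
                (Fintype.card (ZMod (p ^ (2 * l)))ˣ : ℂ)⁻¹ * ∑ b : (ZMod (p ^ (2 * l)))ˣ,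
                  (∏ j ∈ S, RZ2.fac (p ^ (2 * l)) (fun m => ((r m : (ZMod (p ^ (2 * l)))ˣ) : ZMod (p ^ (2 * l)))) nu
                    (b : ZMod (p ^ (2 * l))) j) * ee (p ^ (2 * l)) (t * b) := by
                  rw [Finset.mul_sum (s := (Finset.univ : Finset (ZMod (p ^ (2 * l)))ˣ))]
                  refine Finset.sum_congr rfl fun b _ => ?_
                  rw [hwf b]
                  ring
              _ = 0 := by rw [h5, mul_zero]
          rw [h4, mul_zero, sub_zero] at h3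
          exact h3.trans herr
        refine (norm_sum_le _ _).trans ((Finset.sum_le_sum h2).trans ?_)
        rw [Finset.sum_const, nsmul_eq_mul]
        refine mul_le_mul_of_nonneg_right ?_ (by positivity)
        exact_mod_cast card_Xc p l hp2 hl1 c'
      · have h1 : ∑ b, (u b : ℂ) * Kl (p ^ (2 * l - 1)) ((rd p l (b : ZMod (p ^ (2 * l)))) ^ 2 * c') = 0 := by
          refine Finset.sum_eq_zero fun b _ => ?_
          rw [Kl_sq p l hl1, Xc_empty p l hl22 g g' hg' hsq, Finset.sum_empty, mul_zero]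
        rw [h1, norm_zero]
        positivity
    have hu2 : ‖∑ b, ((u b - u' b : ℝ) : ℂ) * Kl (p ^ (2 * l - 1)) ((rd p l (b : ZMod (p ^ (2 * l)))) ^ 2 * c')‖ ≤
        2 * (p : ℝ) ^ l * (ε' * c / 6) := by
      refine (norm_sum_le _ _).trans ?_
      calc ∑ b, ‖((u b - u' b : ℝ) : ℂ) * Kl (p ^ (2 * l - 1)) ((rd p l (b : ZMod (p ^ (2 * l)))) ^ 2 * c')‖
          ≤ ∑ b, (u b - u' b) * (2 * (p : ℝ) ^ l) := by
            refine Finset.sum_le_sum fun b _ => ?_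
            rw [norm_mul, Complex.norm_real, Real.norm_of_nonneg (hdiff0 b)]
            exact mul_le_mul_of_nonneg_left (norm_Kl_le p l hp2 hl1 b c') (hdiff0 b)
        _ = 2 * (p : ℝ) ^ l * ∑ b, (u b - u' b) := by rw [← Finset.sum_mul, mul_comm]
        _ ≤ _ := mul_le_mul_of_nonneg_left hmass (by positivity)
    have h3 : ∑ b, ((u' b / Z : ℝ) : ℂ) * Kl (p ^ (2 * l - 1)) ((rd p l (b : ZMod (p ^ (2 * l)))) ^ 2 * c') =
        (∑ b, (u b : ℂ) * Kl (p ^ (2 * l - 1)) ((rd p l (b : ZMod (p ^ (2 * l)))) ^ 2 * c') -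
        ∑ b, ((u b - u' b : ℝ) : ℂ) * Kl (p ^ (2 * l - 1)) ((rd p l (b : ZMod (p ^ (2 * l)))) ^ 2 * c')) / (Z : ℂ) := by
      rw [← Finset.sum_sub_distrib, Finset.sum_div]
      refine Finset.sum_congr rfl fun b _ => ?_
      push_cast
      ring
    rw [h3, norm_div, Complex.norm_real, Real.norm_of_nonneg hZ0.le, div_le_iff₀ hZ0]
    refine (norm_sub_le _ _).trans ?_
    have h4 : ε' * (3 / 4 * c) ≤ ε * Z := by
      exact mul_le_mul (min_le_left _ _) hZc (by positivity) hε.le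
    have h5 : 2 * (p : ℝ) ^ l * (ε' * c / 12) + 2 * (p : ℝ) ^ l * (ε' * c / 6) ≤ (p : ℝ) ^ l * (ε' * (3 / 4 * c)) := by
      have : 0 < (p : ℝ) ^ l * (ε' * c) := by positivity
      nlinarith
    have h6 := mul_le_mul_of_nonneg_left h4 hpl.le
    calc _ ≤ 2 * (p : ℝ) ^ l * (ε' * c / 12) + 2 * (p : ℝ) ^ l * (ε' * c / 6) := add_le_add hu1 hu2
      _ ≤ (p : ℝ) ^ l * (ε * Z) := h5.trans h6
      _ = ε * (p : ℝ) ^ l * Z := by ring

end Pool.Agent.T9h54.MY
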